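import Pool.Agent.Lead.Sel.Exo

/- The package KER0. -/

set_option autoImplicit false
open Filter Topology MeasureTheory Set

namespace Pool.Agent.Lead.Sel

noncomputable def GG : ℕ → ℝ → ℝ
  | 0 => Real.cos
  | m + 1 => fun r => ∫ s in (0 : ℝ)..1, s ^ (2 * m) * GG m (r * s)

lemma GG_succ (m : ℕ) (r : ℝ) : GG (m + 1) r = ∫ s in (0 : ℝ)..1, s ^ (2 * m) * GG m (r * s) := rfl

lemma GG_cont (m : ℕ) : Continuous (GG m) := by
  induction m with
  | zero => exact Real.continuous_cos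
  | succ m ih =>
    exact intervalIntegral.continuous_parametric_intervalIntegral_of_continuous'
      (f := fun r s => s ^ (2 * m) * GG m (r * s)) (by unfold Function.uncurry; fun_prop) 0 1

lemma GG_le (m : ℕ) : ∀ r, |GG m r| ≤ 1 := by
  induction m with
  | zero => exact Real.abs_cos_le_one
  | succ m ih =>
    intro r
    rw [GG_succ]
    have := intervalIntegral.norm_integral_le_of_norm_le_const (a := 0) (b := 1) (C := 1)
      (f := fun s => s ^ (2 * m) * GG m (r * s)) (by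
        intro s hs
        rw [uIoc_of_le zero_le_one] at hs
        rw [Real.norm_eq_abs, abs_mul, abs_of_nonneg (pow_nonneg hs.1.le _)]
        exact mul_le_one₀ (pow_le_one₀ hs.1.le hs.2) (abs_nonneg _) (ih _))
    simpa using this

lemma GG_int (m : ℕ) (r : ℝ) :
    r ^ (2 * m + 1) * GG (m + 1) r = ∫ ρ in (0 : ℝ)..r, ρ ^ (2 * m) * GG m ρ := by
  have h := intervalIntegral.smul_integral_comp_mul_left (a := 0) (b := 1)
    (fun ρ => ρ ^ (2 * m) * GG m ρ) r
  rw [mul_zero, mul_one] at h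
  rw [← h, GG_succ, smul_eq_mul, pow_succ', mul_assoc, ← intervalIntegral.integral_const_mul]
  congr 2; funext s; ring

lemma GG_d1 (m : ℕ) (r : ℝ) :
    HasDerivAt (fun r => r ^ (2 * m + 1) * GG (m + 1) r) (r ^ (2 * m) * GG m r) r := by
  simp_rw [GG_int]
  have hc : Continuous (fun ρ : ℝ => ρ ^ (2 * m) * GG m ρ) := by
    have := GG_cont m; fun_prop
  exact (hc.deriv_integral _ 0 r) ▸ ((intervalIntegral.integral_hasDerivAt_right
    (hc.intervalIntegrable _ _) (hc.stronglyMeasurableAtFilter _ _)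
    hc.continuousAt).differentiableAt.hasDerivAt)

lemma GG_one (r : ℝ) : r * GG 1 r = Real.sin r := by
  have := GG_int 0 r
  simpa [GG] using this

lemma GG_d2 (m : ℕ) : ∀ r, HasDerivAt (GG m) (-(r * GG (m + 1) r)) r := by
  induction m with
  | zero => intro r; rw [zero_add, GG_one]; exact Real.hasDerivAt_cos r
  | succ m ih =>
    intro r
    have h1 := GG_cont m
    have h2 := GG_cont (m + 1)
    have h := intervalIntegral.hasDerivAt_integral_of_dominated_loc_of_deriv_le (μ := volume)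
      (a := 0) (b := 1) (x₀ := r) (s := Metric.ball r 1)
      (F := fun r s => s ^ (2 * m) * GG m (r * s))
      (F' := fun r s => s ^ (2 * m) * (-(r * s * GG (m + 1) (r * s)) * s))
      (bound := fun _ => |r| + 1) (Metric.ball_mem_nhds r one_pos)
      (Eventually.of_forall fun x => (by fun_prop : Continuous _).aestronglyMeasurable)
      ((by fun_prop : Continuous _).intervalIntegrable _ _)
      (by fun_prop : Continuous _).aestronglyMeasurable
      (Eventually.of_forall fun s hs x hx => by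
        rw [uIoc_of_le zero_le_one] at hs
        have hx' : |x| ≤ |r| + 1 := by
          have := abs_sub_abs_le_abs_sub x r
          have h3 : |x - r| < 1 := hx
          linarith
        have hs1 : |s| ≤ 1 := by rw [abs_of_pos hs.1]; exact hs.2
        simp only [Real.norm_eq_abs, abs_mul, abs_neg, abs_pow]
        have h4 : |s| ^ (2 * m) ≤ 1 := pow_le_one₀ (abs_nonneg _) hs1
        have h5 := GG_le (m + 1) (x * s)
        calc _ ≤ 1 * ((|r| + 1) * 1 * 1 * 1) := by gcongr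
          _ = _ := by ring)
      intervalIntegrable_const
      (Eventually.of_forall fun s _ x _ =>
        ((ih (x * s)).comp x ((hasDerivAt_id' x).mul_const s)).const_mul _ |>.congr_deriv
          (by ring))
    refine h.2.congr_deriv ?_
    rw [GG_succ, ← intervalIntegral.integral_const_mul, ← intervalIntegral.integral_neg]
    congr 1; funext s; ring

lemma GG_rec (m : ℕ) {r : ℝ} (hr : r ≠ 0) :
    GG m r = (2 * m + 1) * GG (m + 1) r - r ^ 2 * GG (m + 2) r := by
  have h1 := GG_d1 m r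
  have h2 := (hasDerivAt_pow (2 * m + 1) r).mul (GG_d2 (m + 1) r)
  have h3 := h1.unique h2
  have h4 : r ^ (2 * m) ≠ 0 := pow_ne_zero _ hr
  apply mul_left_cancel₀ h4
  rw [h3]; simp only [Nat.add_sub_cancel]; push_cast; ring

lemma kk_bd (m : ℕ) : (∃ B : ℝ, ∀ r : ℝ, 1 ≤ r → |r ^ m * GG m r| ≤ B) ∧
    (∃ B : ℝ, ∀ r : ℝ, 1 ≤ r → |r ^ (m + 1) * GG (m + 1) r| ≤ B) := by
  induction m with
  | zero =>
    refine ⟨⟨1, fun r _ => by simpa using GG_le 0 r⟩, ⟨1, fun r _ => ?_⟩⟩
    rw [zero_add, pow_one, GG_one]; exact Real.abs_sin_le_one r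
  | succ m ih =>
    obtain ⟨⟨B1, h1⟩, ⟨B2, h2⟩⟩ := ih
    refine ⟨⟨B2, h2⟩, ⟨(2 * m + 1) * B2 + B1, fun r hr => ?_⟩⟩
    have hr0 : 0 < r := by linarith
    have e : r ^ (m + 1 + 1) * GG (m + 1 + 1) r =
        (2 * m + 1) * (r ^ (m + 1) * GG (m + 1) r) / r - r ^ m * GG m r := by
      rw [GG_rec m hr0.ne']; field_simp; ring
    rw [e]
    refine (abs_sub _ _).trans (add_le_add ?_ (h1 r hr))
    rw [abs_div, abs_mul, abs_of_pos hr0, abs_of_pos (by positivity : (0 : ℝ) < 2 * m + 1)]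
    refine (div_le_self (by positivity) hr).trans ?_
    gcongr; exact h2 r hr

lemma kk_lip (m : ℕ) : ∃ C : ℝ, 0 < C ∧ ∀ r r' : ℝ, 0 ≤ r → 0 ≤ r' →
    |r ^ m * GG m r - r' ^ m * GG m r'| ≤ C * |r - r'| := by
  obtain ⟨⟨B1, h1⟩, ⟨B2, h2⟩⟩ := kk_bd m
  have hB1 : 0 ≤ B1 := le_trans (abs_nonneg _) (h1 1 le_rfl)
  have hB2 : 0 ≤ B2 := le_trans (abs_nonneg _) (h2 1 le_rfl)
  refine ⟨m * (B1 + 1) + (B2 + 1), by positivity, fun r r' hr hr' => ?_⟩
  refine (convex_Ici (0 : ℝ)).norm_image_sub_le_of_norm_hasDerivWithin_le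
    (f := fun r => r ^ m * GG m r)
    (f' := fun r => m * r ^ (m - 1) * GG m r + r ^ m * -(r * GG (m + 1) r))
    (fun x _ => ((hasDerivAt_pow m x).mul (GG_d2 m x)).hasDerivWithinAt) (fun x hx => ?_) hr' hr
  have hx0 : (0 : ℝ) ≤ x := hx
  rw [Real.norm_eq_abs]
  refine (abs_add_le _ _).trans (add_le_add ?_ ?_)
  · rw [mul_assoc, abs_mul, Nat.abs_cast]
    rcases Nat.eq_zero_or_pos m with rfl | hm
    · simp
    refine mul_le_mul_of_nonneg_left ?_ (Nat.cast_nonneg m)
    rcases le_total x 1 with h | h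
    · rw [abs_mul, abs_of_nonneg (pow_nonneg hx0 _)]
      have := mul_le_one₀ (pow_le_one₀ hx0 h (n := m - 1)) (abs_nonneg _) (GG_le m x)
      linarith
    · have h3 := h1 x h
      rw [abs_mul, abs_of_nonneg (pow_nonneg hx0 _)] at h3 ⊢
      have h4 : x ^ (m - 1) ≤ x ^ m := pow_le_pow_right₀ h (Nat.sub_le _ _)
      have := mul_le_mul_of_nonneg_right h4 (abs_nonneg (GG m x))
      linarith
  · rw [mul_neg, abs_neg, ← mul_assoc, ← pow_succ]
    rcases le_total x 1 with h | h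
    · rw [abs_mul, abs_of_nonneg (pow_nonneg hx0 _)]
      have := mul_le_one₀ (pow_le_one₀ hx0 h (n := m + 1)) (abs_nonneg _) (GG_le (m + 1) x)
      linarith
    · linarith [h2 x h]

lemma int_gauss {g : ℝ → ℝ} (hg : Continuous g) (hb : ∀ x, |g x| ≤ 1) (k : ℕ) {a : ℝ} (ha : 0 < a) :
    IntegrableOn (fun ξ => g ξ * ξ ^ k * Real.exp (-(a * ξ ^ 2))) (Ioi 0) := by
  have h := integrableOn_rpow_mul_exp_neg_mul_sq ha (s := k)
    (by have : (0 : ℝ) ≤ k := Nat.cast_nonneg k
        linarith)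
  refine Integrable.mono' h (by fun_prop : Continuous _).aestronglyMeasurable ?_
  filter_upwards [ae_restrict_mem measurableSet_Ioi] with ξ hξ
  have hξ0 : (0 : ℝ) < ξ := hξ
  rw [Real.norm_eq_abs, abs_mul, abs_mul, Real.abs_exp, abs_of_pos (pow_pos hξ0 k),
    Real.rpow_natCast, neg_mul]
  gcongr
  exact mul_le_of_le_one_left (by positivity) (hb ξ)

lemma tend_gauss {g : ℝ → ℝ} (hb : ∀ x, |g x| ≤ 1) (k : ℕ) {a : ℝ} (ha : 0 < a) :
    Tendsto (fun ξ => g ξ * ξ ^ k * Real.exp (-(a * ξ ^ 2))) atTop (𝓝 0) := by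
  have h1 : Tendsto (fun ξ : ℝ => Real.exp ((k + 1 : ℕ) ^ 2 / (4 * a)) * ξ⁻¹) atTop (𝓝 0) := by
    simpa using tendsto_inv_atTop_zero.const_mul (Real.exp ((k + 1 : ℕ) ^ 2 / (4 * a)))
  refine squeeze_zero_norm' ?_ h1
  filter_upwards [eventually_gt_atTop (0 : ℝ)] with ξ hξ
  have h2 := gauss_bd (k + 1) ha ξ hξ.le
  rw [Real.norm_eq_abs, abs_mul, abs_mul, Real.abs_exp, abs_of_pos (pow_pos hξ k),
    ← div_eq_mul_inv, le_div_iff₀ hξ]
  refine le_trans ?_ h2
  have h3 : ξ ^ (k + 1) ≤ (1 + ξ) ^ (k + 1) := by gcongr; linarith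
  calc _ ≤ 1 * ξ ^ k * Real.exp (-(a * ξ ^ 2)) * ξ := by gcongr; exact hb ξ
    _ = ξ ^ (k + 1) * Real.exp (-(a * ξ ^ 2)) := by ring
    _ ≤ _ := by gcongr

noncomputable def JJ (m k : ℕ) (c a : ℝ) : ℝ :=
  ∫ ξ in Ioi (0 : ℝ), GG m (c * ξ) * ξ ^ k * Real.exp (-(a * ξ ^ 2))

lemma JJ_int (m k : ℕ) (c : ℝ) {a : ℝ} (ha : 0 < a) :
    IntegrableOn (fun ξ => GG m (c * ξ) * ξ ^ k * Real.exp (-(a * ξ ^ 2))) (Ioi 0) :=
  int_gauss (g := fun ξ => GG m (c * ξ)) (by have := GG_cont m; fun_prop) (fun x => GG_le m _) k ha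

lemma JJ_parts (m k : ℕ) (c : ℝ) {a : ℝ} (ha : 0 < a) :
    2 * a * JJ m (k + 2) c a = (k + 1) * JJ m k c a - c ^ 2 * JJ (m + 1) (k + 2) c a := by
  have hd : ∀ x ∈ Ici (0 : ℝ), HasDerivAt
      (fun ξ => GG m (c * ξ) * ξ ^ (k + 1) * Real.exp (-(a * ξ ^ 2)))
      ((k + 1) * (GG m (c * x) * x ^ k * Real.exp (-(a * x ^ 2))) -
        c ^ 2 * (GG (m + 1) (c * x) * x ^ (k + 2) * Real.exp (-(a * x ^ 2))) -
        2 * a * (GG m (c * x) * x ^ (k + 2) * Real.exp (-(a * x ^ 2)))) x := by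
    intro x _
    have h1 := (GG_d2 m (c * x)).comp x ((hasDerivAt_id' x).const_mul c)
    have h2 := hasDerivAt_pow (k + 1) x
    have h3 := (((hasDerivAt_pow 2 x).const_mul a).neg).exp
    refine ((h1.mul h2).mul h3).congr_deriv ?_
    simp only [Function.comp, Nat.add_sub_cancel, Pi.mul_apply, Pi.neg_apply]
    push_cast; ring
  have i1 := (JJ_int m k c ha).const_mul ((k : ℝ) + 1)
  have i2 := (JJ_int (m + 1) (k + 2) c ha).const_mul (c ^ 2)
  have i3 := (JJ_int m (k + 2) c ha).const_mul (2 * a)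
  have h := integral_Ioi_of_hasDerivAt_of_tendsto' hd ((i1.sub i2).sub i3)
    (tend_gauss (g := fun ξ => GG m (c * ξ)) (fun x => GG_le m _) (k + 1) ha)
  have i12 : Integrable (fun x => ((k : ℝ) + 1) * (GG m (c * x) * x ^ k * Real.exp (-(a * x ^ 2))) -
      c ^ 2 * (GG (m + 1) (c * x) * x ^ (k + 2) * Real.exp (-(a * x ^ 2))))
      (volume.restrict (Ioi 0)) := i1.sub i2
  rw [integral_sub i12 i3, integral_sub i1 i2, integral_const_mul, integral_const_mul,
    integral_const_mul] at h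
  simp only [JJ]
  simp only [ne_eq, Nat.add_eq_zero_iff, one_ne_zero, and_false, not_false_eq_true, zero_pow,
    mul_zero, zero_mul, sub_self] at h
  linarith

lemma JJ_rec (m : ℕ) {c : ℝ} (hc : 0 < c) {a : ℝ} (ha : 0 < a) :
    2 * a * JJ (m + 1) (2 * m + 2) c a = JJ m (2 * m) c a := by
  rw [JJ_parts (m + 1) (2 * m) c ha]
  simp only [JJ]
  rw [← integral_const_mul, ← integral_const_mul, ← integral_sub
    ((JJ_int _ _ c ha).const_mul _) ((JJ_int _ _ c ha).const_mul _)]
  refine setIntegral_congr_fun measurableSet_Ioi fun ξ hξ => ?_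
  have hξ0 : (0 : ℝ) < ξ := hξ
  rw [GG_rec m (r := c * ξ) (by positivity)]
  push_cast; ring

lemma JJ_zero (c : ℝ) {a : ℝ} (ha : 0 < a) :
    JJ 0 0 c a = 1 / 2 * (Real.pi / a) ^ (1 / 2 : ℝ) * Real.exp (-(c ^ 2 / (4 * a))) := by
  have h := fourierIntegral_gaussian (b := (a : ℂ)) (by simpa using ha) (c : ℂ)
  have hi : Integrable (fun x : ℝ => Complex.exp (Complex.I * c * x) * Complex.exp (-(a : ℂ) * x ^ 2)) := by
    have := integrable_cexp_quadratic (b := (a : ℂ)) (by simpa using ha) (Complex.I * c) 0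
    refine this.congr (Eventually.of_forall fun x => ?_)
    simp only; rw [← Complex.exp_add]; congr 1; ring
  have h2 := congrArg Complex.re h
  rw [← RCLike.re_to_complex, ← integral_re hi] at h2
  have h3 : ∀ x : ℝ, RCLike.re (Complex.exp (Complex.I * c * x) * Complex.exp (-(a : ℂ) * x ^ 2)) =
      (fun y => GG 0 (c * y) * y ^ 0 * Real.exp (-(a * y ^ 2))) |x| := by
    intro x
    have e1 : Complex.exp (-(a : ℂ) * x ^ 2) = ((Real.exp (-(a * x ^ 2)) : ℝ) : ℂ) := by
      push_cast; ring_nf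
    have e2 : Complex.I * c * x = ((c * x : ℝ) : ℂ) * Complex.I := by push_cast; ring
    rw [RCLike.re_to_complex, e1, e2, Complex.re_mul_ofReal, Complex.exp_ofReal_mul_I_re]
    simp only [GG, pow_zero, mul_one, sq_abs]
    congr 1
    rcases abs_cases x with h | h <;> simp [h.1]
  simp_rw [h3] at h2
  rw [integral_comp_abs (f := fun y => GG 0 (c * y) * y ^ 0 * Real.exp (-(a * y ^ 2)))] at h2
  have e3 : ((Real.pi : ℂ) / a) ^ (1 / 2 : ℂ) * Complex.exp (-(c : ℂ) ^ 2 / (4 * a)) =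
      (((Real.pi / a) ^ (1 / 2 : ℝ) * Real.exp (-(c ^ 2 / (4 * a))) : ℝ) : ℂ) := by
    rw [Complex.ofReal_mul, Complex.ofReal_cpow (by positivity)]
    push_cast; ring_nf
  rw [e3, Complex.ofReal_re] at h2
  unfold JJ; linarith

lemma JJ_val (m : ℕ) {c : ℝ} (hc : 0 < c) {a : ℝ} (ha : 0 < a) :
    (2 * a) ^ m * JJ m (2 * m) c a = JJ 0 0 c a := by
  induction m with
  | zero => simp
  | succ m ih => rw [← ih, ← JJ_rec m hc ha, show 2 * (m + 1) = 2 * m + 2 by ring]; ring

/-- the Hankel kernel -/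
noncomputable def KK (m : ℕ) (r : ℝ) : ℝ := 2 * ((2 * Real.pi * r) ^ m * GG m (2 * Real.pi * r))

lemma KK_cont (m : ℕ) : Continuous (KK m) := by
  unfold KK; have := GG_cont m; fun_prop

lemma KK_lip (m : ℕ) : ∃ C : ℝ, 0 < C ∧ ∀ r r' : ℝ, 0 ≤ r → 0 ≤ r' →
    |KK m r - KK m r'| ≤ C * |r - r'| := by
  obtain ⟨C, hC, h⟩ := kk_lip m
  refine ⟨2 * (C * (2 * Real.pi)), by positivity, fun r r' hr hr' => ?_⟩
  have := h (2 * Real.pi * r) (2 * Real.pi * r') (by positivity) (by positivity)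
  rw [← mul_sub, abs_mul, abs_of_pos (by positivity : 0 < 2 * Real.pi)] at this
  unfold KK
  rw [← mul_sub, abs_mul, abs_two]
  linarith

lemma KK_psi (e ν : ℝ) (m : ℕ) {t x : ℝ} (ht : 0 < t) (hx : 0 < x) :
    ∫ ξ in Ioi (0 : ℝ), KK m (x * ξ) * psi e ν m t ξ =
      t ^ (-((m : ℝ) + 1 / 2)) * ((e * ((m : ℝ) + 1 / 2 - Real.pi * t⁻¹ * x ^ 2) - ν) * x ^ m *
        Real.exp (-(Real.pi * t⁻¹ * x ^ 2))) := by
  set c := 2 * Real.pi * x with hc
  set a := Real.pi * t with ha
  have hc0 : 0 < c := by positivity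
  have ha0 : 0 < a := by positivity
  have e1 : ∀ ξ, KK m (x * ξ) * psi e ν m t ξ =
      (2 * c ^ m * e * a) * (GG m (c * ξ) * ξ ^ (2 * m + 2) * Real.exp (-(a * ξ ^ 2))) -
      (2 * c ^ m * ν) * (GG m (c * ξ) * ξ ^ (2 * m) * Real.exp (-(a * ξ ^ 2))) := by
    intro ξ
    unfold KK psi
    rw [show 2 * Real.pi * (x * ξ) = c * ξ by rw [hc]; ring, ← ha]; ring
  simp_rw [e1]
  rw [integral_sub ((JJ_int _ _ c ha0).const_mul _) ((JJ_int _ _ c ha0).const_mul _),
    integral_const_mul, integral_const_mul]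
  change _ * JJ m (2 * m + 2) c a - _ * JJ m (2 * m) c a = _
  have h1 := JJ_parts m (2 * m) c ha0
  have h2 := JJ_rec m hc0 ha0
  have h3 := JJ_val m hc0 ha0
  rw [JJ_zero c ha0] at h3
  have h4 : JJ (m + 1) (2 * m + 2) c a = JJ m (2 * m) c a / (2 * a) := by
    rw [← h2]; field_simp
  have h5 : JJ m (2 * m + 2) c a =
      (((2 * m : ℕ) + 1) * JJ m (2 * m) c a - c ^ 2 * JJ (m + 1) (2 * m + 2) c a) / (2 * a) := by
    rw [← h1]; field_simp
  have h6 : JJ m (2 * m) c a = 1 / 2 * (Real.pi / a) ^ (1 / 2 : ℝ) *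
      Real.exp (-(c ^ 2 / (4 * a))) / (2 * a) ^ m := by
    rw [← h3]; field_simp
  have h7 : c ^ 2 / (4 * a) = Real.pi * t⁻¹ * x ^ 2 := by rw [hc, ha]; field_simp; ring
  have h8 : t ^ (-((m : ℝ) + 1 / 2)) = (Real.pi / a) ^ (1 / 2 : ℝ) / t ^ m := by
    have : Real.pi / a = t⁻¹ := by rw [ha]; field_simp
    rw [this, Real.inv_rpow ht.le, Real.rpow_neg ht.le, Real.rpow_add ht, Real.rpow_natCast]
    field_simp
  rw [h5, h4, h6, h7, h8, hc, ha, mul_pow, mul_pow, mul_pow, mul_pow]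
  push_cast
  field_simp

theorem ker0 : KER0 := by
  intro m
  obtain ⟨C, hC, h⟩ := KK_lip m
  refine ⟨KK m, C, KK_cont m, hC, h, fun t x ht hx => ?_⟩
  rw [KK_psi 0 (-1) m ht hx]
  unfold psi; ring

theorem ker1 : KER1 := by
  intro m ν hν
  obtain ⟨C, hC, h⟩ := KK_lip m
  set a : ℝ := m - 2 * ν with ha
  have ha0 : 0 ≤ a := by linarith
  have hK := KK_cont m
  have hpa : Continuous (fun s : ℝ => s ^ a) := Real.continuous_rpow_const ha0
  have hI : Continuous (fun r : ℝ => ∫ s in (0 : ℝ)..1, KK m (r * s) * s ^ a) :=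
    intervalIntegral.continuous_parametric_intervalIntegral_of_continuous'
      (f := fun r s => KK m (r * s) * s ^ a) (by unfold Function.uncurry; fun_prop) 0 1
  refine ⟨fun r => -KK m r + (1 + 2 * a) * ∫ s in (0 : ℝ)..1, KK m (r * s) * s ^ a,
    C + (1 + 2 * a) * C, by fun_prop, by positivity, fun r r' hr hr' => ?_, fun t x ht hx => ?_⟩
  · have h1 := h r r' hr hr'
    have h2 : |(∫ s in (0 : ℝ)..1, KK m (r * s) * s ^ a) -
        ∫ s in (0 : ℝ)..1, KK m (r' * s) * s ^ a| ≤ C * |r - r'| := by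
      rw [← intervalIntegral.integral_sub ((by fun_prop : Continuous _).intervalIntegrable _ _)
        ((by fun_prop : Continuous _).intervalIntegrable _ _)]
      have := intervalIntegral.norm_integral_le_of_norm_le_const (a := 0) (b := 1)
        (C := C * |r - r'|) (f := fun s => KK m (r * s) * s ^ a - KK m (r' * s) * s ^ a) (by
          intro s hs
          rw [uIoc_of_le zero_le_one] at hs
          have hs0 := hs.1
          rw [Real.norm_eq_abs, ← sub_mul, abs_mul, abs_of_nonneg (by positivity : 0 ≤ s ^ a)]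
          have h3 := h (r * s) (r' * s) (by positivity) (by positivity)
          rw [← sub_mul, abs_mul, abs_of_pos hs0] at h3
          have h4 : s ^ a ≤ 1 := Real.rpow_le_one hs0.le hs.2 ha0
          calc _ ≤ C * (|r - r'| * 1) * 1 := by
                gcongr; exact h3.trans (by gcongr; exact hs.2)
            _ = _ := by ring)
      simpa using this
    have e : ∀ A B A' B' : ℝ, -A + (1 + 2 * a) * B - (-A' + (1 + 2 * a) * B') =
        -(A - A') + (1 + 2 * a) * (B - B') := by intros; ring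
    simp only
    rw [e]
    refine (abs_add_le _ _).trans ?_
    rw [abs_neg, abs_mul, abs_of_pos (by positivity : 0 < 1 + 2 * a), add_mul C, mul_assoc]
    exact add_le_add h1 (mul_le_mul_of_nonneg_left h2 (by positivity))
  · obtain ⟨M, hM⟩ := psi_bd 1 ν m ht
    have hψ := psi_cont 1 ν m t
    have i1 := int_ker hK hC h hψ hM hx
    have hprod : Integrable (Function.uncurry fun ξ s => KK m (x * ξ * s) * s ^ a * psi 1 ν m t ξ)
        ((volume.restrict (Ioi (0 : ℝ))).prod (volume.restrict (Ioc (0 : ℝ) 1))) := by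
      have i2 := int_ker (K := fun r => |KK m 0| + C * r) (by fun_prop) hC (by
        intro r r' _ _
        rw [add_sub_add_left_eq_sub, ← mul_sub, abs_mul, abs_of_pos hC]) hψ hM hx
      have i3 : Integrable (fun _ : ℝ => (1 : ℝ)) (volume.restrict (Ioc (0 : ℝ) 1)) :=
        integrable_const _
      refine Integrable.mono' (Integrable.mul_prod i2.abs i3) ?_ ?_
      · exact (by unfold Function.uncurry; fun_prop : Continuous _).aestronglyMeasurable
      · rw [Measure.prod_restrict]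
        filter_upwards [ae_restrict_mem (measurableSet_Ioi.prod measurableSet_Ioc)] with q hq
        have hξ : (0 : ℝ) < q.1 := hq.1
        have hs0 : (0 : ℝ) < q.2 := hq.2.1
        have hs1 : q.2 ≤ 1 := hq.2.2
        simp only [Function.uncurry, Real.norm_eq_abs, abs_mul, mul_one]
        have h3 := h (x * q.1 * q.2) 0 (by positivity) le_rfl
        rw [sub_zero, abs_of_pos (by positivity : 0 < x * q.1 * q.2)] at h3
        have h4 : |q.2 ^ a| ≤ 1 := by
          rw [abs_of_nonneg (by positivity)]; exact Real.rpow_le_one hs0.le hs1 ha0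
        have h5 : |KK m (x * q.1 * q.2)| ≤ |(|KK m 0| + C * (x * q.1))| := by
          refine le_trans ?_ (le_abs_self _)
          have := abs_sub_abs_le_abs_sub (KK m (x * q.1 * q.2)) (KK m 0)
          have h6 : C * (x * q.1 * q.2) ≤ C * (x * q.1 * 1) := by gcongr
          linarith
        calc _ ≤ |(|KK m 0| + C * (x * q.1))| * 1 * |psi 1 ν m t q.1| := by gcongr
          _ = _ := by ring
    have hsw := integral_integral_swap hprod
    have i4 := hprod.integral_prod_left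
    simp only [Function.uncurry] at i4
    have e1 : ∀ ξ, (-KK m (x * ξ) + (1 + 2 * a) * ∫ s in (0 : ℝ)..1, KK m (x * ξ * s) * s ^ a) *
        psi 1 ν m t ξ = (1 + 2 * a) * (∫ s in Ioc (0 : ℝ) 1, KK m (x * ξ * s) * s ^ a *
          psi 1 ν m t ξ) - KK m (x * ξ) * psi 1 ν m t ξ := by
      intro ξ
      rw [integral_mul_const, intervalIntegral.integral_of_le zero_le_one]; ring
    simp_rw [e1]
    rw [integral_sub (i4.const_mul _) i1, integral_const_mul, hsw, KK_psi 1 ν m ht hx]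
    set y := Real.pi * t⁻¹ * x ^ 2 with hy
    set T := t ^ (-((m : ℝ) + 1 / 2)) with hT
    have e2 : ∫ s in Ioc (0 : ℝ) 1, ∫ ξ in Ioi (0 : ℝ), KK m (x * ξ * s) * s ^ a * psi 1 ν m t ξ =
        ∫ s in Ioc (0 : ℝ) 1, T * x ^ m * (((m : ℝ) + 1 / 2 - ν - y * s ^ 2) * s ^ ((m : ℝ) + a) *
          Real.exp (-(y * s ^ 2))) := by
      refine setIntegral_congr_fun measurableSet_Ioc fun s hs => ?_
      have hs0 := hs.1
      have e3 : ∀ ξ, KK m (x * ξ * s) * s ^ a * psi 1 ν m t ξ =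
          s ^ a * (KK m (x * s * ξ) * psi 1 ν m t ξ) := by
        intro ξ; rw [mul_right_comm x ξ s]; ring
      simp_rw [e3]
      rw [integral_const_mul, KK_psi 1 ν m ht (by positivity), Real.rpow_add hs0, Real.rpow_natCast,
        show Real.pi * t⁻¹ * (x * s) ^ 2 = y * s ^ 2 by rw [hy]; ring]
      ring
    have e4 : ∫ s in (0 : ℝ)..1, ((m : ℝ) + 1 / 2 - ν - y * s ^ 2) * s ^ ((m : ℝ) + a) *
        Real.exp (-(y * s ^ 2)) = Real.exp (-y) / 2 := by
      have hma : 0 ≤ (m : ℝ) + a := by positivity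
      have hp1 : Continuous (fun s : ℝ => s ^ ((m : ℝ) + a)) := Real.continuous_rpow_const hma
      have hp2 : Continuous (fun s : ℝ => s ^ ((m : ℝ) + a + 1)) :=
        Real.continuous_rpow_const (by positivity)
      rw [intervalIntegral.integral_eq_sub_of_hasDerivAt_of_le zero_le_one
        (f := fun s => s ^ ((m : ℝ) + a + 1) * Real.exp (-(y * s ^ 2)) / 2)
        (by fun_prop : Continuous _).continuousOn ?_
        ((by fun_prop : Continuous _).intervalIntegrable _ _)]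
      · have : (m : ℝ) + a + 1 ≠ 0 := by positivity
        simp [Real.zero_rpow this]
      · intro s hs
        have h1 := Real.hasDerivAt_rpow_const (x := s) (p := (m : ℝ) + a + 1) (Or.inl hs.1.ne')
        have h3 := (((hasDerivAt_pow 2 s).const_mul y).neg).exp
        refine ((h1.mul h3).div_const 2).congr_deriv ?_
        rw [add_sub_cancel_right, Real.rpow_add_one hs.1.ne']
        simp only [Pi.neg_apply, ha]
        push_cast; ring
    rw [e2, integral_const_mul, ← intervalIntegral.integral_of_le zero_le_one, e4]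
    unfold psi
    rw [← hy, ha]; ring

end Pool.Agent.Lead.Sel
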