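import Mathlib

/-
Interface statements for the project: exotic members of the Selberg class.
Every `def X : Prop` below is one work package. A package is finished by a theorem
`theorem x (h1 : A) (h2 : B) : X` in the worker's own files.
-/

set_option autoImplicit false
open Complex MeasureTheory Set ArithmeticFunction

namespace Pool.Agent.Lead.Sel

/- ## Part A: primes in short intervals -/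

/-- indicator of the integers with no prime factor at most z -/
noncomputable def rough (z m : ℕ) : ℝ := if Nat.Coprime m (primorial z) then 1 else 0

/-- the density of rough numbers -/
noncomputable def V (z : ℕ) : ℝ := ∏ p ∈ (Finset.range (z + 1)).filter Nat.Prime, (1 - (p : ℝ)⁻¹)

/-- bound for the density -/
def VB : Prop := ∀ z : ℕ, 2 ≤ z → 0 < V z ∧ V z ≤ 1 / Real.log z

/-- fundamental lemma of the sieve, in smoothed form -/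
def RS : Prop :=
  ∃ C : ℝ, 0 < C ∧ ∃ z0 : ℕ, ∀ z : ℕ, z0 ≤ z → ∀ a : ℝ, 1 / 2 ≤ a →
    ∀ (h : ℝ → ℂ) (ψ : ℝ → ℝ) (H b : ℝ),
      (∀ y, ‖h y‖ ≤ ψ y) → (∀ y, ψ y ≤ H) →
      (∀ y, y ≤ a * Real.log z → ψ y = 0) → (∀ y, b ≤ y → ψ y = 0) →
      (∀ x y, ‖h x - h y‖ ≤ H * |x - y|) → (∀ x y, |ψ x - ψ y| ≤ H * |x - y|) →
      ‖(∑' m : ℕ, (rough z m : ℂ) * h (Real.log m) / (m : ℂ)) - (V z : ℂ) * ∫ y, h y‖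
        ≤ C * Real.exp (-2 * a) / Real.log z * (∫ y, ψ y) + C * H * (z : ℝ) ^ (-a / 4)

/-- continuation and bound for the zeta function of the rough numbers -/
def ZB : Prop :=
  ∃ C : ℝ, 0 < C ∧ ∃ z0 : ℕ, ∀ z : ℕ, z0 ≤ z →
    (∃ G : ℂ → ℂ,
      (∀ s : ℂ, 1 - 1 / Real.log z < s.re → ‖s - 1‖ < (z : ℝ) ^ (1 / 10 : ℝ) → s ≠ 1 →
        DifferentiableAt ℂ G s) ∧
      (∀ s : ℂ, 1 < s.re → ‖s - 1‖ < (z : ℝ) ^ (1 / 10 : ℝ) →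
        G s = LSeries (fun n => (rough z n : ℂ)) s) ∧
      (∀ s : ℂ, 1 - 1 / Real.log z < s.re → ‖s - 1‖ < (z : ℝ) ^ (1 / 10 : ℝ) →
        1 / Real.log z ≤ |s.im| → ‖G s‖ ≤ C)) ∧
    (∀ σ : ℝ, 1 < σ → σ ≤ 2 →
      ∑' n : ℕ, rough z n * (n : ℝ) ^ (-σ) ≤ C + 1 / (Real.log z * (σ - 1)))

/-- zero free region and bound for the logarithmic derivative -/
def LD : Prop :=
  ∃ c : ℝ, 0 < c ∧ c ≤ 1 / 2 ∧ ∃ C : ℝ, 0 < C ∧ ∃ z0 : ℕ, ∀ z : ℕ, z0 ≤ z → ∃ F : ℂ → ℂ,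
    ∀ s : ℂ, |s.re - 1| ≤ c / Real.log z → 2 / Real.log z ≤ |s.im| →
      |s.im| ≤ (z : ℝ) ^ (1 / 10 : ℝ) / 4 →
      DifferentiableAt ℂ F s ∧ ‖F s‖ ≤ C * Real.log z ∧
      (1 < s.re → F s = LSeries (fun n => ((rough z n * Λ n : ℝ) : ℂ)) s)

/-- mass of the von Mangoldt function -/
def VM : Prop :=
  ∃ C : ℝ, 0 < C ∧ ∀ σ : ℝ, 1 < σ → σ ≤ 2 →
    Summable (fun n : ℕ => Λ n * (n : ℝ) ^ (-σ)) ∧ ∑' n : ℕ, Λ n * (n : ℝ) ^ (-σ) ≤ C / (σ - 1)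

/-- pointwise bound for long prime polynomials -/
def PW : Prop :=
  ∃ c : ℝ, 0 < c ∧ c ≤ 1 / 2 ∧ ∃ C : ℝ, 0 < C ∧ ∃ z0 : ℕ, ∀ z : ℕ, z0 ≤ z → ∀ v y0 K1 t : ℝ,
    2 / c * Real.log z ≤ v → 0 ≤ y0 → 4 ≤ K1 → K1 / Real.log z ≤ |t| →
    |t| ≤ (z : ℝ) ^ (1 / 10 : ℝ) / 8 →
    ‖LSeries (fun n => ((rough z n * Λ n * max (Real.log n - y0) 0 : ℝ) : ℂ))
        (((1 + 1 / v : ℝ) : ℂ) + t * I)‖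
      ≤ C * (Real.log z ^ 2 * Real.exp (-c * y0 / Real.log z) + Real.log z * v / K1)

/-- the triangle function -/
noncomputable def tri (w : ℝ) : ℝ := max (1 - |w|) 0

/-- the Fejer kernel -/
def FJ : Prop :=
  ∃ S : ℝ → ℝ, Continuous S ∧ Integrable S ∧ (∀ ξ, 0 ≤ S ξ ∧ S ξ ≤ 1) ∧ (∀ ξ, S ξ * ξ ^ 2 ≤ 4) ∧
    (∀ ξ, 1 - |ξ| ≤ S ξ) ∧
    ∀ T : ℝ, 0 < T → ∀ w : ℝ,
      ∫ t : ℝ, (S (t / T) : ℂ) * Complex.exp (-(t * w * I)) = ((2 * Real.pi * T * tri (T * w) : ℝ) : ℂ)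

/-- many primes between consecutive high powers -/
def HOH : Prop :=
  ∃ L0 : ℕ, ∀ L : ℕ, L0 ≤ L → ∃ J : ℕ, ∀ j : ℕ, J ≤ j →
    ((j : ℝ) ^ L) ^ (3 / 4 : ℝ) ≤ (((Finset.Ioc (j ^ L) ((j + 1) ^ L)).filter Nat.Prime).card : ℝ)

/- ## Part K and C: kernel and Mellin transform -/

/-- the test functions -/
noncomputable def psi (e ν : ℝ) (m : ℕ) (t x : ℝ) : ℝ :=
  (e * (Real.pi * t * x ^ 2) - ν) * x ^ m * Real.exp (-(Real.pi * t * x ^ 2))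

/-- a Lipschitz kernel exchanging the test functions for t and 1/t -/
def HasKer (e ν : ℝ) (m : ℕ) : Prop :=
  ∃ (K : ℝ → ℝ) (C0 : ℝ), Continuous K ∧ 0 < C0 ∧
    (∀ r r' : ℝ, 0 ≤ r → 0 ≤ r' → |K r - K r'| ≤ C0 * |r - r'|) ∧
    ∀ t x : ℝ, 0 < t → 0 < x →
      ∫ ξ in Ioi (0 : ℝ), K (x * ξ) * psi e ν m t ξ = t ^ (-((m : ℝ) + 1 / 2)) * psi e ν m t⁻¹ x

def KER0 : Prop := ∀ m : ℕ, HasKer 0 (-1) m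

def KER1 : Prop := ∀ (m : ℕ) (ν : ℝ), 2 * ν ≤ m → HasKer 1 ν m

/-- the theta identity -/
def Theta (e ν : ℝ) (m : ℕ) (d κ : ℝ) (a : ℕ → ℝ) : Prop :=
  ∀ t : ℝ, 0 < t →
    ∑' n : ℕ, a n * (n : ℝ) ^ (-(1 / 2 - 1 / (2 * d))) *
      (psi e ν m t (κ * (n : ℝ) ^ (1 / d)) +
        t ^ (-((m : ℝ) + 1 / 2)) * psi e ν m t⁻¹ (κ * (n : ℝ) ^ (1 / d))) = 0

/-- from the theta identity to the functional equation -/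
def MEL : Prop :=
  ∀ (e ν : ℝ) (m : ℕ) (d κ : ℝ) (a : ℕ → ℝ) (σ0 : ℝ), 0 < d → 0 < κ → a 0 = 0 →
    Summable (fun n : ℕ => |a n| * (n : ℝ) ^ (-σ0)) → Theta e ν m d κ a →
    ∃ Φ : ℂ → ℂ, Differentiable ℂ Φ ∧ (∀ s, Φ (1 - s) = -Φ s) ∧
      (∀ s, Φ (starRingEnd ℂ s) = starRingEnd ℂ (Φ s)) ∧
      (∀ A B : ℝ, ∃ C : ℝ, ∀ s : ℂ, A ≤ s.re → s.re ≤ B → ‖Φ s‖ ≤ C) ∧
      ∀ s : ℂ, σ0 ≤ s.re → 0 < d / 2 * s.re + ((m : ℝ) / 2 + 1 / 4 - d / 4) →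
        Φ s = (e * (((d / 2 : ℝ) : ℂ) * s + (((m : ℝ) / 2 + 1 / 4 - d / 4 : ℝ) : ℂ)) - ν) *
          (((Real.pi * κ ^ 2) ^ (-(d / 2)) : ℝ) : ℂ) ^ s *
          Complex.Gamma (((d / 2 : ℝ) : ℂ) * s + (((m : ℝ) / 2 + 1 / 4 - d / 4 : ℝ) : ℂ)) *
          LSeries (fun n => (a n : ℂ)) s

/- ## Part B: the construction -/

/-- without Euler product -/
def SELA : Prop :=
  ∀ (e ν : ℝ) (m : ℕ) (d : ℝ), 8 ≤ d → HasKer e ν m →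
    ∃ κ : ℝ, 0 < κ ∧ ∃ a : ℕ → ℝ, a 0 = 0 ∧ a 1 = 1 ∧
      Summable (fun n : ℕ => |a n| * (n : ℝ) ^ (-(1 : ℝ))) ∧ Theta e ν m d κ a

/-- with Euler product -/
def SEL : Prop :=
  ∃ d0 : ℝ, ∀ (e ν : ℝ) (m : ℕ) (d : ℝ), d0 ≤ d → HasKer e ν m →
    ∃ κ : ℝ, 0 < κ ∧ ∃ a b : ℕ → ℝ, a 0 = 0 ∧ a 1 = 1 ∧ (∀ n, |a n| ≤ 1) ∧
      (∀ n, ¬ n.Prime → b n = 0) ∧ (∀ n : ℕ, |b n| ≤ (n : ℝ) ^ (-(1 / 8 : ℝ))) ∧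
      (∀ p : ℕ, p.Prime → a p = b p) ∧
      Summable (fun n : ℕ => |a n| * (n : ℝ) ^ (-(5 / 8 : ℝ))) ∧
      Summable (fun n : ℕ => |b n| * (n : ℝ) ^ (-(5 / 8 : ℝ))) ∧
      (∀ s : ℂ, 5 / 8 ≤ s.re →
        LSeries (fun n => (a n : ℂ)) s = Complex.exp (LSeries (fun n => (b n : ℂ)) s)) ∧
      Theta e ν m d κ a

/- ## Part G: the Gamma function and convexity -/

/-- two sided bound on vertical lines, uniform in a strip -/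
def G3 : Prop :=
  ∀ A B : ℝ, ∃ c C : ℝ, 0 < c ∧ 0 < C ∧ ∀ x y : ℝ, A ≤ x → x ≤ B → 1 ≤ |y| →
    c * |y| ^ (x - 3 / 2) * Real.exp (-(Real.pi * |y| / 2)) ≤ ‖Complex.Gamma (x + y * I)‖ ∧
    ‖Complex.Gamma (x + y * I)‖ ≤ C * |y| ^ (x + 1 / 2) * Real.exp (-(Real.pi * |y| / 2))

/-- finite order -/
def G4 : Prop :=
  ∃ C : ℝ, 0 < C ∧ (∀ s : ℂ, ‖(Complex.Gamma s)⁻¹‖ ≤ Real.exp (C * (1 + ‖s‖) ^ 2)) ∧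
    ∀ s : ℂ, 1 / 2 ≤ s.re → ‖Complex.Gamma s‖ ≤ Real.exp (C * (1 + ‖s‖) ^ 2)

/-- convexity principle -/
def G5 : Prop :=
  ∀ (F : ℂ → ℂ) (A B : ℝ) (N : ℕ), Differentiable ℂ F →
    (∃ ρ C : ℝ, ∀ s : ℂ, ‖F s‖ ≤ C * Real.exp (‖s‖ ^ ρ)) →
    (∃ C : ℝ, ∀ s : ℂ, (s.re = A ∨ s.re = B) → ‖F s‖ ≤ C * (1 + |s.im|) ^ N) →
    ∃ C : ℝ, ∀ s : ℂ, A ≤ s.re → s.re ≤ B → ‖F s‖ ≤ C * (1 + |s.im|) ^ N

/-- an exotic member of the Selberg class, in a form that fits both frozen statements -/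
def EXS : Prop :=
  ∃ (a b : ℕ → ℂ) (G : ℂ → ℂ) (Q lam mu : ℝ),
    a 0 = 0 ∧ a 1 = 1 ∧ (∀ n, ‖a n‖ ≤ 1) ∧ (∀ n, ¬ n.Prime → b n = 0) ∧
    (∀ n : ℕ, ‖b n‖ ≤ (n : ℝ) ^ (-(1 / 8 : ℝ))) ∧ (∀ p : ℕ, p.Prime → a p = b p) ∧
    (∀ s : ℂ, 1 < s.re → LSeriesSummable b s ∧ LSeries a s = Complex.exp (LSeries b s)) ∧
    Differentiable ℂ G ∧ (∃ ρ C : ℝ, ∀ s : ℂ, ‖G s‖ ≤ C * Real.exp (‖s‖ ^ ρ)) ∧
    (∀ s : ℂ, 1 < s.re → G s = LSeries a s) ∧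
    0 < Q ∧ 1 < lam ∧ 0 < mu ∧ (∀ k : ℤ, 2 * lam ≠ (k : ℝ)) ∧
    ∀ s : ℂ, (∀ n : ℕ, (lam : ℂ) * s + mu ≠ -(n : ℂ)) →
      (∀ n : ℕ, (lam : ℂ) * (1 - starRingEnd ℂ s) + mu ≠ -(n : ℂ)) →
      (Q : ℂ) ^ s * Complex.Gamma ((lam : ℂ) * s + mu) * G s =
        -starRingEnd ℂ ((Q : ℂ) ^ (1 - starRingEnd ℂ s) *
          Complex.Gamma ((lam : ℂ) * (1 - starRingEnd ℂ s) + mu) * G (1 - starRingEnd ℂ s))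

/- ## Part D: small degree and factorisation -/

def Ram (a : ℕ → ℂ) : Prop :=
  ∀ ε : ℝ, 0 < ε → ∃ C : ℝ, ∀ n : ℕ, 1 ≤ n → ‖a n‖ ≤ C * (n : ℝ) ^ ε

def Eul (a : ℕ → ℂ) : Prop :=
  ∃ b : ℕ → ℂ, (∀ n : ℕ, ¬ IsPrimePow n → b n = 0) ∧
    ∃ θ : ℝ, θ < 1 / 2 ∧ ∃ C : ℝ, (∀ n : ℕ, 1 ≤ n → ‖b n‖ ≤ C * (n : ℝ) ^ θ) ∧
      ∀ s : ℂ, 1 < s.re → LSeries a s = Complex.exp (LSeries b s)

/-- continuation and functional equation with degree D, as in the frozen statement S16630 -/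
def SelData (a : ℕ → ℂ) (D : ℝ) (m : ℕ) (G : ℂ → ℂ) : Prop :=
  Differentiable ℂ G ∧ (∃ ρ C : ℝ, ∀ z : ℂ, ‖G z‖ ≤ C * Real.exp (‖z‖ ^ ρ)) ∧
  (∀ s : ℂ, 1 < s.re → G s = (s - 1) ^ m * LSeries a s) ∧
  (∃ Q : ℝ, 0 < Q ∧ ∃ k : ℕ, ∃ lam : Fin k → ℝ, ∃ μ : Fin k → ℂ, ∃ ω : ℂ,
    (∀ j, 0 < lam j) ∧ (∀ j, 0 ≤ (μ j).re) ∧ ‖ω‖ = 1 ∧ D = 2 * ∑ j, lam j ∧
    ∀ s : ℂ, 0 < s.re → s.re < 1 →
      (Q : ℂ) ^ s * (∏ j, Complex.Gamma ((lam j : ℂ) * s + μ j)) * (G s / (s - 1) ^ m) =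
      ω * starRingEnd ℂ ((Q : ℂ) ^ (1 - starRingEnd ℂ s)
        * (∏ j, Complex.Gamma ((lam j : ℂ) * (1 - starRingEnd ℂ s) + μ j))
        * (G (1 - starRingEnd ℂ s) / ((1 - starRingEnd ℂ s) - 1) ^ m)))

/-- growth on far left vertical lines measures the degree -/
def CG0 : Prop :=
  ∀ (a : ℕ → ℂ) (D : ℝ) (m : ℕ) (G : ℂ → ℂ), a 1 = 1 → Ram a → SelData a D m G →
    ∃ E R0 : ℝ, ∀ R : ℝ, R0 ≤ R → ∃ c C t0 : ℝ, 0 < c ∧ 1 ≤ t0 ∧ ∀ t : ℝ, t0 ≤ |t| →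
      c * |t| ^ (D * R - E) ≤ ‖G (-R + t * I)‖ ∧ ‖G (-R + t * I)‖ ≤ C * |t| ^ (D * R + E)

/-- degree below one forces rapidly decreasing coefficients -/
def CG1a : Prop :=
  ∀ (a : ℕ → ℂ) (D : ℝ) (m : ℕ) (G : ℂ → ℂ), a 1 = 1 → Ram a → SelData a D m G → D < 1 →
    ∀ k : ℕ, ∃ C : ℝ, ∀ n : ℕ, 1 ≤ n → ‖a n‖ * (n : ℝ) ^ k ≤ C

/-- the theorem of Conrey and Ghosh -/
def CG1 : Prop :=
  ∀ (a : ℕ → ℂ) (D : ℝ) (m : ℕ) (G : ℂ → ℂ), a 1 = 1 → Ram a → Eul a → SelData a D m G → D < 1 →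
    ∀ n : ℕ, 2 ≤ n → a n = 0

end Pool.Agent.Lead.Sel
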