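import Pool.Agent.Lead.Sel.Rs

/- The package RS. -/

set_option autoImplicit false
open Finset MeasureTheory

namespace Pool.Agent.Lead.Sel

lemma rough_mem (z n : ℕ) : 0 ≤ rough z n ∧ rough z n ≤ 1 := by unfold rough; split_ifs <;> simp

lemma rough_anti {z z' : ℕ} (h : z' ≤ z) (n : ℕ) : rough z n ≤ rough z' n := by
  unfold rough
  split_ifs with h1 h2 h2
  · exact le_rfl
  · exact absurd (Nat.Coprime.coprime_dvd_right (primorial_dvd_primorial h) h1) h2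
  · exact zero_le_one
  · exact le_rfl

structure Wt (h : ℝ → ℂ) (ψ : ℝ → ℝ) (H Y b : ℝ) : Prop where
  h1 : ∀ y, ‖h y‖ ≤ ψ y
  h2 : ∀ y, ψ y ≤ H
  h3 : ∀ y, y ≤ Real.log Y → ψ y = 0
  h4 : ∀ y, b ≤ y → ψ y = 0
  h5 : ∀ x y, ‖h x - h y‖ ≤ H * |x - y|
  h6 : ∀ x y, |ψ x - ψ y| ≤ H * |x - y|

namespace Wt
variable {h : ℝ → ℂ} {ψ : ℝ → ℝ} {H Y b : ℝ}

lemma nonneg (w : Wt h ψ H Y b) (y : ℝ) : 0 ≤ ψ y := le_trans (norm_nonneg _) (w.h1 y)

lemma self (w : Wt h ψ H Y b) : Wt (fun y => (ψ y : ℂ)) ψ H Y b where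
  h1 := fun y => by rw [Complex.norm_real, Real.norm_eq_abs, abs_of_nonneg (w.nonneg y)]
  h2 := w.h2
  h3 := w.h3
  h4 := w.h4
  h5 := fun x y => by rw [← Complex.ofReal_sub, Complex.norm_real, Real.norm_eq_abs]; exact w.h6 x y
  h6 := w.h6

lemma zero (w : Wt h ψ H Y b) {y : ℝ} (hy : ψ y = 0) : h y = 0 :=
  norm_le_zero_iff.1 (hy ▸ w.h1 y)

lemma int_le (w : Wt h ψ H Y b) : ‖∫ y, h y‖ ≤ ∫ y, ψ y := by
  have hH0 : 0 ≤ H := le_trans (w.nonneg 0) (w.h2 0)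
  have hc : Continuous ψ := by
    refine (LipschitzWith.of_dist_le_mul (K := ⟨H, hH0⟩) fun x y => ?_).continuous
    rw [Real.dist_eq, Real.dist_eq]; exact w.h6 x y
  have hi : Integrable ψ := by
    refine hc.integrable_of_hasCompactSupport
      (HasCompactSupport.intro (isCompact_Icc (a := Real.log Y) (b := b)) fun y hy => ?_)
    by_cases h1 : y ≤ Real.log Y
    · exact w.h3 y h1
    · exact w.h4 y (by by_contra h2; exact hy ⟨(not_le.1 h1).le, (not_le.1 h2).le⟩)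
  exact norm_integral_le_of_norm_le hi (Filter.Eventually.of_forall w.h1)

lemma comb (w : Wt h ψ H Y b) {Q : Finset ℕ} (hQ : ∀ p ∈ Q, p.Prime) {D : ℝ}
    {G : (ℕ → ℝ) → ℝ} (hG : Comb Q D G) (hDY : 2 * D ≤ Y) {N : ℕ} (hN : Real.exp b ≤ N) :
    ‖(∑ m ∈ range N, (G (ind m) : ℂ) * (h (Real.log m) / m)) -
      (G (fun p => (p : ℝ)⁻¹) : ℂ) * ∫ y, h y‖ ≤ D * (12 * H / Y) :=
  comb_sum hQ hG (fun y => (w.h1 y).trans (w.h2 y)) (fun y hy => w.zero (w.h3 y hy))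
    (fun y hy => w.zero (w.h4 y hy)) w.h5 hDY hN

lemma sum_le (w : Wt h ψ H Y b) (r g : ℕ → ℝ) (h0 : ∀ m, 0 ≤ r m) (h1 : ∀ m, r m ≤ g m) (N : ℕ) :
    ‖∑ m ∈ range N, (r m : ℂ) * (h (Real.log m) / m)‖ ≤
      ‖∑ m ∈ range N, (g m : ℂ) * ((ψ (Real.log m) : ℂ) / m)‖ := by
  have e : ∑ m ∈ range N, (g m : ℂ) * ((ψ (Real.log m) : ℂ) / m) =
      ((∑ m ∈ range N, g m * (ψ (Real.log m) / m) : ℝ) : ℂ) := by push_cast; rfl
  rw [e, Complex.norm_real, Real.norm_eq_abs]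
  refine le_trans ((norm_sum_le _ _).trans (sum_le_sum fun m _ => ?_)) (le_abs_self _)
  rw [norm_mul, norm_div, Complex.norm_real, Real.norm_eq_abs, abs_of_nonneg (h0 m),
    Complex.norm_natCast]
  exact mul_le_mul (h1 m) (div_le_div_of_nonneg_right (w.h1 _) (Nat.cast_nonneg m))
    (by positivity) ((h0 m).trans (h1 m))

lemma core (w : Wt h ψ H Y b) {z : ℕ} (hz : 1 ≤ z) {K : ℕ} (hK : 4 * C0 * Real.exp (-16) ^ K ≤ 1)
    (hY : 2 * (z : ℝ) ^ (4 * K + 8) ≤ Y) {N : ℕ} (hN : Real.exp b ≤ N) :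
    ‖(∑ m ∈ range N, (rough z m : ℂ) * (h (Real.log m) / m)) - (V z : ℂ) * ∫ y, h y‖ ≤
      2 * (4 * C0 * Real.exp (-16) ^ K * V z) * (∫ y, ψ y) +
        2 * ((z : ℝ) ^ (4 * K + 8) * (12 * H / Y)) := by
  have hz2 : (z : ℝ) < 2 ^ (2 ^ z) := by
    have : z < 2 ^ (2 ^ z) := Nat.lt_two_pow_self.trans Nat.lt_two_pow_self
    exact_mod_cast this
  obtain ⟨U, E, hU, hE, hx, hm⟩ := brun z z (by exact_mod_cast hz) hz2 K hK
  have hQ : ∀ p ∈ primesTo z, p.Prime := fun p hp => ((mem_primesTo (by positivity)).1 hp).1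
  have a1 := w.comb hQ hU hY hN
  have a2 := w.self.comb hQ hE hY hN
  have a3 := w.sum_le (fun m => U (ind m) - rough z m) (fun m => E (ind m))
    (fun m => by rw [rough_eq]; linarith [(hx _ (ind_mem m)).2.2])
    (fun m => by rw [rough_eq]; linarith [(hx _ (ind_mem m)).2.1]) N
  have hx0 : ∀ p : ℕ, 0 ≤ (p : ℝ)⁻¹ ∧ (p : ℝ)⁻¹ ≤ 1 := fun p =>
    ⟨by positivity, Nat.cast_inv_le_one p⟩
  obtain ⟨c1, c2, c3⟩ := hx _ hx0
  rw [← V_eq] at hm c2 c3
  have hI := w.int_le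
  have hI0 : 0 ≤ ∫ y, ψ y := le_trans (norm_nonneg _) hI
  set ε := 4 * C0 * Real.exp (-16) ^ K * V z
  set e := (z : ℝ) ^ (4 * K + 8) * (12 * H / Y)
  have a4 : ‖((U (fun p => (p : ℝ)⁻¹) - V z : ℝ) : ℂ) * ∫ y, h y‖ ≤ ε * ∫ y, ψ y := by
    rw [norm_mul, Complex.norm_real, Real.norm_eq_abs, abs_of_nonneg (by linarith)]
    exact mul_le_mul (by linarith) hI (norm_nonneg _) (by linarith)
  have a5 : ‖(E (fun p => (p : ℝ)⁻¹) : ℂ) * ∫ y, (ψ y : ℂ)‖ ≤ ε * ∫ y, ψ y := by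
    rw [norm_mul, Complex.norm_real, Real.norm_eq_abs, abs_of_nonneg c1]
    exact mul_le_mul hm w.self.int_le (norm_nonneg _) (by linarith)
  have a6 := norm_le_norm_sub_add (∑ m ∈ range N, (E (ind m) : ℂ) * ((ψ (Real.log m) : ℂ) / m))
    ((E (fun p => (p : ℝ)⁻¹) : ℂ) * ∫ y, (ψ y : ℂ))
  have e1 : (∑ m ∈ range N, (rough z m : ℂ) * (h (Real.log m) / m)) - (V z : ℂ) * ∫ y, h y =
      ((∑ m ∈ range N, (U (ind m) : ℂ) * (h (Real.log m) / m)) -
        (U (fun p => (p : ℝ)⁻¹) : ℂ) * ∫ y, h y) +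
      ((U (fun p => (p : ℝ)⁻¹) - V z : ℝ) : ℂ) * (∫ y, h y) -
      ∑ m ∈ range N, ((U (ind m) - rough z m : ℝ) : ℂ) * (h (Real.log m) / m) := by
    push_cast
    simp only [sub_mul, sum_sub_distrib]; ring
  rw [e1]
  refine (norm_sub_le _ _).trans ((add_le_add_left (norm_add_le _ _) _).trans ?_)
  linarith

end Wt

theorem rs : RS := by
  have hC := C0_pos
  obtain ⟨K0, hK0⟩ : ∃ K0 : ℕ, Real.exp (-16) ^ K0 < 1 / (4 * C0) :=
    exists_pow_lt_of_lt_one (by positivity) (by rw [Real.exp_lt_one_iff]; norm_num)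
  have hK : ∀ K, K0 ≤ K → 4 * C0 * Real.exp (-16) ^ K ≤ 1 := by
    intro K hK
    have := pow_le_pow_of_le_one (Real.exp_pos (-16)).le
      (by rw [Real.exp_le_one_iff]; norm_num) hK
    rw [lt_div_iff₀ (by positivity)] at hK0
    nlinarith
  set n : ℕ := 8 * (4 * K0 + 8) with hn
  have hn0 : (0 : ℝ) < n := by positivity
  set a0 : ℝ := 8 * (K0 + 3) with ha0
  refine ⟨8 * C0 * Real.exp 64 + (6 * n + 1) * Real.exp (2 * a0) + 24, by positivity,
    2 ^ (2 * n), fun z hz a ha h ψ H b h1 h2 h3 h4 h5 h6 => ?_⟩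
  have hz2 : 2 ≤ z := le_trans (by
    calc 2 = 2 ^ 1 := by norm_num
      _ ≤ 2 ^ (2 * n) := Nat.pow_le_pow_right (by norm_num) (by omega)) hz
  have hzr : (2 : ℝ) ≤ z := by exact_mod_cast hz2
  have hz0 : (0 : ℝ) < z := by linarith
  have hz1 : (1 : ℝ) ≤ z := by linarith
  have hl : 0 < Real.log z := Real.log_pos (by linarith)
  have w : Wt h ψ H ((z : ℝ) ^ a) b :=
    ⟨h1, h2, fun y hy => h3 y (by rwa [Real.log_rpow hz0] at hy), h4, h5, h6⟩
  have hH0 : 0 ≤ H := le_trans (w.nonneg 0) (h2 0)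
  have hI := w.int_le
  have hI0 : 0 ≤ ∫ y, ψ y := le_trans (norm_nonneg _) hI
  obtain ⟨N, hN⟩ := exists_nat_ge (Real.exp b)
  have e1 : ∑' m : ℕ, (rough z m : ℂ) * h (Real.log m) / (m : ℂ) =
      ∑ m ∈ range N, (rough z m : ℂ) * (h (Real.log m) / m) := by
    rw [tsum_eq_sum (s := range N)]
    · simp only [mul_div_assoc]
    · intro m hm
      rw [mem_range, not_lt] at hm
      have hm' : (N : ℝ) ≤ m := by exact_mod_cast hm
      rw [w.zero (h4 _ (by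
        rw [Real.le_log_iff_exp_le (by linarith [Real.exp_pos b])]; linarith))]
      simp
  rw [e1]
  obtain ⟨hV0, hV1⟩ := vb z hz2
  have herr : ∀ D : ℝ, D ≤ (z : ℝ) ^ (3 * a / 4) →
      2 * (D * (12 * H / (z : ℝ) ^ a)) ≤ 24 * H * (z : ℝ) ^ (-a / 4) := by
    intro D hD
    calc _ ≤ 2 * ((z : ℝ) ^ (3 * a / 4) * (12 * H / (z : ℝ) ^ a)) := by gcongr
      _ = 24 * H * ((z : ℝ) ^ (3 * a / 4) / (z : ℝ) ^ a) := by ring
      _ = _ := by rw [← Real.rpow_sub hz0]; congr 2; ring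
  have hfin : ∀ A X : ℝ, 0 ≤ A → A ≤ 8 * C0 * Real.exp 64 + (6 * n + 1) * Real.exp (2 * a0) →
      X ≤ A * Real.exp (-2 * a) / Real.log z * (∫ y, ψ y) + 24 * H * (z : ℝ) ^ (-a / 4) →
      X ≤ (8 * C0 * Real.exp 64 + (6 * n + 1) * Real.exp (2 * a0) + 24) * Real.exp (-2 * a) /
        Real.log z * (∫ y, ψ y) + (8 * C0 * Real.exp 64 + (6 * n + 1) * Real.exp (2 * a0) + 24) * H *
        (z : ℝ) ^ (-a / 4) := by
    intro A X hA0 hA hX
    refine hX.trans ?_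
    gcongr
    · linarith
    · have : 0 ≤ 8 * C0 * Real.exp 64 + (6 * n + 1) * Real.exp (2 * a0) := by positivity
      linarith
  by_cases hbig : a0 ≤ a
  · set K := ⌊a / 8⌋₊ - 3 with hKd
    have hfl : K0 + 3 ≤ ⌊a / 8⌋₊ := Nat.le_floor (by push_cast; linarith)
    have hK1 : (K : ℝ) + 3 = ⌊a / 8⌋₊ := by exact_mod_cast (by omega : K + 3 = ⌊a / 8⌋₊)
    have hK2 := Nat.floor_le (show 0 ≤ a / 8 by linarith)
    have hK3 := Nat.lt_floor_add_one (a / 8)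
    have hD : (z : ℝ) ^ (4 * K + 8) ≤ (z : ℝ) ^ (a / 2 - 4) := by
      rw [← Real.rpow_natCast]
      exact Real.rpow_le_rpow_of_exponent_le hz1 (by push_cast; linarith)
    have hY : 2 * (z : ℝ) ^ (4 * K + 8) ≤ (z : ℝ) ^ a := by
      calc _ ≤ (z : ℝ) ^ (1 : ℝ) * (z : ℝ) ^ (a / 2 - 4) := by rw [Real.rpow_one]; gcongr
        _ = (z : ℝ) ^ (1 + (a / 2 - 4)) := by rw [← Real.rpow_add hz0]
        _ ≤ _ := Real.rpow_le_rpow_of_exponent_le hz1 (by linarith)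
    have hc := w.core (z := z) (by omega) (hK K (by omega)) hY hN
    refine hfin (8 * C0 * Real.exp 64) _ (by positivity) (le_add_of_nonneg_right (by positivity))
      (hc.trans (add_le_add ?_ (herr _ (hD.trans
        (Real.rpow_le_rpow_of_exponent_le hz1 (by linarith))))))
    refine mul_le_mul_of_nonneg_right ?_ hI0
    have h7 : Real.exp (-16) ^ K ≤ Real.exp 64 * Real.exp (-2 * a) := by
      rw [← Real.exp_nat_mul, ← Real.exp_add]; gcongr; linarith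
    calc _ ≤ 2 * (4 * C0 * (Real.exp 64 * Real.exp (-2 * a)) * (1 / Real.log z)) := by gcongr
      _ = _ := by ring
  · rw [not_le] at hbig
    set y : ℝ := (z : ℝ) ^ (1 / (2 * n) : ℝ) with hy
    have hy2 : 2 ≤ y := by
      have h7 : ((2 : ℝ) ^ (2 * n)) ^ (1 / (2 * n) : ℝ) ≤ y := by
        rw [hy]; gcongr; exact_mod_cast hz
      rwa [← Real.rpow_natCast, ← Real.rpow_mul (by norm_num), Nat.cast_mul, Nat.cast_two,
        mul_one_div_cancel (by positivity), Real.rpow_one] at h7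
    have hyy : y ^ 2 = (z : ℝ) ^ (1 / n : ℝ) := by
      rw [hy, ← Real.rpow_natCast, ← Real.rpow_mul hz0.le]; congr 1; push_cast; field_simp
    set z' := ⌊y ^ 2⌋₊ with hz'
    have hz'1 : (z' : ℝ) ≤ y ^ 2 := Nat.floor_le (by positivity)
    have hz'2 : y ≤ z' := by
      have := Nat.lt_floor_add_one (y ^ 2)
      nlinarith
    have hz'3 : 2 ≤ z' := by exact_mod_cast hy2.trans hz'2
    have hz'4 : z' ≤ z := by
      have : (z' : ℝ) ≤ z := by
        rw [hyy] at hz'1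
        refine hz'1.trans ?_
        calc (z : ℝ) ^ (1 / n : ℝ) ≤ (z : ℝ) ^ (1 : ℝ) := Real.rpow_le_rpow_of_exponent_le hz1 (by
              rw [div_le_one hn0]; exact_mod_cast (by omega : 1 ≤ n))
          _ = z := Real.rpow_one _
      exact_mod_cast this
    have hD : (z' : ℝ) ^ (4 * K0 + 8) ≤ (z : ℝ) ^ (1 / 8 : ℝ) := by
      calc (z' : ℝ) ^ (4 * K0 + 8) ≤ ((z : ℝ) ^ (1 / n : ℝ)) ^ (4 * K0 + 8) := by
            rw [← hyy]; gcongr
        _ = _ := by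
            rw [← Real.rpow_natCast, ← Real.rpow_mul hz0.le]; congr 1
            rw [hn]; push_cast; field_simp
    have hY : 2 * (z' : ℝ) ^ (4 * K0 + 8) ≤ (z : ℝ) ^ a := by
      have h8 : y ≤ (z : ℝ) ^ (1 / 8 : ℝ) := by
        rw [hy]
        refine Real.rpow_le_rpow_of_exponent_le hz1 (one_div_le_one_div_of_le (by norm_num) ?_)
        have : (4 : ℝ) ≤ n := by exact_mod_cast (by omega : 4 ≤ n)
        linarith
      calc _ ≤ (z : ℝ) ^ (1 / 8 : ℝ) * (z : ℝ) ^ (1 / 8 : ℝ) := by gcongr; linarith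
        _ = (z : ℝ) ^ (1 / 8 + 1 / 8 : ℝ) := by rw [← Real.rpow_add hz0]
        _ ≤ _ := Real.rpow_le_rpow_of_exponent_le hz1 (by linarith)
    have hc := w.self.core (z := z') (by omega) (hK K0 le_rfl) hY hN
    have he := herr _ (hD.trans (Real.rpow_le_rpow_of_exponent_le hz1 (by linarith)))
    obtain ⟨hW0, hW1⟩ := vb z' hz'3
    have hW2 : V z' ≤ 2 * n / Real.log z := by
      refine hW1.trans ?_
      have h9 : Real.log y ≤ Real.log z' := by gcongr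
      rw [hy, Real.log_rpow hz0] at h9
      calc 1 / Real.log z' ≤ 1 / (1 / (2 * n) * Real.log z) := by gcongr
        _ = _ := by field_simp
    have a3 := w.sum_le (rough z) (rough z') (fun m => (rough_mem z m).1) (rough_anti hz'4) N
    have a5 : ‖(V z' : ℂ) * ∫ y, (ψ y : ℂ)‖ ≤ V z' * ∫ y, ψ y := by
      rw [norm_mul, Complex.norm_real, Real.norm_eq_abs, abs_of_pos hW0]
      exact mul_le_mul_of_nonneg_left w.self.int_le hW0.le
    have a4 : ‖(V z : ℂ) * ∫ y, h y‖ ≤ 1 / Real.log z * ∫ y, ψ y := by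
      rw [norm_mul, Complex.norm_real, Real.norm_eq_abs, abs_of_pos hV0]
      exact mul_le_mul hV1 hI (norm_nonneg _) (by positivity)
    have a6 := norm_le_norm_sub_add (∑ m ∈ range N, (rough z' m : ℂ) * ((ψ (Real.log m) : ℂ) / m))
      ((V z' : ℂ) * ∫ y, (ψ y : ℂ))
    have a7 : 2 * (4 * C0 * Real.exp (-16) ^ K0 * V z') * (∫ y, ψ y) ≤ 2 * (V z' * ∫ y, ψ y) := by
      have := mul_le_of_le_one_left hW0.le (hK K0 le_rfl)
      rw [mul_assoc]; gcongr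
    have a8 : V z' * ∫ y, ψ y ≤ 2 * n / Real.log z * ∫ y, ψ y := by gcongr
    refine hfin ((6 * n + 1) * Real.exp (2 * a0)) _ (by positivity)
      (le_add_of_nonneg_left (by positivity)) ((norm_sub_le _ _).trans ?_)
    have a9 : (6 * n + 1) / Real.log z * ∫ y, ψ y ≤
        (6 * n + 1) * Real.exp (2 * a0) * Real.exp (-2 * a) / Real.log z * ∫ y, ψ y := by
      gcongr
      rw [mul_assoc, ← Real.exp_add]
      exact le_mul_of_one_le_right (by positivity) (Real.one_le_exp (by linarith))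
    have a10 : (6 * n + 1) / Real.log z * ∫ y, ψ y =
        3 * (2 * n / Real.log z * ∫ y, ψ y) + 1 / Real.log z * ∫ y, ψ y := by ring
    linarith

end Pool.Agent.Lead.Sel
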