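import Pool.Agent.Lead.Sel.Geo

/- The packages SELA and SEL. -/

set_option autoImplicit false
open Filter Topology ArithmeticFunction MeasureTheory Set

namespace Pool.Agent.Lead.Sel

lemma gauss_bd (k : ℕ) {a : ℝ} (ha : 0 < a) (x : ℝ) (hx : 0 ≤ x) :
    (1 + x) ^ k * Real.exp (-(a * x ^ 2)) ≤ Real.exp (k ^ 2 / (4 * a)) := by
  have h1 : (1 + x) ^ k ≤ Real.exp (k * x) := by
    rw [Real.exp_nat_mul]
    gcongr
    linarith [Real.add_one_le_exp x]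
  calc _ ≤ Real.exp (k * x) * Real.exp (-(a * x ^ 2)) := by gcongr
    _ = Real.exp (k * x - a * x ^ 2) := by rw [← Real.exp_add]; ring_nf
    _ ≤ _ := by
      gcongr
      rw [le_div_iff₀ (by positivity)]
      nlinarith [sq_nonneg (2 * a * x - k)]

lemma psi_cont (e ν : ℝ) (m : ℕ) (t : ℝ) : Continuous (psi e ν m t) := by
  unfold psi; fun_prop

lemma psi_bd (e ν : ℝ) (m : ℕ) {t : ℝ} (ht : 0 < t) :
    ∃ M : ℝ, ∀ x, 0 < x → |psi e ν m t x| * (1 + x) ^ 3 ≤ M := by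
  have ha : 0 < Real.pi * t := by positivity
  refine ⟨(|e| * (Real.pi * t) + |ν|) * Real.exp ((m + 5 : ℕ) ^ 2 / (4 * (Real.pi * t))),
    fun x hx => ?_⟩
  have h1 := gauss_bd (m + 5) ha x hx.le
  have h2 : |e * (Real.pi * t * x ^ 2) - ν| ≤ (|e| * (Real.pi * t) + |ν|) * (1 + x) ^ 2 := by
    refine (abs_sub _ _).trans ?_
    rw [abs_mul, abs_of_nonneg (by positivity : 0 ≤ Real.pi * t * x ^ 2), add_mul]
    have h3 : x ^ 2 ≤ (1 + x) ^ 2 := by gcongr; linarith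
    have h4 : 1 ≤ (1 + x) ^ 2 := one_le_pow₀ (by linarith)
    have h5 : |e| * (Real.pi * t * x ^ 2) ≤ |e| * (Real.pi * t) * (1 + x) ^ 2 := by
      rw [← mul_assoc]; gcongr
    have h6 : |ν| ≤ |ν| * (1 + x) ^ 2 := le_mul_of_one_le_right (abs_nonneg _) h4
    linarith
  have h7 : x ^ m ≤ (1 + x) ^ m := by gcongr; linarith
  unfold psi
  rw [abs_mul, abs_mul, abs_of_pos (Real.exp_pos _), abs_of_pos (pow_pos hx m)]
  calc _ ≤ ((|e| * (Real.pi * t) + |ν|) * (1 + x) ^ 2) * (1 + x) ^ m *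
        Real.exp (-(Real.pi * t * x ^ 2)) * (1 + x) ^ 3 := by gcongr
    _ = (|e| * (Real.pi * t) + |ν|) * ((1 + x) ^ (m + 5) * Real.exp (-(Real.pi * t * x ^ 2))) := by
        ring
    _ ≤ _ := by gcongr

lemma int_ker {K : ℝ → ℝ} {C0 : ℝ} (hK : Continuous K) (hC : 0 < C0)
    (hlip : ∀ r r' : ℝ, 0 ≤ r → 0 ≤ r' → |K r - K r'| ≤ C0 * |r - r'|)
    {f : ℝ → ℝ} {M : ℝ} (hf : Continuous f) (hM : ∀ x, 0 < x → |f x| * (1 + x) ^ 3 ≤ M)
    {x : ℝ} (hx : 0 < x) : IntegrableOn (fun ξ => K (x * ξ) * f ξ) (Ioi 0) := by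
  have hc : Continuous (fun ξ => K (x * ξ) * f ξ) := by fun_prop
  have hM0 : 0 ≤ M := le_trans (by positivity) (hM 1 one_pos)
  have h3 : IntegrableOn (fun ξ => K (x * ξ) * f ξ) (Ioc 0 1) := hc.integrableOn_Ioc
  have h4 : IntegrableOn (fun ξ => K (x * ξ) * f ξ) (Ioi 1) := by
    have h5 : IntegrableOn (fun ξ : ℝ => (|K 0| + C0 * x) * M * (ξ / (1 + ξ) ^ 3)) (Ioi 1) :=
      (IntegrableOn.mono_set int_w.1 (Ioi_subset_Ioi zero_le_one)).const_mul _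
    refine Integrable.mono' h5 hc.aestronglyMeasurable ?_
    filter_upwards [ae_restrict_mem measurableSet_Ioi] with ξ hξ
    have hξ1 : (1 : ℝ) < ξ := hξ
    have hξ0 : (0 : ℝ) < ξ := by linarith
    rw [Real.norm_eq_abs, abs_mul]
    have h6 := hlip (x * ξ) 0 (by positivity) le_rfl
    rw [sub_zero, abs_of_pos (by positivity : 0 < x * ξ)] at h6
    have h7 : |K (x * ξ)| ≤ (|K 0| + C0 * x) * ξ := by
      have := abs_sub_abs_le_abs_sub (K (x * ξ)) (K 0)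
      have h8 : |K 0| ≤ |K 0| * ξ := le_mul_of_one_le_right (abs_nonneg _) hξ1.le
      nlinarith
    have h9 : |f ξ| ≤ M / (1 + ξ) ^ 3 := by rw [le_div_iff₀ (by positivity)]; exact hM ξ hξ0
    calc _ ≤ ((|K 0| + C0 * x) * ξ) * (M / (1 + ξ) ^ 3) := by gcongr
      _ = _ := by ring
  have := h3.union h4
  rwa [Ioc_union_Ioi_eq_Ioi zero_le_one] at this

/-- the construction with the theta identity -/
theorem exo_theta (e ν : ℝ) (m : ℕ) (hk : HasKer e ν m)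
    (L : ℕ) (hL : 1 ≤ L) (d : ℝ) (hd : 8 * (L : ℝ) ≤ d) (P : ℕ → Finset ℕ) (J0 : ℕ)
    (hP : ∀ j, J0 ≤ j → (P j).Nonempty ∧ ∀ p ∈ P j, j ^ L < p ∧ p ≤ (j + 1) ^ L) :
    ∃ κ : ℝ, 0 < κ ∧ ∃ c : ArithmeticFunction ℝ, Nle (3 / d) c 1 ∧ c 1 = 0 ∧
      (∀ n, c n ≠ 0 → ∃ j, J0 ≤ j ∧ n ∈ P j ∧
        |c n| ≤ 256 * (n : ℝ) ^ (3 / d) / (P j).card) ∧
      Theta e ν m d κ (fun n => aexp c n * (n : ℝ) ^ (1 / 2 - 1 / (2 * d))) := by
  obtain ⟨K, C0, hK, hC, hlip, hint⟩ := hk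
  obtain ⟨κ, hκ, c, h1, h2, h3, h4⟩ := exo K C0 hK hC hlip L hL d hd P J0 hP
  refine ⟨κ, hκ, c, h1, h2, h3, fun t ht => ?_⟩
  obtain ⟨M1, hM1⟩ := psi_bd e ν m ht
  obtain ⟨M2, hM2⟩ := psi_bd e ν m (inv_pos.2 ht)
  set α : ℝ := (m : ℝ) + 1 / 2 with hα
  have hta : 0 < t ^ (-α) := by positivity
  have hc1 := psi_cont e ν m t
  have hc2 := psi_cont e ν m t⁻¹
  have h5 := h4 (fun x => psi e ν m t x + t ^ (-α) * psi e ν m t⁻¹ x) (M1 + t ^ (-α) * M2)
    (by fun_prop)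
    (by
      intro x hx
      have := hM1 x hx
      have h6 := mul_le_mul_of_nonneg_left (hM2 x hx) hta.le
      calc _ ≤ (|psi e ν m t x| + t ^ (-α) * |psi e ν m t⁻¹ x|) * (1 + x) ^ 3 := by
            gcongr
            refine (abs_add_le _ _).trans ?_
            rw [abs_mul, abs_of_pos hta]
        _ ≤ _ := by nlinarith)
    (by
      intro x hx
      have i1 := int_ker hK hC hlip hc1 hM1 hx
      have i2 := int_ker hK hC hlip hc2 hM2 hx
      have e1 : ∀ ξ, K (x * ξ) * (psi e ν m t ξ + t ^ (-α) * psi e ν m t⁻¹ ξ) =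
          K (x * ξ) * psi e ν m t ξ + t ^ (-α) * (K (x * ξ) * psi e ν m t⁻¹ ξ) := by
        intro ξ; ring
      simp_rw [e1]
      rw [integral_add i1 (i2.const_mul _), integral_const_mul, hint t x ht hx,
        hint t⁻¹ x (inv_pos.2 ht) hx, inv_inv, Real.inv_rpow ht.le, ← mul_assoc,
        mul_inv_cancel₀ hta.ne']
      ring)
  rw [← h5.tsum_eq]
  congr 1; funext n
  rcases Nat.eq_zero_or_pos n with rfl | hn
  · simp [aexp_zero]
  · have hn' : (0 : ℝ) < n := by exact_mod_cast hn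
    rw [Real.rpow_neg hn'.le]
    have : (n : ℝ) ^ (1 / 2 - 1 / (2 * d)) ≠ 0 := by positivity
    field_simp

lemma summ_shift {f : ℕ → ℝ} {σ γ τ : ℝ} (hf0 : f 0 = 0) (h : Summable (wt σ f)) (hτ : γ + σ ≤ τ) :
    Summable (fun n : ℕ => |f n * (n : ℝ) ^ γ| * (n : ℝ) ^ (-τ)) := by
  refine Summable.of_nonneg_of_le (fun n => by positivity) (fun n => ?_) h
  rcases Nat.eq_zero_or_pos n with rfl | hn
  · simp [hf0, wt]
  · have hn' : (0 : ℝ) < n := by exact_mod_cast hn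
    rw [abs_mul, abs_of_pos (by positivity : 0 < (n : ℝ) ^ γ), mul_assoc, ← Real.rpow_add hn', wt]
    gcongr
    · exact_mod_cast hn
    · linarith

theorem sela : SELA := by
  intro e ν m d hd hk
  have hd0 : 0 < d := by linarith
  obtain ⟨κ, hκ, c, h1, h2, -, h4⟩ := exo_theta e ν m hk 1 le_rfl d (by simpa using hd)
    (fun j => {j + 1}) 0 (by intro j _; simp)
  refine ⟨κ, hκ, _, ?_, ?_, ?_, h4⟩
  · simp [aexp_zero]
  · simp [aexp_one h2]
  · refine summ_shift (aexp_zero c) (aexp_summable h1) ?_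
    have h5 : 3 / d ≤ 3 / 8 := by gcongr
    have h6 : 0 < 1 / (2 * d) := by positivity
    linarith

lemma lseries_shift {f : ℕ → ℝ} (hf0 : f 0 = 0) (γ : ℝ) (s : ℂ) :
    LSeries (fun n => ((f n * (n : ℝ) ^ γ : ℝ) : ℂ)) s =
      ∑' n, (f n : ℂ) * (n : ℂ) ^ (-(s - γ)) := by
  unfold LSeries
  congr 1; funext n
  rcases Nat.eq_zero_or_pos n with rfl | hn
  · simp [hf0]
  · have hn' : (n : ℂ) ≠ 0 := by exact_mod_cast hn.ne'
    rw [LSeries.term_of_ne_zero hn.ne', Complex.ofReal_mul, Complex.ofReal_cpow (Nat.cast_nonneg n),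
      Complex.ofReal_natCast, neg_sub, Complex.cpow_sub _ _ hn', mul_div_assoc]

theorem sel (hH : HOH) : SEL := by
  obtain ⟨L0, hH⟩ := hH
  set L := L0 + 1 with hL
  obtain ⟨J, hJ⟩ := hH L (by omega)
  refine ⟨48 + 8 * L, fun e ν m d hd hk => ?_⟩
  have hL0 : (0 : ℝ) ≤ L := by positivity
  have hd0 : 0 < d := by linarith
  have hT : Tendsto (fun J : ℕ => (J : ℝ) ^ (1 / 16 : ℝ)) atTop atTop :=
    (tendsto_rpow_atTop (by norm_num)).comp tendsto_natCast_atTop_atTop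
  obtain ⟨J1, hJ1⟩ := eventually_atTop.1 (hT.eventually_ge_atTop (256 * 2 ^ L))
  set P : ℕ → Finset ℕ := fun j => (Finset.Ioc (j ^ L) ((j + 1) ^ L)).filter Nat.Prime with hP
  have hcard : ∀ j, J + J1 + 1 ≤ j → (0 : ℝ) < (P j).card := by
    intro j hj
    refine lt_of_lt_of_le ?_ (hJ j (by omega))
    have : (0 : ℝ) < j := by exact_mod_cast (by omega : 0 < j)
    positivity
  obtain ⟨κ, hκ, c, h1, h2, h3, h4⟩ := exo_theta e ν m hk L (by omega) d (by linarith) P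
    (J + J1 + 1) (by
      intro j hj
      refine ⟨Finset.card_pos.1 (by exact_mod_cast hcard j hj), fun p hp => ?_⟩
      exact Finset.mem_Ioc.1 (Finset.mem_filter.1 hp).1)
  set γ : ℝ := 1 / 2 - 1 / (2 * d) with hγ
  have hγ1 : γ ≤ 1 / 2 := by have : 0 < 1 / (2 * d) := by positivity
                             linarith
  have h3d : 3 / d ≤ 1 / 16 := by rw [div_le_iff₀ hd0]; linarith
  have hc0 : ∀ n, ¬ n.Prime → c n = 0 := by
    intro n hn
    by_contra h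
    obtain ⟨j, -, hj, -⟩ := h3 n h
    exact hn (Finset.mem_filter.1 hj).2
  have hcb : ∀ n : ℕ, |c n| ≤ (n : ℝ) ^ (-(5 / 8 : ℝ)) := by
    intro n
    by_cases h : c n = 0
    · rw [h, abs_zero]; positivity
    obtain ⟨j, hj, hn, hb⟩ := h3 n h
    obtain ⟨hn1, hn2⟩ := Finset.mem_Ioc.1 (Finset.mem_filter.1 hn).1
    have hjn : j ≤ n := le_trans (Nat.le_self_pow (by omega) j) hn1.le
    have hn0 : (1 : ℝ) ≤ n := by exact_mod_cast (by omega : 1 ≤ n)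
    have hnpos : (0 : ℝ) < n := by linarith
    have h5 : (n : ℝ) ≤ 2 ^ L * (j : ℝ) ^ L := by
      rw [← mul_pow]
      have : (n : ℝ) ≤ ((j : ℝ) + 1) ^ L := by exact_mod_cast hn2
      refine this.trans ?_
      have : (1 : ℝ) ≤ j := by exact_mod_cast (by omega : 1 ≤ j)
      gcongr; linarith
    have h6 : (n : ℝ) ^ (3 / 4 : ℝ) ≤ 2 ^ L * (P j).card := by
      calc (n : ℝ) ^ (3 / 4 : ℝ) ≤ (2 ^ L * (j : ℝ) ^ L) ^ (3 / 4 : ℝ) := by gcongr
        _ = ((2 : ℝ) ^ L) ^ (3 / 4 : ℝ) * ((j : ℝ) ^ L) ^ (3 / 4 : ℝ) :=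
            Real.mul_rpow (by positivity) (by positivity)
        _ ≤ 2 ^ L * (P j).card := by
            refine mul_le_mul ?_ (hJ j (by omega)) (by positivity) (by positivity)
            calc ((2 : ℝ) ^ L) ^ (3 / 4 : ℝ) ≤ ((2 : ℝ) ^ L) ^ (1 : ℝ) :=
                  Real.rpow_le_rpow_of_exponent_le (one_le_pow₀ (by norm_num)) (by norm_num)
              _ = _ := Real.rpow_one _
    have h7 : 256 * 2 ^ L ≤ (n : ℝ) ^ (1 / 16 : ℝ) := hJ1 n (by omega)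
    refine hb.trans ?_
    rw [div_le_iff₀ (hcard j hj)]
    have h8 : (n : ℝ) ^ (3 / d) ≤ (n : ℝ) ^ (1 / 16 : ℝ) := Real.rpow_le_rpow_of_exponent_le hn0 h3d
    have h9 : (n : ℝ) ^ (1 / 16 : ℝ) * (n : ℝ) ^ (1 / 16 : ℝ) =
        (n : ℝ) ^ (-(5 / 8 : ℝ)) * (n : ℝ) ^ (3 / 4 : ℝ) := by
      rw [← Real.rpow_add hnpos, ← Real.rpow_add hnpos]; norm_num
    have h10 : (0 : ℝ) < 2 ^ L := by positivity
    refine le_of_mul_le_mul_left ?_ h10
    calc 2 ^ L * (256 * (n : ℝ) ^ (3 / d)) = (256 * 2 ^ L) * (n : ℝ) ^ (3 / d) := by ring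
      _ ≤ (n : ℝ) ^ (1 / 16 : ℝ) * (n : ℝ) ^ (1 / 16 : ℝ) := by gcongr
      _ ≤ (n : ℝ) ^ (-(5 / 8 : ℝ)) * (2 ^ L * (P j).card) := by rw [h9]; gcongr
      _ = _ := by ring
  have hcγ : ∀ n : ℕ, |c n| ≤ (n : ℝ) ^ (-γ) := by
    intro n
    rcases Nat.eq_zero_or_pos n with rfl | hn
    · simp; positivity
    · exact (hcb n).trans (Real.rpow_le_rpow_of_exponent_le (by exact_mod_cast hn) (by linarith))
  refine ⟨κ, hκ, _, fun n => c n * (n : ℝ) ^ γ, ?_, ?_, ?_, ?_, ?_, ?_, ?_, ?_, ?_, h4⟩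
  · simp [aexp_zero]
  · simp [aexp_one h2]
  · intro n
    rcases Nat.eq_zero_or_pos n with rfl | hn
    · simp [aexp_zero]
    · have hn' : (0 : ℝ) < n := by exact_mod_cast hn
      rw [abs_mul, abs_of_pos (by positivity : 0 < (n : ℝ) ^ γ)]
      calc _ ≤ (n : ℝ) ^ (-γ) * (n : ℝ) ^ γ := by gcongr; exact aexp_bound hc0 hcγ n
        _ = 1 := by rw [← Real.rpow_add hn']; simp
  · intro n hn; simp [hc0 n hn]
  · intro n
    rcases Nat.eq_zero_or_pos n with rfl | hn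
    · simp
    · have hn' : (0 : ℝ) < n := by exact_mod_cast hn
      rw [abs_mul, abs_of_pos (by positivity : 0 < (n : ℝ) ^ γ)]
      calc _ ≤ (n : ℝ) ^ (-(5 / 8 : ℝ)) * (n : ℝ) ^ γ := by gcongr; exact hcb n
        _ = (n : ℝ) ^ (-(5 / 8 : ℝ) + γ) := by rw [← Real.rpow_add hn']
        _ ≤ _ := Real.rpow_le_rpow_of_exponent_le (by exact_mod_cast hn) (by linarith)
  · intro p hp
    rw [aexp_prime hc0 hcγ hp]
  · exact summ_shift (aexp_zero c) (aexp_summable h1) (by linarith)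
  · exact summ_shift c.map_zero h1.1 (by linarith)
  · intro s hs
    rw [lseries_shift (aexp_zero c), lseries_shift c.map_zero]
    refine aexp_series h1 _ ?_
    simp only [Complex.sub_re, Complex.ofReal_re]; linarith

end Pool.Agent.Lead.Sel
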