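import Pool.Agent.Lead.Sel.Brun
import Pool.Agent.Lead.Sel.Spec

/- The packages VB and RS. -/

set_option autoImplicit false
open Finset MeasureTheory

namespace Pool.Agent.Lead.Sel

lemma V_eq (z : ℕ) : V z = ∏ p ∈ primesTo z, (1 - (p : ℝ)⁻¹) := by
  unfold V primesTo; rw [Nat.floor_natCast]

theorem vb : VB := by
  intro z hz
  have hpos : 0 < V z := by
    unfold V
    refine prod_pos fun p hp => ?_
    have : (1 : ℝ) < p := by exact_mod_cast (mem_filter.1 hp).2.one_lt
    rw [sub_pos]; exact inv_lt_one_of_one_lt₀ this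
  refine ⟨hpos, ?_⟩
  have hl : 0 < Real.log z := Real.log_pos (by exact_mod_cast hz)
  let f : ℕ →* ℝ :=
    { toFun := fun n => (n : ℝ)⁻¹, map_one' := by simp, map_mul' := by intro a b; simp [mul_comm] }
  have h := EulerProduct.summable_and_hasSum_smoothNumbers_prod_primesBelow_geometric (f := f)
    (by
      intro p hp
      have : (1 : ℝ) < p := by exact_mod_cast hp.one_lt
      show ‖(p : ℝ)⁻¹‖ < 1
      rw [Real.norm_eq_abs, abs_of_pos (by positivity)]; exact inv_lt_one_of_one_lt₀ this) (z + 1)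
  have h2 : ∑ k ∈ Icc 1 z, (1 / k : ℝ) ≤ ∏ p ∈ (z + 1).primesBelow, (1 - f p)⁻¹ := by
    have h3 := hasSum_subtype_iff_indicator.1 h.2
    refine le_trans (le_of_eq ?_) (sum_le_hasSum (Icc 1 z) (fun n _ => ?_) h3)
    · refine sum_congr rfl fun n hn => ?_
      rw [mem_Icc] at hn
      rw [Set.indicator_of_mem (Nat.mem_smoothNumbers_of_lt (by omega) (by omega)), one_div]; rfl
    · refine Set.indicator_nonneg (fun n _ => ?_) _
      show 0 ≤ (n : ℝ)⁻¹; positivity
  have h4 : ∏ p ∈ (z + 1).primesBelow, (1 - f p)⁻¹ = (V z)⁻¹ := by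
    rw [prod_inv_distrib]; rfl
  have h5 := Pool.Agent.H52.Rough.harm_lo z
  have h6 : Real.log z ≤ Real.log (z + 1) := by
    gcongr
    linarith
  rw [h4] at h2
  rw [one_div, le_inv_comm₀ hpos hl]; linarith

/-- comparison of a sum over multiples of d with an integral -/
lemma sum_mult {h : ℝ → ℂ} {H Y b : ℝ} (hH : ∀ y, ‖h y‖ ≤ H) (h0 : ∀ y, y ≤ Real.log Y → h y = 0)
    (hb : ∀ y, b ≤ y → h y = 0) (hL : ∀ x y, ‖h x - h y‖ ≤ H * |x - y|) {d : ℕ} (hd : 1 ≤ d)
    (hdY : 2 * (d : ℝ) ≤ Y) :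
    ‖(∑' k : ℕ, h (Real.log (d * k : ℕ)) / ((d * k : ℕ) : ℂ)) - (∫ y, h y) / d‖ ≤ 12 * H / Y := by
  have hH0 : 0 ≤ H := le_trans (norm_nonneg _) (hH 0)
  have hd0 : (0 : ℝ) < d := by exact_mod_cast hd
  have hY : 0 < Y := by linarith
  have hc : Continuous h := by
    refine (LipschitzWith.of_dist_le_mul (K := ⟨H, hH0⟩) fun x y => ?_).continuous
    rw [dist_eq_norm, Real.dist_eq]; exact hL x y
  obtain ⟨N, hN⟩ := exists_nat_ge (Real.exp b)
  set a : ℕ → ℝ := fun k => Real.log (d * (k + 1)) with ha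
  have hbN : ∀ k : ℕ, N ≤ k → b ≤ a k := by
    intro k hk
    rw [ha, Real.le_log_iff_exp_le (by positivity)]
    have : (N : ℝ) ≤ k := by exact_mod_cast hk
    have h1 : (1 : ℝ) ≤ d := by exact_mod_cast hd
    nlinarith [Real.exp_pos b]
  have e1 : ∑' k : ℕ, h (Real.log (d * k : ℕ)) / ((d * k : ℕ) : ℂ) =
      ∑ k ∈ range N, h (a k) / (d * (k + 1)) := by
    rw [tsum_eq_sum (s := range (N + 1)), sum_range_succ']
    · simp [ha]
    · intro k hk
      rw [mem_range, not_lt] at hk
      obtain ⟨j, rfl⟩ : ∃ j, k = j + 1 := ⟨k - 1, by omega⟩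
      rw [hb _ (by have := hbN j (by omega); simpa [ha] using this), zero_div]
  have e2 : ∫ y, h y = ∑ k ∈ range N, ∫ y in (a k)..(a (k + 1)), h y := by
    rw [intervalIntegral.sum_integral_adjacent_intervals fun k _ => hc.intervalIntegrable _ _]
    refine (intervalIntegral.integral_eq_integral_of_support_subset fun y hy => ⟨?_, ?_⟩).symm
    · by_contra hh
      refine hy (h0 y ((not_lt.1 hh).trans ?_))
      simp only [ha, Nat.cast_zero, zero_add, mul_one]
      gcongr; linarith
    · by_contra hh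
      exact hy (hb y ((hbN N le_rfl).trans (not_le.1 hh).le))
  set f : ℕ → ℝ := fun k => min (d / Y) (1 / (k + 2)) with hf
  have hterm : ∀ k : ℕ, ‖h (a k) / (d * (k + 1)) - (∫ y in (a k)..(a (k + 1)), h y) / d‖ ≤
      12 * H / d * (f k - f (k + 1)) := by
    intro k
    have hk : (0 : ℝ) < k + 1 := by positivity
    have hδ : a (k + 1) - a k = Real.log (1 + 1 / (k + 1)) := by
      simp only [ha]
      rw [← Real.log_div (by positivity) (by positivity)]
      congr 1; push_cast; field_simp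
    have hδ1 : a (k + 1) - a k ≤ 1 / (k + 1) := by
      rw [hδ]; linarith [Real.log_le_sub_one_of_pos (show (0 : ℝ) < 1 + 1 / (k + 1) by positivity)]
    have hδ2 : 1 / (k + 1) - 1 / (k + 1) ^ 2 ≤ a (k + 1) - a k := by
      rw [hδ]
      refine le_trans ?_ (Real.one_sub_inv_le_log_of_pos (by positivity))
      have : (1 + 1 / ((k : ℝ) + 1))⁻¹ = 1 - 1 / (k + 2) := by field_simp; ring
      rw [this, sub_sub_cancel, div_sub_div _ _ hk.ne' (by positivity),
        div_le_div_iff₀ (by positivity) (by positivity)]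
      nlinarith [Nat.cast_nonneg (α := ℝ) k]
    have hδ0 : 0 ≤ a (k + 1) - a k := by
      rw [hδ]; exact Real.log_nonneg (by have : (0 : ℝ) < 1 / (k + 1) := by positivity
                                         linarith)
    by_cases hc2 : d * ((k : ℝ) + 2) ≤ Y
    · have h1 : a (k + 1) ≤ Real.log Y := by
        simp only [ha]; push_cast
        gcongr; linarith
      rw [h0 (a k) (by linarith), intervalIntegral.integral_congr (g := fun _ => 0)]
      · simp only [zero_div, intervalIntegral.integral_zero, sub_self, norm_zero]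
        refine mul_nonneg (by positivity) (sub_nonneg.2 (min_le_min_left _ ?_))
        push_cast; gcongr; linarith
      · intro y hy
        rw [Set.uIcc_of_le (by linarith)] at hy
        exact h0 y (hy.2.trans h1)
    · rw [not_le] at hc2
      have f1 : f k = 1 / (k + 2) := by
        refine min_eq_right ?_
        rw [div_le_div_iff₀ (by positivity) hY]; linarith
      have f2 : f (k + 1) = 1 / (k + 3) := by
        simp only [hf]; push_cast
        rw [show (k : ℝ) + 1 + 2 = k + 3 by ring]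
        refine min_eq_right ?_
        rw [div_le_div_iff₀ (by positivity) hY]; linarith
      have h1 : ‖(∫ y in (a k)..(a (k + 1)), h y) - (a (k + 1) - a k : ℝ) * h (a k)‖ ≤
          H * (1 / (k + 1)) * (1 / (k + 1)) := by
        have : (∫ y in (a k)..(a (k + 1)), h y) - (a (k + 1) - a k : ℝ) * h (a k) =
            ∫ y in (a k)..(a (k + 1)), (h y - h (a k)) := by
          rw [intervalIntegral.integral_sub (hc.intervalIntegrable _ _) intervalIntegrable_const]
          simp
        rw [this]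
        refine (intervalIntegral.norm_integral_le_of_norm_le_const (C := H * (1 / (k + 1)))
          fun y hy => ?_).trans ?_
        · rw [Set.uIoc_of_le (by linarith)] at hy
          refine (hL _ _).trans ?_
          rw [abs_of_pos (by linarith [hy.1])]
          gcongr; linarith [hy.2]
        · rw [abs_of_nonneg hδ0]; gcongr
      have h2 : ‖((1 / (k + 1) - (a (k + 1) - a k) : ℝ) : ℂ) * h (a k)‖ ≤ 1 / (k + 1) ^ 2 * H := by
        rw [norm_mul, Complex.norm_real, Real.norm_eq_abs, abs_of_nonneg (by linarith)]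
        exact mul_le_mul (by linarith) (hH _) (norm_nonneg _) (by positivity)
      have hdc : (d : ℂ) ≠ 0 := by exact_mod_cast hd0.ne'
      have hkc : ((k : ℂ) + 1) ≠ 0 := by exact_mod_cast hk.ne'
      have e3 : h (a k) / (d * (k + 1)) - (∫ y in (a k)..(a (k + 1)), h y) / d =
          (((1 / (k + 1) - (a (k + 1) - a k) : ℝ) : ℂ) * h (a k) -
            ((∫ y in (a k)..(a (k + 1)), h y) - (a (k + 1) - a k : ℝ) * h (a k))) / d := by
        push_cast; field_simp; ring
      rw [e3, norm_div, Complex.norm_natCast, f1, f2, div_mul_eq_mul_div]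
      refine div_le_div_of_nonneg_right ((norm_sub_le _ _).trans ?_) hd0.le
      have h3 : 1 / ((k : ℝ) + 1) ^ 2 ≤ 6 * (1 / (k + 2) - 1 / (k + 3)) := by
        rw [div_sub_div _ _ (by positivity) (by positivity), ← mul_div_assoc,
          div_le_div_iff₀ (by positivity) (by positivity)]
        nlinarith [Nat.cast_nonneg (α := ℝ) k]
      have h4 : H * (1 / ((k : ℝ) + 1)) * (1 / (k + 1)) = 1 / (k + 1) ^ 2 * H := by field_simp
      have h5 := mul_le_mul_of_nonneg_right h3 hH0
      linarith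
  rw [e1, e2, sum_div, ← sum_sub_distrib]
  refine (norm_sum_le _ _).trans ((sum_le_sum fun k _ => hterm k).trans ?_)
  rw [← mul_sum, sum_range_sub']
  have h6 : f 0 ≤ d / Y := min_le_left _ _
  have h7 : 0 ≤ f N := le_min (by positivity) (by positivity)
  calc 12 * H / d * (f 0 - f N) ≤ 12 * H / d * (d / Y) := by gcongr; linarith
    _ = _ := by field_simp

noncomputable def ind (n p : ℕ) : ℝ := if p ∣ n then 1 else 0

lemma ind_mem (n p : ℕ) : 0 ≤ ind n p ∧ ind n p ≤ 1 := by unfold ind; split_ifs <;> simp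

lemma prod_ind {A : Finset ℕ} (hA : ∀ p ∈ A, p.Prime) (n : ℕ) :
    ∏ p ∈ A, ind n p = if (∏ p ∈ A, p) ∣ n then 1 else 0 := by
  split_ifs with h
  · exact prod_eq_one fun p hp => if_pos ((dvd_prod_of_mem _ hp).trans h)
  · by_contra h1
    refine h (Finset.prod_primes_dvd n (fun p hp => (hA p hp).prime) fun p hp => ?_)
    by_contra h2
    exact h1 (prod_eq_zero hp (if_neg h2))

lemma rough_eq (z n : ℕ) : rough z n = ∏ p ∈ primesTo z, (1 - ind n p) := by
  unfold rough
  split_ifs with h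
  · refine (prod_eq_one fun p hp => ?_).symm
    rw [mem_primesTo (by positivity)] at hp
    have h1 : p ∣ primorial z := (hp.1.dvd_primorial_iff).2 (by exact_mod_cast hp.2)
    have h2 : ¬ p ∣ n := fun h2 => hp.1.one_lt.ne' (Nat.eq_one_of_dvd_coprimes h h2 h1)
    simp [ind, h2]
  · obtain ⟨p, hp, h1, h2⟩ := Nat.Prime.not_coprime_iff_dvd.1 h
    refine (prod_eq_zero (i := p) ?_ (by simp [ind, h1])).symm
    rw [mem_primesTo (by positivity)]
    exact ⟨hp, by exact_mod_cast (hp.dvd_primorial_iff).1 h2⟩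

/-- evaluation of a sieve polynomial against a smooth weight -/
lemma comb_sum {Q : Finset ℕ} (hQ : ∀ p ∈ Q, p.Prime) {D : ℝ} {G : (ℕ → ℝ) → ℝ} (hG : Comb Q D G)
    {h : ℝ → ℂ} {H Y b : ℝ} (hH : ∀ y, ‖h y‖ ≤ H) (h0 : ∀ y, y ≤ Real.log Y → h y = 0)
    (hb : ∀ y, b ≤ y → h y = 0) (hL : ∀ x y, ‖h x - h y‖ ≤ H * |x - y|) (hDY : 2 * D ≤ Y)
    {N : ℕ} (hN : Real.exp b ≤ N) :
    ‖(∑ m ∈ range N, (G (ind m) : ℂ) * (h (Real.log m) / m)) -
      (G (fun p => (p : ℝ)⁻¹) : ℂ) * ∫ y, h y‖ ≤ D * (12 * H / Y) := by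
  obtain ⟨ι, s, c, A, h1, h2, h3⟩ := hG
  have hH0 : 0 ≤ H := le_trans (norm_nonneg _) (hH 0)
  have hD : 0 ≤ D := le_trans (sum_nonneg fun _ _ => abs_nonneg _) h2
  have key : ∀ i ∈ s, ‖(∑ m ∈ range N, ((∏ p ∈ A i, ind m p : ℝ) : ℂ) * (h (Real.log m) / m)) -
      ((∏ p ∈ A i, (p : ℝ)⁻¹ : ℝ) : ℂ) * ∫ y, h y‖ ≤ 12 * H / Y := by
    intro i hi
    have hA : ∀ p ∈ A i, p.Prime := fun p hp => hQ p ((h1 i hi).1 hp)
    set d := ∏ p ∈ A i, p with hd
    have hd1 : 1 ≤ d := prod_pos fun p hp => (hA p hp).pos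
    have hdD : (d : ℝ) ≤ D := by rw [hd]; push_cast; exact (h1 i hi).2
    have := sum_mult hH h0 hb hL hd1 (by linarith)
    convert this using 3
    · simp only [prod_ind hA, ← hd]
      rw [← tsum_eq_sum (L := .unconditional _)]
      · have hinj : Function.Injective (fun k : ℕ => d * k) := mul_right_injective₀ (by omega)
        rw [← hinj.tsum_eq]
        · congr 1; funext k; simp
        · intro m hm
          by_contra hh
          have : ¬ d ∣ m := fun ⟨k, hk⟩ => hh ⟨k, hk.symm⟩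
          simp [this] at hm
      · intro m hm
        rw [mem_range, not_lt] at hm
        have hm' : (N : ℝ) ≤ m := by exact_mod_cast hm
        rw [hb _ (by
          rw [Real.le_log_iff_exp_le (by linarith [Real.exp_pos b])]; linarith)]
        simp
    · rw [prod_inv_distrib, hd]; push_cast; rw [div_eq_inv_mul]
  have e : (∑ m ∈ range N, (G (ind m) : ℂ) * (h (Real.log m) / m)) -
      (G (fun p => (p : ℝ)⁻¹) : ℂ) * ∫ y, h y = ∑ i ∈ s, (c i : ℂ) *
      ((∑ m ∈ range N, ((∏ p ∈ A i, ind m p : ℝ) : ℂ) * (h (Real.log m) / m)) -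
      ((∏ p ∈ A i, (p : ℝ)⁻¹ : ℝ) : ℂ) * ∫ y, h y) := by
    simp only [h3, Complex.ofReal_sum, Complex.ofReal_mul, sum_mul, mul_sub, sum_sub_distrib,
      mul_sum, mul_assoc]
    rw [sum_comm]
  rw [e]
  refine (norm_sum_le _ _).trans ?_
  have hY : 0 ≤ 12 * H / Y := div_nonneg (by positivity) (by linarith)
  calc _ ≤ ∑ i ∈ s, |c i| * (12 * H / Y) := by
        refine sum_le_sum fun i hi => ?_
        rw [norm_mul, Complex.norm_real, Real.norm_eq_abs]
        exact mul_le_mul_of_nonneg_left (key i hi) (abs_nonneg _)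
    _ ≤ _ := by rw [← sum_mul]; gcongr

end Pool.Agent.Lead.Sel
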