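import Pool.Agent.Lead.Sel.Exo

/- The package MEL. -/

set_option autoImplicit false
open Filter Topology MeasureTheory Set Asymptotics Complex

namespace Pool.Agent.Lead.Sel

lemma term_int {p : ℝ} (hp : 0 < p) {w : ℂ} (hw : 0 < w.re) :
    IntegrableOn (fun t : ℝ => (t : ℂ) ^ (w - 1) * (Real.exp (-(p * t)) : ℂ)) (Ioi 0) ∧
    ∫ t in Ioi (0 : ℝ), (t : ℂ) ^ (w - 1) * (Real.exp (-(p * t)) : ℂ) =
      Complex.Gamma w * (p : ℂ) ^ (-w) ∧
    ∫ t in Ioi (0 : ℝ), ‖(t : ℂ) ^ (w - 1) * (Real.exp (-(p * t)) : ℂ)‖ =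
      Real.Gamma w.re * p ^ (-w.re) := by
  have hn : ∀ t ∈ Ioi (0 : ℝ), ‖(t : ℂ) ^ (w - 1) * (Real.exp (-(p * t)) : ℂ)‖ =
      t ^ (w.re - 1) * Real.exp (-(p * t)) := by
    intro t ht
    rw [norm_mul, norm_real, Real.norm_eq_abs, Real.abs_exp, norm_cpow_eq_rpow_re_of_pos ht]
    simp
  refine ⟨?_, ?_, ?_⟩
  · have h1 := integrableOn_rpow_mul_exp_neg_mul_rpow (s := w.re - 1) (p := 1) (b := p)
      (by linarith) one_pos hp
    refine Integrable.mono' h1 ?_ ?_
    · refine ContinuousOn.aestronglyMeasurable (fun t ht => ?_) measurableSet_Ioi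
      refine ContinuousAt.continuousWithinAt (ContinuousAt.mul ?_ (by fun_prop))
      exact continuousAt_ofReal_cpow_const _ _ (Or.inr (ne_of_gt ht))
    · filter_upwards [ae_restrict_mem measurableSet_Ioi] with t ht
      rw [hn t ht]; simp
  · have := integral_cpow_mul_exp_neg_mul_Ioi hw hp
    simp_rw [← ofReal_mul, ← ofReal_neg, ← ofReal_exp] at this
    rw [this, one_div, inv_cpow _ _ (arg_ofReal_of_nonneg hp.le ▸ Real.pi_pos.ne), cpow_neg,
      mul_comm]
  · rw [setIntegral_congr_fun measurableSet_Ioi hn, Real.integral_rpow_mul_exp_neg_mul_Ioi hw hp,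
      one_div, Real.inv_rpow hp.le, Real.rpow_neg hp.le, mul_comm]

/-- Mellin transform of a theta series -/
lemma mellin_series (A p : ℕ → ℝ) (e ν : ℝ) (hp : ∀ n, A n = 0 ∨ 0 < p n) {w : ℂ} (hw : 0 < w.re)
    (hs : Summable (fun n => |A n| * p n ^ (-w.re))) :
    mellin (fun t : ℝ => ((∑' n, A n * ((e * (p n * t) - ν) * Real.exp (-(p n * t))) : ℝ) : ℂ)) w =
      (e * w - ν) * Complex.Gamma w * ∑' n, (A n : ℂ) * (p n : ℂ) ^ (-w) := by
  set F : ℕ → ℝ → ℂ := fun n t => (A n * e * p n : ℂ) * ((t : ℂ) ^ (w + 1 - 1) *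
    (Real.exp (-(p n * t)) : ℂ)) - (A n * ν : ℂ) * ((t : ℂ) ^ (w - 1) *
    (Real.exp (-(p n * t)) : ℂ)) with hF
  have hw1 : 0 < (w + 1).re := by simp; linarith
  have hint : ∀ n, Integrable (F n) (volume.restrict (Ioi 0)) := by
    intro n
    rcases hp n with h | h
    · simp [hF, h]
    · exact ((term_int h hw1).1.const_mul _).sub ((term_int h hw).1.const_mul _)
  have hval : ∀ n, ∫ t in Ioi (0 : ℝ), F n t =
      (e * w - ν) * Complex.Gamma w * ((A n : ℂ) * (p n : ℂ) ^ (-w)) := by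
    intro n
    rcases hp n with h | h
    · simp [hF, h]
    · simp only [hF]
      rw [integral_sub ((term_int h hw1).1.const_mul _) ((term_int h hw).1.const_mul _),
        integral_const_mul, integral_const_mul, (term_int h hw1).2.1, (term_int h hw).2.1,
        Complex.Gamma_add_one _ (by rintro rfl; simp at hw)]
      have hp0 : (p n : ℂ) ≠ 0 := by exact_mod_cast h.ne'
      rw [neg_add, cpow_add _ _ hp0, cpow_neg_one]
      field_simp
  have hnorm : Summable (fun n => ∫ t in Ioi (0 : ℝ), ‖F n t‖) := by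
    refine Summable.of_nonneg_of_le (fun n => integral_nonneg fun _ => norm_nonneg _) (fun n => ?_)
      (hs.mul_left (|e| * Real.Gamma (w.re + 1) + |ν| * Real.Gamma w.re))
    rcases hp n with h | h
    · simp [hF, h]
    · have i1 := ((term_int h hw1).1.norm.const_mul ‖(A n * e * p n : ℂ)‖)
      have i2 := ((term_int h hw).1.norm.const_mul ‖(A n * ν : ℂ)‖)
      calc _ ≤ ∫ t in Ioi (0 : ℝ), (‖(A n * e * p n : ℂ)‖ * ‖(t : ℂ) ^ (w + 1 - 1) *
              (Real.exp (-(p n * t)) : ℂ)‖ + ‖(A n * ν : ℂ)‖ * ‖(t : ℂ) ^ (w - 1) *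
              (Real.exp (-(p n * t)) : ℂ)‖) := by
            refine integral_mono (hint n).norm (i1.add i2) fun t => ?_
            simp only [hF]
            refine (norm_sub_le _ _).trans (le_of_eq ?_)
            rw [norm_mul (A n * e * p n : ℂ), norm_mul (A n * ν : ℂ)]
        _ = _ := by
            rw [integral_add i1 i2, integral_const_mul, integral_const_mul, (term_int h hw1).2.2,
              (term_int h hw).2.2]
            simp only [norm_mul, norm_real, Real.norm_eq_abs, abs_of_pos h, add_re, one_re]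
            rw [neg_add, Real.rpow_add h, Real.rpow_neg_one]
            field_simp
  have h1 := (hasSum_integral_of_summable_integral_norm hint hnorm).tsum_eq
  simp only [hval] at h1
  rw [tsum_mul_left] at h1
  rw [h1, mellin]
  refine setIntegral_congr_fun measurableSet_Ioi fun t ht => ?_
  have ht0 : (t : ℂ) ≠ 0 := by exact_mod_cast (ne_of_gt ht)
  simp only [smul_eq_mul, hF]
  rw [ofReal_tsum, ← tsum_mul_left]
  congr 1; funext n
  have : (t : ℂ) ^ (w + 1 - 1) = (t : ℂ) ^ (w - 1) * t := by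
    rw [show w + 1 - 1 = (w - 1) + 1 by ring, cpow_add _ _ ht0, cpow_one]
  rw [this]; push_cast; ring

lemma term_le (e ν : ℝ) {p t : ℝ} (hp : 0 ≤ p * t) :
    |(e * (p * t) - ν) * Real.exp (-(p * t))| ≤ (2 * |e| + |ν|) * Real.exp (-(p * t / 2)) := by
  generalize p * t = y at hp
  have h1 : y ≤ 2 * Real.exp (y / 2) := by linarith [Real.add_one_le_exp (y / 2)]
  have h2 : 1 ≤ Real.exp (y / 2) := Real.one_le_exp (by linarith)
  have h3 : Real.exp (-(y / 2)) = Real.exp (y / 2) * Real.exp (-y) := by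
    rw [← Real.exp_add]; ring_nf
  rw [abs_mul, Real.abs_exp, h3, ← mul_assoc (2 * |e| + |ν|)]
  refine mul_le_mul_of_nonneg_right ?_ (Real.exp_pos _).le
  refine (abs_sub _ _).trans ?_
  rw [abs_mul, abs_of_nonneg hp]
  nlinarith [abs_nonneg e, abs_nonneg ν]

lemma theta_props (A p : ℕ → ℝ) (e ν p0 : ℝ) (hp0 : 0 < p0) (hp : ∀ n, A n = 0 ∨ p0 ≤ p n)
    (hs : ∀ t, 0 < t → Summable (fun n => |A n| * Real.exp (-(p n * t)))) :
    (∀ t, 0 < t → Summable (fun n => A n * ((e * (p n * t) - ν) * Real.exp (-(p n * t))))) ∧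
    ContinuousOn (fun t : ℝ => ∑' n, A n * ((e * (p n * t) - ν) * Real.exp (-(p n * t)))) (Ioi 0) ∧
    ∀ r : ℝ, (fun t : ℝ => ∑' n, A n * ((e * (p n * t) - ν) * Real.exp (-(p n * t))))
      =O[atTop] (· ^ r) := by
  have hb : ∀ t0 t, 0 < t0 → t0 ≤ t → ∀ n, ‖A n * ((e * (p n * t) - ν) * Real.exp (-(p n * t)))‖ ≤
      ((2 * |e| + |ν|) * Real.exp (-(p0 * (t - t0) / 2))) *
        (|A n| * Real.exp (-(p n * (t0 / 2)))) := by
    intro t0 t ht0 ht n
    rcases hp n with h | h
    · simp [h]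
    · have hpn : 0 < p n := by linarith
      rw [Real.norm_eq_abs, abs_mul]
      have h1 := term_le e ν (p := p n) (t := t) (mul_nonneg hpn.le (by linarith))
      have h2 : Real.exp (-(p n * t / 2)) ≤
          Real.exp (-(p0 * (t - t0) / 2)) * Real.exp (-(p n * (t0 / 2))) := by
        rw [← Real.exp_add]; gcongr
        nlinarith [mul_le_mul_of_nonneg_right h (sub_nonneg.2 ht)]
      calc _ ≤ |A n| * ((2 * |e| + |ν|) *
            (Real.exp (-(p0 * (t - t0) / 2)) * Real.exp (-(p n * (t0 / 2))))) := by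
            gcongr; exact h1.trans (by gcongr)
        _ = _ := by ring
  refine ⟨fun t ht => Summable.of_norm_bounded ((hs (t / 2) (by linarith)).mul_left _)
    (hb t t ht le_rfl), ?_, ?_⟩
  · intro t ht
    have ht0 : (0 : ℝ) < t := ht
    have hc : ContinuousOn (fun t : ℝ => ∑' n, A n * ((e * (p n * t) - ν) * Real.exp (-(p n * t))))
        (Ioi (t / 2)) := by
      refine continuousOn_tsum (u := fun n => (2 * |e| + |ν|) *
        (|A n| * Real.exp (-(p n * (t / 2 / 2))))) (fun n => by fun_prop)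
        ((hs _ (by linarith)).mul_left _) fun n x hx => ?_
      have hx' : t / 2 < x := hx
      refine (hb (t / 2) x (by linarith) hx'.le n).trans ?_
      have : Real.exp (-(p0 * (x - t / 2) / 2)) ≤ 1 := by
        rw [Real.exp_le_one_iff]
        have : 0 ≤ p0 * (x - t / 2) := mul_nonneg hp0.le (by linarith)
        linarith
      gcongr
      exact mul_le_of_le_one_right (by positivity) this
    exact (hc.continuousAt (Ioi_mem_nhds (by linarith))).continuousWithinAt
  · intro r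
    have h1 := (isLittleO_exp_neg_mul_rpow_atTop (a := p0 / 2) (by linarith) r).isBigO
    refine IsBigO.trans ?_ h1
    refine IsBigO.of_bound ((2 * |e| + |ν|) * Real.exp (p0 / 2) *
      ∑' n, |A n| * Real.exp (-(p n * (1 / 2)))) ?_
    filter_upwards [eventually_ge_atTop (1 : ℝ)] with t ht
    refine (tsum_of_norm_bounded ((hs (1 / 2) (by norm_num)).hasSum.mul_left _)
      (hb 1 t one_pos ht)).trans (le_of_eq ?_)
    rw [Real.norm_eq_abs, Real.abs_exp]
    have : Real.exp (-(p0 * (t - 1) / 2)) = Real.exp (p0 / 2) * Real.exp (-(p0 / 2) * t) := by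
      rw [← Real.exp_add]; ring_nf
    rw [this]; ring

lemma mellin_conj (f : ℝ → ℝ) (w : ℂ) :
    mellin (fun t => (f t : ℂ)) (starRingEnd ℂ w) = starRingEnd ℂ (mellin (fun t => (f t : ℂ)) w) := by
  unfold mellin
  rw [← integral_conj]
  refine setIntegral_congr_fun measurableSet_Ioi fun t ht => ?_
  have ht0 : (0 : ℝ) < t := ht
  simp only [smul_eq_mul, map_mul, conj_ofReal]
  congr 1
  have h := Complex.cpow_conj (t : ℂ) (w - 1) (by
    rw [arg_ofReal_of_nonneg ht0.le]; exact Real.pi_pos.ne)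
  rw [conj_ofReal] at h
  rw [← h]; simp

lemma mellin_bdd {f : ℝ → ℂ} (hf : ∀ s, MellinConvergent f s) (A B : ℝ) :
    ∃ C : ℝ, ∀ s : ℂ, A ≤ s.re → s.re ≤ B → ‖mellin f s‖ ≤ C := by
  have iA := (hf A).norm
  have iB := (hf B).norm
  refine ⟨∫ t in Ioi (0 : ℝ), (‖(t : ℂ) ^ ((A : ℂ) - 1) • f t‖ + ‖(t : ℂ) ^ ((B : ℂ) - 1) • f t‖),
    fun s h1 h2 => ?_⟩
  refine norm_integral_le_of_norm_le (iA.add iB) ?_
  filter_upwards [ae_restrict_mem measurableSet_Ioi] with t ht
  have ht0 : (0 : ℝ) < t := ht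
  simp only [norm_smul, norm_cpow_eq_rpow_re_of_pos ht0, sub_re, ofReal_re, one_re]
  rw [← add_mul]
  gcongr
  have a1 : 0 < t ^ (A - 1) := by positivity
  have a2 : 0 < t ^ (B - 1) := by positivity
  rcases le_total t 1 with h | h
  · have := Real.rpow_le_rpow_of_exponent_ge ht0 h (show A - 1 ≤ s.re - 1 by linarith)
    linarith
  · have := Real.rpow_le_rpow_of_exponent_le h (show s.re - 1 ≤ B - 1 by linarith)
    linarith

theorem mel : MEL := by
  intro e ν m d κ a σ0 hd hκ ha0 hsum hθ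
  set γ : ℝ := 1 / 2 - 1 / (2 * d) with hγ
  set α : ℝ := (m : ℝ) + 1 / 2 with hα
  set lam : ℝ := d / 2 with hlam
  set mu : ℝ := (m : ℝ) / 2 + 1 / 4 - d / 4 with hmu
  set q : ℝ := Real.pi * κ ^ 2 with hq
  have hq0 : 0 < q := by positivity
  set A : ℕ → ℝ := fun n => a n * (n : ℝ) ^ (-γ) * (κ * (n : ℝ) ^ (1 / d)) ^ m with hA
  set p : ℕ → ℝ := fun n => q * ((n : ℝ) ^ (1 / d)) ^ 2 with hp
  have hx1 : ∀ n : ℕ, 0 < n → 1 ≤ (n : ℝ) ^ (1 / d) := fun n hn =>
    Real.one_le_rpow (by exact_mod_cast hn) (by positivity)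
  have hp0 : ∀ n, A n = 0 ∨ q ≤ p n := by
    intro n
    rcases Nat.eq_zero_or_pos n with rfl | hn
    · left; simp [hA, ha0]
    · right
      exact le_mul_of_one_le_right hq0.le (one_le_pow₀ (hx1 n hn))
  have hs : ∀ t, 0 < t → Summable (fun n => |A n| * Real.exp (-(p n * t))) := by
    intro t ht
    obtain ⟨k, hk⟩ := exists_nat_ge (d * (σ0 - γ))
    refine Summable.of_nonneg_of_le (fun n => by positivity) (fun n => ?_)
      (hsum.mul_left (κ ^ m * Real.exp ((k + m : ℕ) ^ 2 / (4 * (q * t)))))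
    rcases Nat.eq_zero_or_pos n with rfl | hn
    · simp [hA, ha0]
    · have hn' : (0 : ℝ) < n := by exact_mod_cast hn
      have h1 := hx1 n hn
      set x := (n : ℝ) ^ (1 / d) with hx
      have h2 := gauss_bd (k + m) (a := q * t) (by positivity) x (by linarith)
      have h3 : (n : ℝ) ^ (-γ) ≤ (n : ℝ) ^ (-σ0) * x ^ k := by
        rw [hx, ← Real.rpow_natCast, ← Real.rpow_mul hn'.le, ← Real.rpow_add hn']
        refine Real.rpow_le_rpow_of_exponent_le (by exact_mod_cast hn) ?_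
        have : σ0 - γ ≤ 1 / d * k := by
          rw [one_div, le_inv_mul_iff₀ hd]; exact hk
        linarith
      have h4 : x ^ (k + m) ≤ (1 + x) ^ (k + m) := by gcongr; linarith
      simp only [hA, hp]
      rw [← hx, abs_mul, abs_mul, abs_of_pos (by positivity : 0 < (n : ℝ) ^ (-γ)),
        abs_of_pos (by positivity : 0 < (κ * x) ^ m)]
      calc _ ≤ |a n| * ((n : ℝ) ^ (-σ0) * x ^ k) * (κ * x) ^ m * Real.exp (-(q * x ^ 2 * t)) := by
            gcongr
        _ = κ ^ m * (x ^ (k + m) * Real.exp (-(q * t * x ^ 2))) * (|a n| * (n : ℝ) ^ (-σ0)) := by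
            rw [show q * x ^ 2 * t = q * t * x ^ 2 by ring]; ring
        _ ≤ _ := by gcongr; exact le_trans (by gcongr) h2
  obtain ⟨hsm, hcont, hbig⟩ := theta_props A p e ν q hq0 hp0 hs
  set Θ : ℝ → ℝ := fun t => ∑' n, A n * ((e * (p n * t) - ν) * Real.exp (-(p n * t))) with hΘ
  have hpsi : ∀ (t : ℝ) (n : ℕ), a n * (n : ℝ) ^ (-γ) * psi e ν m t (κ * (n : ℝ) ^ (1 / d)) =
      A n * ((e * (p n * t) - ν) * Real.exp (-(p n * t))) := by
    intro t n
    have : Real.pi * t * (κ * (n : ℝ) ^ (1 / d)) ^ 2 = p n * t := by simp only [hp, hq]; ring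
    unfold psi
    rw [this]; simp only [hA]; ring
  have hfe : ∀ t, 0 < t → Θ t + t ^ (-α) * Θ t⁻¹ = 0 := by
    intro t ht
    rw [← hθ t ht]
    simp only [hΘ]
    rw [← tsum_mul_left, ← (hsm t ht).tsum_add ((hsm _ (inv_pos.2 ht)).mul_left _)]
    congr 1; funext n
    rw [← hpsi, ← hpsi]; ring
  have hli : LocallyIntegrableOn (fun t => (Θ t : ℂ)) (Ioi 0) :=
    (continuous_ofReal.comp_continuousOn hcont).locallyIntegrableOn measurableSet_Ioi
  have htop : ∀ r : ℝ, (fun t => (Θ t : ℂ) - 0) =O[atTop] (· ^ r) := by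
    intro r
    simp only [sub_zero]
    exact (isBigO_ofReal_left.2 (hbig r))
  let P : WeakFEPair ℂ :=
    { f := fun t => (Θ t : ℂ), g := fun t => (Θ t : ℂ), k := α, ε := -1, f₀ := 0, g₀ := 0,
      hf_int := hli, hg_int := hli, hk := by positivity, hε := by norm_num,
      h_feq := by
        intro x hx
        have hx0 : (0 : ℝ) < x := hx
        have h1 := hfe x hx0
        rw [Real.rpow_neg hx0.le] at h1
        have h2 : 0 < x ^ α := by positivity
        have h3 : Θ (1 / x) = -1 * x ^ α * Θ x := by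
          rw [one_div]; field_simp at h1 ⊢; linarith
        simp only [h3, smul_eq_mul]; push_cast; ring
      hf_top := htop, hg_top := htop }
  have hP : IsStrongFEPair P := ⟨rfl, rfl⟩
  have hΛ : P.Λ = mellin (fun t => (Θ t : ℂ)) := hP.Λ_eq
  have hΛ' : P.symm.Λ = mellin (fun t => (Θ t : ℂ)) := hP.symm_Λ_eq
  set c0 : ℝ := (κ ^ m)⁻¹ * q ^ mu with hc0
  refine ⟨fun s => (c0 : ℂ) * mellin (fun t => (Θ t : ℂ)) (lam * s + mu), ?_, ?_, ?_, ?_, ?_⟩
  · have := hP.differentiable_Λ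
    rw [hΛ] at this
    exact (this.comp (by fun_prop)).const_mul _
  · intro s
    have := P.functional_equation (lam * s + mu)
    rw [hΛ, hΛ'] at this
    have e1 : (lam : ℂ) * (1 - s) + mu = (P.k : ℂ) - (lam * s + mu) := by
      show _ = ((α : ℝ) : ℂ) - _
      simp only [hlam, hmu, hα]; push_cast; ring
    simp only
    rw [e1, this]
    show _ * ((-1 : ℂ) • _) = _
    simp
  · intro s
    simp only [map_mul, conj_ofReal]
    rw [← mellin_conj]; simp
  · intro B1 B2
    obtain ⟨C, hC⟩ := mellin_bdd (f := fun t => (Θ t : ℂ)) (fun s => (hP.hasMellin s).1)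
      (lam * B1 + mu) (lam * B2 + mu)
    refine ⟨‖(c0 : ℂ)‖ * C, fun s h1 h2 => ?_⟩
    rw [norm_mul]
    have hl : 0 < lam := by positivity
    refine mul_le_mul_of_nonneg_left (hC _ ?_ ?_) (norm_nonneg _)
    · simp only [add_re, re_ofReal_mul, ofReal_re]; gcongr
    · simp only [add_re, re_ofReal_mul, ofReal_re]; gcongr
  · intro s hs1 hs2
    have hre : ((lam : ℂ) * s + mu).re = lam * s.re + mu := by
      simp only [add_re, re_ofReal_mul, ofReal_re]
    have hexp : ∀ n : ℕ, 0 < n → (A n : ℂ) * (p n : ℂ) ^ (-((lam : ℂ) * s + mu)) =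
        ((κ ^ m : ℝ) : ℂ) * (q : ℂ) ^ (-((lam : ℂ) * s + mu)) * ((a n : ℂ) / (n : ℂ) ^ s) := by
      intro n hn
      have hn' : (0 : ℝ) < n := by exact_mod_cast hn
      have hnc : (n : ℂ) ≠ 0 := by exact_mod_cast hn.ne'
      have e1 : ((n : ℝ) ^ (1 / d)) ^ 2 = (n : ℝ) ^ (2 / d) := by
        rw [← Real.rpow_natCast, ← Real.rpow_mul hn'.le]; congr 1; push_cast; ring
      have e2 : (n : ℝ) ^ (-γ) * ((n : ℝ) ^ (1 / d)) ^ m = (n : ℝ) ^ (-γ + m / d) := by
        rw [← Real.rpow_natCast, ← Real.rpow_mul hn'.le, ← Real.rpow_add hn']; congr 1; ring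
      have e3 : A n = κ ^ m * a n * (n : ℝ) ^ (-γ + m / d) := by
        simp only [hA]; rw [← e2]; ring
      have e4 : (((n : ℝ) ^ (2 / d) : ℝ) : ℂ) ^ (-((lam : ℂ) * s + mu)) =
          (n : ℂ) ^ (((2 / d : ℝ) : ℂ) * (-((lam : ℂ) * s + mu))) := by
        rw [← cpow_mul_ofReal_nonneg hn'.le, ofReal_natCast]
      simp only [hp]
      rw [e1, e3, ofReal_mul q, mul_cpow_ofReal_nonneg hq0.le (by positivity), e4, ofReal_mul,
        ofReal_mul, ofReal_cpow hn'.le (-γ + m / d), ofReal_natCast]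
      have e5 : (n : ℂ) ^ ((-γ + m / d : ℝ) : ℂ) *
          (n : ℂ) ^ (((2 / d : ℝ) : ℂ) * (-((lam : ℂ) * s + mu))) = ((n : ℂ) ^ s)⁻¹ := by
        rw [← cpow_add _ _ hnc, ← cpow_neg]
        congr 1
        have hdc : (d : ℂ) ≠ 0 := by exact_mod_cast hd.ne'
        simp only [hγ, hlam, hmu]; push_cast; field_simp; ring
      rw [div_eq_mul_inv (a n : ℂ), ← e5]; ring
    have hw : 0 < ((lam : ℂ) * s + mu).re := by rw [hre]; exact hs2
    have hsw : Summable (fun n => |A n| * p n ^ (-((lam : ℂ) * s + mu).re)) := by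
      refine Summable.of_nonneg_of_le (fun n => by positivity) (fun n => ?_)
        (hsum.mul_left (κ ^ m * q ^ (-((lam : ℂ) * s + mu).re)))
      rcases Nat.eq_zero_or_pos n with rfl | hn
      · simp [hA, ha0]
      · have h1 := congrArg norm (hexp n hn)
        have hpn : 0 < p n := by have := hx1 n hn; positivity
        rw [norm_mul, norm_mul, norm_mul, norm_div, norm_cpow_eq_rpow_re_of_pos hpn,
          norm_cpow_eq_rpow_re_of_pos hq0, norm_natCast_cpow_of_pos hn, norm_real, norm_real,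
          norm_real, Real.norm_eq_abs, Real.norm_eq_abs, Real.norm_eq_abs,
          abs_of_pos (by positivity : 0 < κ ^ m), neg_re] at h1
        rw [h1, div_eq_mul_inv, ← Real.rpow_neg (Nat.cast_nonneg n)]
        gcongr
        · exact_mod_cast hn
    simp only
    rw [mellin_series A p e ν (fun n => (hp0 n).imp id fun h => hq0.trans_le h) hw hsw]
    have e6 : ∑' n, (A n : ℂ) * (p n : ℂ) ^ (-((lam : ℂ) * s + mu)) =
        ((κ ^ m : ℝ) : ℂ) * (q : ℂ) ^ (-((lam : ℂ) * s + mu)) * LSeries (fun n => (a n : ℂ)) s := by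
      unfold LSeries
      rw [← tsum_mul_left]
      congr 1; funext n
      rcases Nat.eq_zero_or_pos n with rfl | hn
      · simp [hA, ha0]
      · rw [hexp n hn, LSeries.term_of_ne_zero hn.ne']
    have hqc : (q : ℂ) ≠ 0 := by exact_mod_cast hq0.ne'
    have e7 : (c0 : ℂ) * (((κ ^ m : ℝ) : ℂ) * (q : ℂ) ^ (-((lam : ℂ) * s + mu))) =
        ((q ^ (-lam) : ℝ) : ℂ) ^ s := by
      have e8 : ((q ^ (-lam) : ℝ) : ℂ) ^ s = (q : ℂ) ^ (((-lam : ℝ) : ℂ) * s) :=
        (cpow_mul_ofReal_nonneg hq0.le _ _).symm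
      have hκc : (κ : ℂ) ≠ 0 := by exact_mod_cast hκ.ne'
      rw [e8, hc0, ofReal_mul, ofReal_inv, ofReal_cpow hq0.le, neg_add, cpow_add _ _ hqc,
        cpow_neg (q : ℂ) (mu : ℂ)]
      have : (q : ℂ) ^ (mu : ℂ) ≠ 0 := by simp [hqc]
      push_cast
      field_simp
    rw [e6, ← e7]; ring

end Pool.Agent.Lead.Sel
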