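import Pool.Agent.Lead.Sel.Exo
import Pool.Agent.Lead.Sel.Mel
import Pool.Agent.Lead.Sel.Ker
import Pool.Agent.Lead.Sel.Rs2
import Pool.Agent.H49.SelPole
import Pool.Agent.H49.SelZB2
import Pool.Agent.H49.SelLD
import Pool.Agent.H61.SelC
import Pool.Agent.H55.SelHoh5
import Pool.Agent.H62.SelCG1
import Pool.Agent.H63.SelFac

set_option autoImplicit false

namespace Pool.Agent.Lead.Sel

theorem zbAll : ZB := Pool.Agent.H49.Sel.zb rs vb

theorem hohAll : HOH :=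
  Pool.Agent.H55.Hoh.hoh rs vb zbAll Pool.Agent.H61.SelA.vm
    (Pool.Agent.H61.SelC.pw (Pool.Agent.H49.Sel.ld zbAll) Pool.Agent.H61.SelA.vm)
    Pool.Agent.H61.SelA.fj

theorem selAll : SEL := sel hohAll

theorem exsAll : EXS := Pool.Agent.H49.Sel.exs selAll ker0 mel

theorem cg0All : CG0 := Pool.Agent.H63.Sel.cg0 Pool.Agent.H49.Sel.g3

theorem cg1All : CG1 :=
  Pool.Agent.H62.SelCG1.cg1 cg0All
    (Pool.Agent.H62.SelCG1a.cg1a cg0All Pool.Agent.H49.Sel.g3 Pool.Agent.H49.Sel.g5)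

end Pool.Agent.Lead.Sel
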