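import Pool.Agent.H52.Rough

/- The Brun-Hooley sieve weights. -/

set_option autoImplicit false
open Finset

namespace Pool.Agent.Lead.Sel

noncomputable def es (x : ℕ → ℝ) (B : Finset ℕ) (i : ℕ) : ℝ := ∑ A ∈ powersetCard i B, ∏ p ∈ A, x p

noncomputable def SS (x : ℕ → ℝ) (B : Finset ℕ) (k : ℕ) : ℝ := ∑ i ∈ range (k + 1), (-1) ^ i * es x B i

lemma es_zero (x : ℕ → ℝ) (B : Finset ℕ) : es x B 0 = 1 := by simp [es]

lemma es_empty (x : ℕ → ℝ) (i : ℕ) : es x ∅ (i + 1) = 0 := by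
  unfold es
  rw [powersetCard_eq_empty.2 (by simp), sum_empty]

lemma es_insert (x : ℕ → ℝ) {B : Finset ℕ} {q : ℕ} (hq : q ∉ B) (i : ℕ) :
    es x (insert q B) (i + 1) = es x B (i + 1) + x q * es x B i := by
  unfold es
  rw [powersetCard_succ_insert hq, sum_union, sum_image, mul_sum]
  · congr 1
    refine sum_congr rfl fun A hA => ?_
    rw [prod_insert (fun h => hq ((mem_powersetCard.1 hA).1 h))]
  · intro A hA A' hA' h
    have h1 : q ∉ A := fun h => hq ((mem_powersetCard.1 hA).1 h)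
    have h2 : q ∉ A' := fun h => hq ((mem_powersetCard.1 hA').1 h)
    rw [← erase_insert h1, ← erase_insert h2]; simp only [h]
  · rw [disjoint_left]
    intro A hA hA'
    obtain ⟨A', -, rfl⟩ := mem_image.1 hA'
    exact hq ((mem_powersetCard.1 hA).1 (mem_insert_self _ _))

lemma es_nonneg {x : ℕ → ℝ} {B : Finset ℕ} (hx : ∀ p ∈ B, 0 ≤ x p) (i : ℕ) : 0 ≤ es x B i :=
  sum_nonneg fun _ hA => prod_nonneg fun p hp => hx p ((mem_powersetCard.1 hA).1 hp)

lemma SS_succ (x : ℕ → ℝ) (B : Finset ℕ) (k : ℕ) :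
    SS x B (k + 1) = SS x B k + (-1) ^ (k + 1) * es x B (k + 1) := by
  unfold SS; rw [sum_range_succ]

lemma SS_zero (x : ℕ → ℝ) (B : Finset ℕ) : SS x B 0 = 1 := by simp [SS, es_zero]

lemma SS_insert (x : ℕ → ℝ) {B : Finset ℕ} {q : ℕ} (hq : q ∉ B) (k : ℕ) :
    SS x (insert q B) (k + 1) = SS x B (k + 1) - x q * SS x B k := by
  induction k with
  | zero => rw [SS_succ, SS_succ, SS_zero, SS_zero, es_insert x hq, es_zero]; ring
  | succ k ih => rw [SS_succ, ih, es_insert x hq, SS_succ x B (k + 1), SS_succ x B k]; ring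

lemma bonf {x : ℕ → ℝ} (B : Finset ℕ) (hx : ∀ p ∈ B, 0 ≤ x p ∧ x p ≤ 1) :
    ∀ k, 0 ≤ (-1) ^ k * (SS x B k - ∏ p ∈ B, (1 - x p)) := by
  induction B using Finset.induction_on with
  | empty =>
    intro k
    have : SS x ∅ k = 1 := by
      induction k with
      | zero => exact SS_zero _ _
      | succ k ih => rw [SS_succ, ih, es_empty]; ring
    simp [this]
  | insert q B hq ih =>
    have ih' := ih fun p hp => hx p (mem_insert_of_mem hp)
    have hq' := hx q (mem_insert_self _ _)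
    intro k
    cases k with
    | zero =>
      rw [SS_zero, pow_zero, one_mul, sub_nonneg]
      exact prod_le_one (fun p hp => by linarith [(hx p hp).2]) fun p hp => by linarith [(hx p hp).1]
    | succ k =>
      rw [SS_insert x hq, prod_insert hq]
      have h1 := ih' (k + 1)
      have h2 := mul_nonneg hq'.1 (ih' k)
      rw [pow_succ] at h1 ⊢
      nlinarith

lemma es_le {x : ℕ → ℝ} (B : Finset ℕ) (hx : ∀ p ∈ B, 0 ≤ x p) :
    ∀ i, es x B i ≤ (∑ p ∈ B, x p) ^ i / (i.factorial : ℝ) := by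
  induction B using Finset.induction_on with
  | empty => intro i; cases i with
    | zero => simp [es_zero]
    | succ i => simp [es_empty]
  | insert q B hq ih =>
    have ih' := ih fun p hp => hx p (mem_insert_of_mem hp)
    have hq' := hx q (mem_insert_self _ _)
    intro i
    cases i with
    | zero => simp [es_zero]
    | succ i =>
      rw [es_insert x hq, sum_insert hq]
      set S := ∑ p ∈ B, x p
      have hS : 0 ≤ S := sum_nonneg fun p hp => hx p (mem_insert_of_mem hp)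
      have h1 : S ^ (i + 1) + (i + 1) * x q * S ^ i ≤ (x q + S) ^ (i + 1) := by
        clear ih' ih
        induction i with
        | zero => simp; linarith
        | succ i ih2 =>
          have h2 := mul_le_mul_of_nonneg_right ih2 (add_nonneg hq' hS)
          rw [← pow_succ] at h2
          refine le_trans ?_ h2
          have : 0 ≤ (i + 1) * x q * S ^ i * x q := by positivity
          push_cast
          rw [pow_succ S (i + 1), pow_succ S i]
          nlinarith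
      calc _ ≤ S ^ (i + 1) / ((i + 1).factorial : ℝ) + x q * (S ^ i / (i.factorial : ℝ)) := by
            gcongr
            · exact ih' _
            · exact ih' _
        _ = (S ^ (i + 1) + (i + 1) * x q * S ^ i) / ((i + 1).factorial : ℝ) := by
            rw [Nat.factorial_succ]; push_cast; field_simp
        _ ≤ _ := by gcongr

/-- multilinear polynomials with controlled level and norm -/
def Comb (Q : Finset ℕ) (D : ℝ) (G : (ℕ → ℝ) → ℝ) : Prop :=
  ∃ (ι : Type) (s : Finset ι) (c : ι → ℝ) (A : ι → Finset ℕ),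
    (∀ i ∈ s, A i ⊆ Q ∧ ∏ p ∈ A i, (p : ℝ) ≤ D) ∧ ∑ i ∈ s, |c i| ≤ D ∧
    ∀ x, G x = ∑ i ∈ s, c i * ∏ p ∈ A i, x p

lemma Comb.mono {Q Q' : Finset ℕ} {D D' : ℝ} {G : (ℕ → ℝ) → ℝ} (h : Comb Q D G) (hQ : Q ⊆ Q')
    (hD : D ≤ D') : Comb Q' D' G := by
  obtain ⟨ι, s, c, A, h1, h2, h3⟩ := h
  exact ⟨ι, s, c, A, fun i hi => ⟨(h1 i hi).1.trans hQ, (h1 i hi).2.trans hD⟩, h2.trans hD, h3⟩

lemma Comb.const {D c : ℝ} (Q : Finset ℕ) (h1 : 1 ≤ D) (h2 : |c| ≤ D) : Comb Q D (fun _ => c) :=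
  ⟨Unit, univ, fun _ => c, fun _ => ∅, by simpa using h1, by simpa using h2, by simp⟩

lemma Comb.mul {Q Q' : Finset ℕ} {D D' : ℝ} {G G' : (ℕ → ℝ) → ℝ} (h : Comb Q D G)
    (h' : Comb Q' D' G') (hd : Disjoint Q Q') : Comb (Q ∪ Q') (D * D') (fun x => G x * G' x) := by
  obtain ⟨ι, s, c, A, h1, h2, h3⟩ := h
  obtain ⟨ι', s', c', A', h1', h2', h3'⟩ := h'
  have hD : 0 ≤ D := le_trans (sum_nonneg fun _ _ => abs_nonneg _) h2
  have hdis : ∀ i ∈ s, ∀ j ∈ s', Disjoint (A i) (A' j) := fun i hi j hj =>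
    Disjoint.mono (h1 i hi).1 (h1' j hj).1 hd
  refine ⟨ι × ι', s ×ˢ s', fun q => c q.1 * c' q.2, fun q => A q.1 ∪ A' q.2, ?_, ?_, ?_⟩
  · intro q hq
    obtain ⟨ha, hb⟩ := mem_product.1 hq
    refine ⟨union_subset_union (h1 _ ha).1 (h1' _ hb).1, ?_⟩
    rw [prod_union (hdis _ ha _ hb)]
    exact mul_le_mul (h1 _ ha).2 (h1' _ hb).2 (by positivity) hD
  · rw [sum_product]
    simp only [abs_mul]
    rw [← sum_mul_sum]
    exact mul_le_mul h2 h2' (sum_nonneg fun _ _ => abs_nonneg _) hD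
  · intro x
    simp only
    rw [h3, h3', sum_mul_sum, sum_product]
    refine sum_congr rfl fun i hi => sum_congr rfl fun j hj => ?_
    rw [prod_union (hdis _ hi _ hj)]; ring

lemma Comb.add {Q : Finset ℕ} {D D' : ℝ} {G G' : (ℕ → ℝ) → ℝ} (h : Comb Q D G)
    (h' : Comb Q D' G') : Comb Q (D + D') (fun x => G x + G' x) := by
  obtain ⟨ι, s, c, A, h1, h2, h3⟩ := h
  obtain ⟨ι', s', c', A', h1', h2', h3'⟩ := h'
  have hD : 0 ≤ D := le_trans (sum_nonneg fun _ _ => abs_nonneg _) h2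
  have hD' : 0 ≤ D' := le_trans (sum_nonneg fun _ _ => abs_nonneg _) h2'
  refine ⟨ι ⊕ ι', s.disjSum s', Sum.elim c c', Sum.elim A A', ?_, ?_, ?_⟩
  · rintro (i | i) hi
    · have := h1 i (by simpa using hi)
      exact ⟨this.1, by simp only [Sum.elim_inl]; linarith [this.2]⟩
    · have := h1' i (by simpa using hi)
      exact ⟨this.1, by simp only [Sum.elim_inr]; linarith [this.2]⟩
  · rw [sum_disjSum]; simpa using add_le_add h2 h2'
  · intro x; simp only; rw [sum_disjSum, h3, h3']; simp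

lemma comb_es {B : Finset ℕ} {y : ℝ} (hB : ∀ p ∈ B, (p : ℝ) ≤ y) (hc : (B.card : ℝ) ≤ y)
    (i : ℕ) (ε : ℝ) (hε : |ε| = 1) : Comb B (y ^ i) (fun x => ε * es x B i) := by
  refine ⟨Finset ℕ, powersetCard i B, fun _ => ε, id, ?_, ?_, ?_⟩
  · intro A hA
    obtain ⟨h1, h2⟩ := mem_powersetCard.1 hA
    refine ⟨h1, ?_⟩
    rw [← h2, ← prod_const]
    exact prod_le_prod (fun p _ => by positivity) fun p hp => hB p (h1 hp)
  · rw [sum_const, card_powersetCard, hε, nsmul_eq_mul, mul_one]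
    calc ((B.card.choose i : ℕ) : ℝ) ≤ ((B.card ^ i : ℕ) : ℝ) := by
          exact_mod_cast Nat.choose_le_pow _ _
      _ ≤ _ := by push_cast; gcongr
  · intro x; simp [es, mul_sum]

lemma comb_SS {B : Finset ℕ} {y : ℝ} (hy : 2 ≤ y) (hB : ∀ p ∈ B, (p : ℝ) ≤ y)
    (hc : (B.card : ℝ) ≤ y) (k : ℕ) : Comb B (y ^ (k + 1)) (fun x => SS x B k) := by
  induction k with
  | zero =>
    simp only [SS_zero]
    exact Comb.const B (by simp; linarith) (by simp; linarith)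
  | succ k ih =>
    simp only [SS_succ]
    refine (ih.add (comb_es hB hc (k + 1) _ (by simp))).mono subset_rfl ?_
    have : 0 < y ^ (k + 1) := by positivity
    rw [pow_succ y (k + 1)]; nlinarith

noncomputable def primesTo (y : ℝ) : Finset ℕ := (range (⌊y⌋₊ + 1)).filter Nat.Prime

lemma mem_primesTo {y : ℝ} (hy : 0 ≤ y) {p : ℕ} : p ∈ primesTo y ↔ p.Prime ∧ (p : ℝ) ≤ y := by
  unfold primesTo
  rw [mem_filter, mem_range, Nat.lt_succ_iff, Nat.le_floor_iff hy, and_comm]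

lemma block_sum {y : ℝ} (hy : 1 ≤ y) :
    ∑ p ∈ primesTo y \ primesTo (Real.sqrt y), (p : ℝ)⁻¹ ≤ 11 := by
  set n := max ⌊Real.sqrt y⌋₊ 2 with hn
  have hn2 : 2 ≤ n := le_max_right _ _
  have h1 := Pool.Agent.H52.Rough.block n hn2
  have h2 := Pool.Agent.H52.Rough.block (n ^ 2) (by nlinarith)
  have hsub : primesTo y \ primesTo (Real.sqrt y) ⊆ ({2} ∪ (Ioc n (n ^ 2)).filter Nat.Prime) ∪
      (Ioc (n ^ 2) ((n ^ 2) ^ 2)).filter Nat.Prime := by
    intro p hp
    obtain ⟨hp1, hp2⟩ := mem_sdiff.1 hp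
    rw [mem_primesTo (by linarith)] at hp1
    rw [mem_primesTo (Real.sqrt_nonneg _)] at hp2
    have h3 : ⌊Real.sqrt y⌋₊ < p := by
      rw [Nat.floor_lt (Real.sqrt_nonneg _)]
      by_contra h; exact hp2 ⟨hp1.1, not_lt.1 h⟩
    have h4 : (p : ℝ) < ((⌊Real.sqrt y⌋₊ + 1 : ℕ) : ℝ) ^ 2 := by
      have h5 := Nat.lt_floor_add_one (Real.sqrt y)
      have h6 := Real.sq_sqrt (show 0 ≤ y by linarith)
      have h7 := Real.sqrt_nonneg y
      push_cast; nlinarith [hp1.2]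
    have h5 : p < (⌊Real.sqrt y⌋₊ + 1) ^ 2 := by exact_mod_cast h4
    have h6 : ⌊Real.sqrt y⌋₊ + 1 ≤ n ^ 2 := by
      have : ⌊Real.sqrt y⌋₊ ≤ n := le_max_left _ _
      nlinarith
    have h7 : p ≤ (n ^ 2) ^ 2 := h5.le.trans (Nat.pow_le_pow_left h6 2)
    have h8 := hp1.1.two_le
    simp only [mem_union, mem_singleton, mem_filter, mem_Ioc, hp1.1, and_true]
    omega
  refine (sum_le_sum_of_subset_of_nonneg hsub fun _ _ _ => by positivity).trans ?_
  have hu : ∀ A B : Finset ℕ, ∑ p ∈ A ∪ B, (p : ℝ)⁻¹ ≤ ∑ p ∈ A, (p : ℝ)⁻¹ + ∑ p ∈ B, (p : ℝ)⁻¹ := by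
    intro A B
    rw [← sum_union_inter]
    exact le_add_of_nonneg_right (sum_nonneg fun _ _ => by positivity)
  have h3 := hu ({2} ∪ (Ioc n (n ^ 2)).filter Nat.Prime) ((Ioc (n ^ 2) ((n ^ 2) ^ 2)).filter Nat.Prime)
  have h4 := hu {2} ((Ioc n (n ^ 2)).filter Nat.Prime)
  simp only [one_div] at h1 h2
  rw [sum_singleton] at h4
  have h5 : ((2 : ℕ) : ℝ)⁻¹ ≤ 1 := Nat.cast_inv_le_one 2
  linarith

lemma block_prod {B : Finset ℕ} (hB : ∀ p ∈ B, 2 ≤ p) (hs : ∑ p ∈ B, (p : ℝ)⁻¹ ≤ 11) :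
    Real.exp (-22) ≤ ∏ p ∈ B, (1 - (p : ℝ)⁻¹) := by
  calc Real.exp (-22) ≤ Real.exp (∑ p ∈ B, -2 * (p : ℝ)⁻¹) := by
        rw [← mul_sum]; gcongr; linarith
    _ = ∏ p ∈ B, Real.exp (-2 * (p : ℝ)⁻¹) := Real.exp_sum _ _
    _ ≤ _ := by
        refine prod_le_prod (fun _ _ => (Real.exp_pos _).le) fun p hp => ?_
        have h1 : (2 : ℝ) ≤ p := by exact_mod_cast hB p hp
        have h2 : (p : ℝ)⁻¹ ≤ 1 / 2 := by rw [one_div]; gcongr
        have h3 : (0 : ℝ) ≤ (p : ℝ)⁻¹ := by positivity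
        generalize (p : ℝ)⁻¹ = u at h2 h3
        have h4 := Real.add_one_le_exp (2 * u)
        rw [show -2 * u = -(2 * u) by ring, Real.exp_neg, inv_le_iff_one_le_mul₀ (Real.exp_pos _)]
        nlinarith

noncomputable def C0 : ℝ := Real.exp 22 * Real.exp (11 * Real.exp 8)

lemma C0_pos : 0 < C0 := by unfold C0; positivity

lemma block_err {B : Finset ℕ} (hB : ∀ p ∈ B, 2 ≤ p) (hs : ∑ p ∈ B, (p : ℝ)⁻¹ ≤ 11) (K : ℕ) :
    es (fun p => (p : ℝ)⁻¹) B (2 * K + 1) ≤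
      C0 * Real.exp (-16) ^ K * ∏ p ∈ B, (1 - (p : ℝ)⁻¹) := by
  have h1 := es_le (x := fun p => (p : ℝ)⁻¹) B (fun p _ => by positivity) (2 * K + 1)
  have h2 := Real.pow_div_factorial_le_exp (11 * Real.exp 8) (by positivity) (2 * K + 1)
  have h3 := block_prod hB hs
  have h4 : (∑ p ∈ B, (p : ℝ)⁻¹) ^ (2 * K + 1) ≤ 11 ^ (2 * K + 1) :=
    pow_le_pow_left₀ (sum_nonneg fun _ _ => by positivity) hs _
  have h5 : (11 : ℝ) ^ (2 * K + 1) ≤ (11 * Real.exp 8) ^ (2 * K + 1) * Real.exp (-16) ^ K := by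
    rw [mul_pow, mul_assoc]
    refine le_mul_of_one_le_right (by positivity) ?_
    rw [← Real.exp_nat_mul, ← Real.exp_nat_mul, ← Real.exp_add]
    apply Real.one_le_exp; push_cast; linarith
  calc _ ≤ (11 * Real.exp 8) ^ (2 * K + 1) * Real.exp (-16) ^ K / ((2 * K + 1).factorial : ℝ) :=
        h1.trans (by gcongr; exact h4.trans h5)
    _ = (11 * Real.exp 8) ^ (2 * K + 1) / ((2 * K + 1).factorial : ℝ) * Real.exp (-16) ^ K := by ring
    _ ≤ Real.exp (11 * Real.exp 8) * Real.exp (-16) ^ K := by gcongr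
    _ = C0 * Real.exp (-16) ^ K * Real.exp (-22) := by
        unfold C0; rw [Real.exp_neg 22]; field_simp
    _ ≤ _ := by have := C0_pos; gcongr

/-- the sieve -/
theorem brun (J : ℕ) : ∀ (y : ℝ), 1 ≤ y → y < 2 ^ (2 ^ J) → ∀ K : ℕ,
    4 * C0 * Real.exp (-16) ^ K ≤ 1 →
    ∃ U E : (ℕ → ℝ) → ℝ, Comb (primesTo y) (y ^ (4 * K + 8)) U ∧
      Comb (primesTo y) (y ^ (4 * K + 8)) E ∧
      (∀ x : ℕ → ℝ, (∀ p, 0 ≤ x p ∧ x p ≤ 1) → 0 ≤ E x ∧ U x - E x ≤ ∏ p ∈ primesTo y, (1 - x p) ∧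
        ∏ p ∈ primesTo y, (1 - x p) ≤ U x) ∧
      E (fun p => (p : ℝ)⁻¹) ≤ 4 * C0 * Real.exp (-16) ^ K * ∏ p ∈ primesTo y, (1 - (p : ℝ)⁻¹) := by
  have base : ∀ (y : ℝ), 1 ≤ y → y < 2 → ∀ K : ℕ,
      ∃ U E : (ℕ → ℝ) → ℝ, Comb (primesTo y) (y ^ (4 * K + 8)) U ∧
      Comb (primesTo y) (y ^ (4 * K + 8)) E ∧
      (∀ x : ℕ → ℝ, (∀ p, 0 ≤ x p ∧ x p ≤ 1) → 0 ≤ E x ∧ U x - E x ≤ ∏ p ∈ primesTo y, (1 - x p) ∧
        ∏ p ∈ primesTo y, (1 - x p) ≤ U x) ∧
      E (fun p => (p : ℝ)⁻¹) ≤ 4 * C0 * Real.exp (-16) ^ K * ∏ p ∈ primesTo y, (1 - (p : ℝ)⁻¹) := by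
    intro y h1 h2 K
    have he : primesTo y = ∅ := by
      ext p
      rw [mem_primesTo (by linarith)]
      simp only [notMem_empty, iff_false, not_and, not_le]
      intro hp
      have : (2 : ℝ) ≤ p := by exact_mod_cast hp.two_le
      linarith
    have h3 : 1 ≤ y ^ (4 * K + 8) := one_le_pow₀ h1
    refine ⟨fun _ => 1, fun _ => 0, Comb.const _ h3 (by simpa using h3),
      Comb.const _ h3 (by simp; positivity), fun x _ => by simp [he], ?_⟩
    have := C0_pos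
    simp only [he, prod_empty]; positivity
  induction J with
  | zero => intro y h1 h2 K _; exact base y h1 (by simpa using h2) K
  | succ J ih =>
    intro y h1 h2 K hK
    by_cases hy : y < 2
    · exact base y h1 hy K
    rw [not_lt] at hy
    have hr : Real.exp (-16) ≤ 1 / 4 := by
      rw [Real.exp_neg, one_div]
      gcongr
      linarith [Real.add_one_le_exp 16]
    have hr0 := Real.exp_pos (-16)
    have hC := C0_pos
    have hsq : Real.sqrt y ^ 2 = y := Real.sq_sqrt (by linarith)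
    have hs1 : 1 ≤ Real.sqrt y := Real.one_le_sqrt.2 h1
    have hδ : 0 < C0 * Real.exp (-16) ^ K := by positivity
    have hK' : 4 * C0 * Real.exp (-16) ^ (K + 1) ≤ C0 * Real.exp (-16) ^ K := by
      rw [pow_succ]; nlinarith
    obtain ⟨U, E, hU, hE, hx, hm⟩ := ih (Real.sqrt y) hs1 (by
      rw [Real.sqrt_lt' (by positivity), ← pow_mul, ← pow_succ]; exact h2) (K + 1) (by nlinarith)
    set B := primesTo y \ primesTo (Real.sqrt y) with hB
    have hsub : primesTo (Real.sqrt y) ⊆ primesTo y := by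
      intro p hp
      rw [mem_primesTo (by linarith)] at hp ⊢
      exact ⟨hp.1, hp.2.trans (by nlinarith)⟩
    have hun : B ∪ primesTo (Real.sqrt y) = primesTo y := sdiff_union_of_subset hsub
    have hdis : Disjoint B (primesTo (Real.sqrt y)) := sdiff_disjoint
    have hBy : ∀ p ∈ B, p.Prime ∧ (p : ℝ) ≤ y := fun p hp =>
      (mem_primesTo (by linarith)).1 (mem_sdiff.1 hp).1
    have hBc : (B.card : ℝ) ≤ y := by
      have h3 : B ⊆ Icc 1 ⌊y⌋₊ := fun p hp => mem_Icc.2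
        ⟨(hBy p hp).1.one_le, Nat.le_floor (hBy p hp).2⟩
      have h4 := card_le_card h3
      rw [Nat.card_Icc] at h4
      exact le_trans (by exact_mod_cast h4) (Nat.floor_le (by linarith))
    have hX := comb_SS hy (fun p hp => (hBy p hp).2) hBc (2 * K)
    have hY := comb_es (fun p hp => (hBy p hp).2) hBc (2 * K + 1) 1 (by simp)
    have hlev : y ^ (2 * K + 1) * Real.sqrt y ^ (4 * (K + 1) + 8) = y ^ (4 * K + 7) := by
      rw [show 4 * (K + 1) + 8 = 2 * (2 * K + 6) by ring, pow_mul, hsq, ← pow_add]; ring_nf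
    have hlev2 : y ^ (4 * K + 7) + y ^ (4 * K + 7) ≤ y ^ (4 * K + 8) := by
      have : 0 < y ^ (4 * K + 7) := by positivity
      rw [pow_succ y (4 * K + 7)]; nlinarith
    have hbon : ∀ x : ℕ → ℝ, (∀ p, 0 ≤ x p ∧ x p ≤ 1) → 0 ≤ es x B (2 * K + 1) ∧
        SS x B (2 * K) - es x B (2 * K + 1) ≤ ∏ p ∈ B, (1 - x p) ∧
        ∏ p ∈ B, (1 - x p) ≤ SS x B (2 * K) ∧ 0 ≤ ∏ p ∈ B, (1 - x p) ∧
        0 ≤ ∏ p ∈ primesTo (Real.sqrt y), (1 - x p) := by
      intro x hx
      have b1 := bonf B (fun p _ => hx p) (2 * K)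
      have b2 := bonf B (fun p _ => hx p) (2 * K + 1)
      rw [SS_succ, pow_succ] at b2
      rw [pow_mul] at b1 b2
      simp only [neg_one_sq, one_pow] at b1 b2
      exact ⟨es_nonneg (fun p _ => (hx p).1) _, by linarith, by linarith,
        prod_nonneg fun p _ => by linarith [(hx p).2], prod_nonneg fun p _ => by linarith [(hx p).2]⟩
    refine ⟨fun x => SS x B (2 * K) * U x,
      fun x => 1 * es x B (2 * K + 1) * U x + SS x B (2 * K) * E x, ?_, ?_, ?_, ?_⟩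
    · have := hX.mul hU hdis
      rw [hun, hlev] at this
      exact this.mono subset_rfl (by have : 0 < y ^ (4 * K + 7) := by positivity
                                     linarith)
    · have := (hY.mul hU hdis).add (hX.mul hE hdis)
      rw [hun, hlev] at this
      exact this.mono subset_rfl hlev2
    · intro x hx'
      obtain ⟨a1, a2, a3, a4, a5⟩ := hbon x hx'
      obtain ⟨c1, c2, c3⟩ := hx x hx'
      rw [← hun, prod_union hdis]
      simp only [one_mul]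
      refine ⟨add_nonneg (mul_nonneg a1 (a5.trans c3)) (mul_nonneg (a4.trans a3) c1), ?_,
        mul_le_mul a3 c3 a5 (a4.trans a3)⟩
      nlinarith [mul_le_mul_of_nonneg_left c2 (a4.trans a3), mul_le_mul_of_nonneg_right a2 a5,
        mul_le_mul_of_nonneg_left c3 a1]
    · have hx0 : ∀ p : ℕ, 0 ≤ (p : ℝ)⁻¹ ∧ (p : ℝ)⁻¹ ≤ 1 := fun p =>
        ⟨by positivity, Nat.cast_inv_le_one p⟩
      obtain ⟨a1, a2, a3, a4, a5⟩ := hbon _ hx0
      obtain ⟨c1, c2, c3⟩ := hx _ hx0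
      have a6 := block_err (fun p hp => (hBy p hp).1.two_le) (block_sum h1) K
      rw [← hun, prod_union hdis]
      simp only [one_mul]
      set δ := C0 * Real.exp (-16) ^ K
      set V1 := ∏ p ∈ B, (1 - (p : ℝ)⁻¹)
      set V2 := ∏ p ∈ primesTo (Real.sqrt y), (1 - (p : ℝ)⁻¹)
      set Y := es (fun p => (p : ℝ)⁻¹) B (2 * K + 1)
      set X := SS (fun p => (p : ℝ)⁻¹) B (2 * K)
      set e := E (fun p => (p : ℝ)⁻¹)
      set u := U (fun p => (p : ℝ)⁻¹)
      have hδ1 : δ ≤ 1 / 4 := by simp only [δ]; linarith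
      have he : e ≤ δ * V2 := hm.trans (by gcongr)
      have hu : u ≤ 5 / 4 * V2 := by nlinarith
      have hX' : X ≤ 5 / 4 * V1 := by nlinarith
      calc Y * u + X * e ≤ (δ * V1) * (5 / 4 * V2) + (5 / 4 * V1) * (δ * V2) := by
            gcongr
            exact a5.trans c3
        _ = 5 / 2 * (δ * (V1 * V2)) := by ring
        _ ≤ 4 * (δ * (V1 * V2)) := by gcongr; norm_num
        _ = _ := by simp only [δ]; ring

end Pool.Agent.Lead.Sel
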