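import Pool.Agent.Lead.Sel.Fix

/- The abstract existence theorem. -/

set_option autoImplicit false
open Filter Topology ArithmeticFunction

namespace Pool.Agent.Lead.Sel
namespace LinData
variable (D : LinData)

def emb (q : Σ i : ℕ, D.N i) : ℕ := q.2.1

lemma emb_inj (hd : ∀ i j p, p ∈ D.N i → p ∈ D.N j → i = j) : Function.Injective D.emb := by
  rintro ⟨i, p, hp⟩ ⟨j, q, hq⟩ h
  have h' : p = q := h
  subst h'
  have := hd i j p hp hq
  subst this; rfl

open Classical in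
noncomputable def cmf (β : X1) (n : ℕ) : ℝ :=
  if h : ∃ i, n ∈ D.N i then β h.choose * D.ρ h.choose / (D.N h.choose).card else 0

lemma cmf_mem (hd : ∀ i j p, p ∈ D.N i → p ∈ D.N j → i = j) (β : X1) {i p : ℕ} (hp : p ∈ D.N i) :
    D.cmf β p = β i * D.ρ i / (D.N i).card := by
  have h : ∃ i, p ∈ D.N i := ⟨i, hp⟩
  have : h.choose = i := hd _ _ p h.choose_spec hp
  unfold cmf
  rw [dif_pos h, this]

lemma cmf_not (β : X1) {n : ℕ} (h : ¬ ∃ i, n ∈ D.N i) : D.cmf β n = 0 := by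
  unfold cmf; rw [dif_neg h]

lemma cmf_hasSum (hd : ∀ i j p, p ∈ D.N i → p ∈ D.N j → i = j) (β : X1) (g : ℕ → ℝ) (M : ℝ)
    (hg : ∀ i, ∀ p ∈ D.N i, |g p| * D.ρ i ≤ M) :
    HasSum (fun n => D.cmf β n * g n)
      (∑' i, β i * (D.ρ i * ((∑ p ∈ D.N i, g p) / (D.N i).card))) := by
  set F : (Σ i : ℕ, D.N i) → ℝ := fun q => β q.1 * D.ρ q.1 / (D.N q.1).card * g q.2.1 with hF
  have hFs : Summable F := by
    refine Summable.of_norm ?_
    rw [summable_sigma_of_nonneg (fun q => norm_nonneg _)]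
    refine ⟨fun i => (hasSum_fintype _).summable, ?_⟩
    refine Summable.of_nonneg_of_le (fun i => tsum_nonneg fun _ => norm_nonneg _) (fun i => ?_)
      ((X1.summable β).mul_right M)
    rw [tsum_fintype]
    have hc := D.card_pos i
    have hρ := D.ρpos i
    have : ∀ p : D.N i, ‖F ⟨i, p⟩‖ ≤ |β i| * M / (D.N i).card := by
      intro p
      simp only [hF, Real.norm_eq_abs, abs_mul, abs_div, abs_of_pos hρ, abs_of_pos hc]
      have := hg i p.1 p.2
      calc |β i| * D.ρ i / (D.N i).card * |g p.1|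
          = |β i| * (|g p.1| * D.ρ i) / (D.N i).card := by ring
        _ ≤ _ := by gcongr
    refine (Finset.sum_le_sum fun p _ => this p).trans (le_of_eq ?_)
    simp only [Finset.sum_const, Finset.card_univ, Fintype.card_coe, nsmul_eq_mul]
    field_simp
  have hval : ∑' q, F q = ∑' i, β i * (D.ρ i * ((∑ p ∈ D.N i, g p) / (D.N i).card)) := by
    rw [hFs.tsum_sigma]
    congr 1; funext i
    rw [tsum_fintype]
    simp only [hF]
    rw [← Finset.mul_sum, Finset.sum_coe_sort (D.N i) g]; ring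
  rw [← hval]
  have hinj := D.emb_inj hd
  rw [← hinj.hasSum_iff (f := fun n => D.cmf β n * g n)]
  · refine hFs.hasSum.congr_fun ?_
    rintro ⟨i, p, hp⟩
    simp only [Function.comp, emb, hF]
    rw [D.cmf_mem hd β hp]
  · intro n hn
    rw [D.cmf_not β, zero_mul]
    rintro ⟨i, hi⟩
    exact hn ⟨⟨i, n, hi⟩, rfl⟩

theorem core (σ A ε : ℝ) (hd : ∀ i j p, p ∈ D.N i → p ∈ D.N j → i = j)
    (h2 : ∀ i, ∀ p ∈ D.N i, 2 ≤ p) (hA : 0 ≤ A) (hε : 0 ≤ ε)
    (hu : ∀ n : ℕ, 1 ≤ n → 0 < D.u n ∧ 16 / (1 + D.u n) ^ 3 ≤ A * (n : ℝ) ^ (-σ))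
    (hw : ∀ i, ∀ p ∈ D.N i, (p : ℝ) ^ (-σ) * D.ρ i ≤ ε)
    (h64 : 64 * ε ≤ 1) (h128 : 128 * A * ε ^ 2 ≤ 1) :
    ∃ c : ArithmeticFunction ℝ, Nle σ c 1 ∧ c 1 = 0 ∧ (∀ n, (¬ ∃ i, n ∈ D.N i) → c n = 0) ∧
      (∀ i, ∀ p ∈ D.N i, |c p| ≤ 32 * D.ρ i / (D.N i).card) ∧
      ∀ (f : ℝ → ℝ) (M : ℝ), D.Fix f M → HasSum (fun n => aexp c n * f (D.u n)) 0 := by
  have hR : ∀ n : ℕ, ∃ β : X1, 1 ≤ n → ‖β‖ ≤ 16 / (1 + D.u n) ^ 3 ∧
      ∀ (f : ℝ → ℝ) (M : ℝ) (hf : D.Fix f M), D.ev hf β = f (D.u n) := by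
    intro n
    by_cases hn : 1 ≤ n
    · obtain ⟨β, hβ⟩ := D.repr_pt (D.u n) (hu n hn).1
      exact ⟨β, fun _ => hβ⟩
    · exact ⟨0, fun h => absurd h hn⟩
  choose R hR using hR
  have h0 : ∀ β : X1, D.cmf β 0 = 0 := fun β => D.cmf_not β (by
    rintro ⟨i, hi⟩; have := h2 i 0 hi; omega)
  set cm : X1 → ArithmeticFunction ℝ := fun β => ⟨D.cmf β, h0 β⟩ with hcm
  have hcm' : ∀ β n, cm β n = D.cmf β n := fun β n => rfl
  have hsub : ∀ β γ, cm β - cm γ = cm (β - γ) := by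
    intro β γ; ext n
    rw [af_sub_apply, hcm', hcm', hcm']
    by_cases h : ∃ i, n ∈ D.N i
    · obtain ⟨i, hi⟩ := h
      rw [D.cmf_mem hd _ hi, D.cmf_mem hd _ hi, D.cmf_mem hd _ hi]
      simp only [lp.coeFn_sub, Pi.sub_apply]; ring
    · rw [D.cmf_not _ h, D.cmf_not _ h, D.cmf_not _ h, sub_zero]
  have hN : ∀ β, Nle σ (cm β) (ε * ‖β‖) := by
    intro β
    set β' : X1 := X1.mk (fun i => |β i|) (by simpa using X1.summable β) with hβ'
    have hs := D.cmf_hasSum hd β' (fun n => (n : ℝ) ^ (-σ)) ε (by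
      intro i p hp
      rw [abs_of_nonneg (by positivity)]; exact hw i p hp)
    have e : (fun n => D.cmf β' n * (n : ℝ) ^ (-σ)) = wt σ (cm β) := by
      funext n
      unfold wt
      rw [hcm']
      by_cases h : ∃ i, n ∈ D.N i
      · obtain ⟨i, hi⟩ := h
        rw [D.cmf_mem hd _ hi, D.cmf_mem hd _ hi, abs_div, abs_mul, abs_of_pos (D.ρpos i),
          abs_of_pos (D.card_pos i)]
        simp [hβ']
      · rw [D.cmf_not _ h, D.cmf_not _ h]; simp
    rw [e] at hs
    refine ⟨hs.summable, ?_⟩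
    rw [hs.tsum_eq, X1.norm_eq, mul_comm, ← tsum_mul_right]
    have hb : ∀ i, |D.ρ i * ((∑ p ∈ D.N i, (p : ℝ) ^ (-σ)) / (D.N i).card)| ≤ ε := by
      intro i
      have hc := D.card_pos i
      have hρ := D.ρpos i
      rw [abs_of_nonneg (by positivity), ← mul_div_assoc, div_le_iff₀ hc, Finset.mul_sum]
      calc _ ≤ ∑ p ∈ D.N i, ε := Finset.sum_le_sum fun p hp => by
            rw [mul_comm]; exact hw i p hp
        _ = _ := by simp [mul_comm]
    refine (X1.summable_mul β' _ ε hb).tsum_le_tsum (fun i => ?_) ((X1.summable β).mul_right ε)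
    simp only [hβ', X1.mk_apply]
    exact mul_le_mul_of_nonneg_left (le_trans (le_abs_self _) (hb i)) (abs_nonneg _)
  have hR' : ∀ n, 1 ≤ n → ‖R n‖ ≤ A * (n : ℝ) ^ (-σ) := fun n hn => (hR n hn).1.trans (hu n hn).2
  have hR1 : ‖R 1‖ ≤ 16 := by
    refine (hR 1 le_rfl).1.trans ?_
    have := (hu 1 le_rfl).1
    rw [div_le_iff₀ (by positivity)]
    have : 1 ≤ (1 + D.u 1) ^ 3 := one_le_pow₀ (by linarith)
    linarith
  obtain ⟨β, hβ, hfix⟩ := exists_fix σ A ε R hA hR' hR1 cm hsub hN hε h64 h128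
  have hN1 : Nle σ (cm β) 1 := (hN β).mono (by nlinarith [norm_nonneg β])
  refine ⟨cm β, hN1, ?_, fun n hn => D.cmf_not β hn, ?_, ?_⟩
  · exact D.cmf_not β (by rintro ⟨i, hi⟩; have := h2 i 1 hi; omega)
  · intro i p hp
    rw [hcm', D.cmf_mem hd _ hp, abs_div, abs_mul, abs_of_pos (D.ρpos i),
      abs_of_pos (D.card_pos i)]
    have h3 : |β i| ≤ 32 := by
      have := lp.norm_apply_le_norm (by norm_num) β i
      rw [Real.norm_eq_abs] at this; linarith
    exact div_le_div_of_nonneg_right (mul_le_mul_of_nonneg_right h3 (D.ρpos i).le)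
      (D.card_pos i).le
  · intro f M hf
    have hM := D.fix_M_nonneg hf
    have hg : ∀ n : ℕ, 1 ≤ n → ‖f (D.u n)‖ ≤ M / 16 * A * (n : ℝ) ^ (-σ) := by
      intro n hn
      refine (D.fix_le hf (hu n hn).1).trans ?_
      have := mul_le_mul_of_nonneg_left (hu n hn).2 (by positivity : 0 ≤ M / 16)
      calc M / (1 + D.u n) ^ 3 = M / 16 * (16 / (1 + D.u n) ^ 3) := by ring
        _ ≤ _ := by rw [mul_assoc]; exact this
    obtain ⟨hs, hh⟩ := hasSum_aexp (E := ℝ) hN1 (fun n => f (D.u n)) _ hg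
    simp only [smul_eq_mul] at hs hh
    suffices hz : (∑' k : ℕ, ((k.factorial : ℝ)⁻¹) * ∑' n, (cm β ^ k) n * f (D.u n)) = 0 by
      rw [hz] at hh; exact hh
    have hT : ∀ k : ℕ, D.ev hf (∑' n, (cm β ^ k) n • R n) = ∑' n, (cm β ^ k) n * f (D.u n) := by
      intro k
      rw [(D.ev hf).map_tsum (T_bound hA hR' (hN1.pow k)).1]
      congr 1; funext n
      rcases Nat.eq_zero_or_pos n with rfl | hn
      · simp
      · rw [map_smul, (hR n hn).2 f M hf, smul_eq_mul]
    have hsX := (hasSum_aexp (E := X1) hN1 R A hR').1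
    have hsX2 := (summable_nat_add_iff 2).2 hsX
    have e1 := congrArg (D.ev hf) hfix
    rw [map_sub, map_neg, (D.ev hf).map_tsum hsX2, (hR 1 le_rfl).2 f M hf] at e1
    simp only [map_smul, hT, smul_eq_mul] at e1
    have e2 : D.ev hf β = ∑' n, (cm β ^ 1) n * f (D.u n) := by
      have := D.cmf_hasSum hd β (fun n => f (D.u n)) M (by
        intro i p hp
        exact (mul_le_mul_of_nonneg_left (D.wt2 i p hp) (abs_nonneg _)).trans
          (hf.2.1 _ (D.upos i p hp)))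
      rw [pow_one]
      simp only [hcm']
      rw [this.tsum_eq]; rfl
    have e3 : ∑' n, (cm β ^ 0) n * f (D.u n) = f (D.u 1) := by
      rw [pow_zero, tsum_eq_single 1]
      · simp
      · intro n hn; simp [ArithmeticFunction.one_apply_ne hn]
    rw [← hs.sum_add_tsum_nat_add 2, Finset.sum_range_succ, Finset.sum_range_one, e3, ← e2, e1]
    simp only [Nat.factorial_zero, Nat.factorial_one, Nat.cast_one, inv_one, one_mul]
    ring

end LinData

/-- pointwise bound for powers of a function supported on the primes -/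
lemma pow_bound {c : ArithmeticFunction ℝ} {γ : ℝ} (h0 : ∀ n, ¬ n.Prime → c n = 0)
    (h1 : ∀ n : ℕ, |c n| ≤ (n : ℝ) ^ (-γ)) (k : ℕ) : ∀ n : ℕ,
    |(c ^ k) n| ≤ if cardFactors n = k then (k.factorial : ℝ) * (n : ℝ) ^ (-γ) else 0 := by
  induction k with
  | zero =>
    intro n
    rcases eq_or_ne n 1 with rfl | hn
    · simp
    · rw [pow_zero, ArithmeticFunction.one_apply_ne hn, abs_zero]
      split_ifs <;> positivity
  | succ k ih =>
    intro n
    rcases eq_or_ne n 0 with rfl | hn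
    · simp
    rw [pow_succ', ArithmeticFunction.mul_apply, Nat.sum_divisorsAntidiagonal
      (fun a b => c a * (c ^ k) b)]
    have hsub : ∑ a ∈ n.divisors, c a * (c ^ k) (n / a) =
        ∑ a ∈ n.primeFactors, c a * (c ^ k) (n / a) := by
      symm
      refine Finset.sum_subset (fun a ha => ?_) (fun a ha ha' => ?_)
      · exact Nat.mem_divisors.2 ⟨Nat.dvd_of_mem_primeFactors ha, hn⟩
      · rw [h0 a, zero_mul]
        intro hp
        exact ha' (Nat.mem_primeFactors.2 ⟨hp, Nat.dvd_of_mem_divisors ha, hn⟩)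
    rw [hsub]
    have hterm : ∀ a ∈ n.primeFactors, |c a * (c ^ k) (n / a)| ≤
        if cardFactors n = k + 1 then (k.factorial : ℝ) * (n : ℝ) ^ (-γ) else 0 := by
      intro a ha
      obtain ⟨hp, ⟨m, rfl⟩, -⟩ := Nat.mem_primeFactors.1 ha
      have hm : m ≠ 0 := by rintro rfl; simp at hn
      rw [Nat.mul_div_cancel_left _ hp.pos, abs_mul,
        ArithmeticFunction.cardFactors_mul hp.ne_zero hm, ArithmeticFunction.cardFactors_apply_prime hp]
      have h3 := ih m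
      by_cases hk : cardFactors m = k
      · rw [if_pos hk] at h3
        rw [if_pos (by omega), Nat.cast_mul, Real.mul_rpow (by positivity) (by positivity)]
        calc _ ≤ (a : ℝ) ^ (-γ) * ((k.factorial : ℝ) * (m : ℝ) ^ (-γ)) :=
              mul_le_mul (h1 a) h3 (abs_nonneg _) (by positivity)
          _ = _ := by ring
      · rw [if_neg hk] at h3
        rw [if_neg (by omega), le_antisymm h3 (abs_nonneg _), mul_zero]
    refine (Finset.abs_sum_le_sum_abs _ _).trans ((Finset.sum_le_sum hterm).trans ?_)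
    rw [Finset.sum_const, nsmul_eq_mul]
    split_ifs with hk
    · have h4 : n.primeFactors.card ≤ k + 1 := by
        rw [← hk, ArithmeticFunction.cardFactors_apply, ← Nat.toFinset_factors]
        exact List.toFinset_card_le _
      have h5 : (n.primeFactors.card : ℝ) ≤ ((k + 1 : ℕ) : ℝ) := by exact_mod_cast h4
      rw [Nat.factorial_succ, Nat.cast_mul, mul_assoc]
      gcongr
    · simp

lemma aexp_bound {c : ArithmeticFunction ℝ} {γ : ℝ} (h0 : ∀ n, ¬ n.Prime → c n = 0)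
    (h1 : ∀ n : ℕ, |c n| ≤ (n : ℝ) ^ (-γ)) (n : ℕ) : |aexp c n| ≤ (n : ℝ) ^ (-γ) := by
  unfold aexp
  rw [tsum_eq_single (cardFactors n)]
  · have := pow_bound h0 h1 (cardFactors n) n
    rw [if_pos rfl] at this
    rw [abs_div, Nat.abs_cast, div_le_iff₀ (by positivity), mul_comm]; exact this
  · intro k hk
    have := pow_bound h0 h1 k n
    rw [if_neg (Ne.symm hk)] at this
    rw [abs_nonpos_iff.1 this, zero_div]

lemma aexp_prime {c : ArithmeticFunction ℝ} {γ : ℝ} (h0 : ∀ n, ¬ n.Prime → c n = 0)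
    (h1 : ∀ n : ℕ, |c n| ≤ (n : ℝ) ^ (-γ)) {p : ℕ} (hp : p.Prime) : aexp c p = c p := by
  unfold aexp
  rw [tsum_eq_single 1]
  · simp
  · intro k hk
    have := pow_bound h0 h1 k p
    rw [ArithmeticFunction.cardFactors_apply_prime hp, if_neg (Ne.symm hk)] at this
    rw [abs_nonpos_iff.1 this, zero_div]

end Pool.Agent.Lead.Sel
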