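import Mathlib

/- Weighted l1 norms of arithmetic functions and the exponential series. -/

set_option autoImplicit false
open Filter Topology ArithmeticFunction

namespace Pool.Agent.Lead.Sel

/-- weighted absolute value -/
noncomputable def wt (σ : ℝ) (f : ℕ → ℝ) (n : ℕ) : ℝ := |f n| * (n : ℝ) ^ (-σ)

lemma wt_nonneg (σ : ℝ) (f : ℕ → ℝ) (n : ℕ) : 0 ≤ wt σ f n := by unfold wt; positivity

/-- f has weighted norm at most M -/
def Nle (σ : ℝ) (f : ℕ → ℝ) (M : ℝ) : Prop := Summable (wt σ f) ∧ ∑' n, wt σ f n ≤ M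

lemma Nle.nonneg {σ : ℝ} {f : ℕ → ℝ} {M : ℝ} (h : Nle σ f M) : 0 ≤ M :=
  le_trans (tsum_nonneg (wt_nonneg σ f)) h.2

lemma Nle.mono {σ : ℝ} {f : ℕ → ℝ} {M M' : ℝ} (h : Nle σ f M) (h' : M ≤ M') : Nle σ f M' :=
  ⟨h.1, h.2.trans h'⟩

lemma Nle.of_le {σ : ℝ} {f g : ℕ → ℝ} {M : ℝ} (h : Nle σ g M) (hfg : ∀ n, |f n| ≤ |g n|) :
    Nle σ f M := by
  have hle : ∀ n, wt σ f n ≤ wt σ g n := fun n => by
    unfold wt; exact mul_le_mul_of_nonneg_right (hfg n) (by positivity)
  have hs := Summable.of_nonneg_of_le (wt_nonneg σ f) hle h.1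
  exact ⟨hs, (hs.tsum_le_tsum hle h.1).trans h.2⟩

lemma Nle.add {σ : ℝ} {f g : ArithmeticFunction ℝ} {M M' : ℝ} (hf : Nle σ f M) (hg : Nle σ g M') :
    Nle σ (f + g : ArithmeticFunction ℝ) (M + M') := by
  have hle : ∀ n, wt σ (f + g : ArithmeticFunction ℝ) n ≤ wt σ f n + wt σ g n := fun n => by
    unfold wt
    rw [← add_mul, ArithmeticFunction.add_apply]
    exact mul_le_mul_of_nonneg_right (abs_add_le _ _) (by positivity)
  have hs := Summable.of_nonneg_of_le (wt_nonneg σ _) hle (hf.1.add hg.1)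
  refine ⟨hs, (hs.tsum_le_tsum hle (hf.1.add hg.1)).trans ?_⟩
  rw [hf.1.tsum_add hg.1]
  exact add_le_add hf.2 hg.2

lemma hasSum_conv {F G : ℕ → ℝ} (hF0 : F 0 = 0) (hG0 : G 0 = 0) (hF : Summable (fun n => |F n|))
    (hG : Summable (fun n => |G n|)) :
    HasSum (fun n : ℕ => ∑ q ∈ n.divisorsAntidiagonal, F q.1 * G q.2) ((∑' n, F n) * ∑' n, G n) := by
  have hF' : Summable (fun n => ‖F n‖) := hF
  have hG' : Summable (fun n => ‖G n‖) := hG
  have hs := summable_mul_of_summable_norm hF' hG'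
  have h1 := hs.hasSum
  rw [← tsum_mul_tsum_of_summable_norm hF' hG'] at h1
  have h2 := h1.tsum_fiberwise (fun q : ℕ × ℕ => q.1 * q.2)
  refine h2.congr_fun ?_
  intro n
  rcases eq_or_ne n 0 with rfl | hn
  · simp only [Nat.divisorsAntidiagonal_zero, Finset.sum_empty]
    symm
    have : ∀ b : ((fun q : ℕ × ℕ => q.1 * q.2) ⁻¹' {0}), F b.1.1 * G b.1.2 = 0 := by
      rintro ⟨⟨a, b⟩, hab⟩
      have : a * b = 0 := hab
      rcases Nat.mul_eq_zero.1 this with rfl | rfl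
      · simp [hF0]
      · simp [hG0]
    simp [this]
  · have hset : ((fun q : ℕ × ℕ => q.1 * q.2) ⁻¹' {n}) = (n.divisorsAntidiagonal : Set (ℕ × ℕ)) := by
      ext q; simp [Nat.mem_divisorsAntidiagonal, hn]
    rw [hset]
    exact (Finset.tsum_subtype' n.divisorsAntidiagonal (fun q : ℕ × ℕ => F q.1 * G q.2)).symm

lemma Nle.mul {σ : ℝ} {f g : ArithmeticFunction ℝ} {M M' : ℝ} (hf : Nle σ f M) (hg : Nle σ g M') :
    Nle σ (f * g : ArithmeticFunction ℝ) (M * M') := by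
  have h := hasSum_conv (F := wt σ f) (G := wt σ g) (by simp [wt]) (by simp [wt])
    (by simpa [abs_of_nonneg (wt_nonneg σ f _)] using hf.1)
    (by simpa [abs_of_nonneg (wt_nonneg σ g _)] using hg.1)
  have hle : ∀ n, wt σ (f * g : ArithmeticFunction ℝ) n ≤
      ∑ q ∈ n.divisorsAntidiagonal, wt σ f q.1 * wt σ g q.2 := by
    intro n
    unfold wt
    rw [ArithmeticFunction.mul_apply]
    refine (mul_le_mul_of_nonneg_right (Finset.abs_sum_le_sum_abs _ _) (by positivity)).trans ?_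
    rw [Finset.sum_mul]
    refine Finset.sum_le_sum fun q hq => le_of_eq ?_
    have hq' := (Nat.mem_divisorsAntidiagonal.1 hq).1
    rw [← hq', Nat.cast_mul, Real.mul_rpow (by positivity) (by positivity), abs_mul]; ring
  have hs := Summable.of_nonneg_of_le (wt_nonneg σ _) hle h.summable
  refine ⟨hs, (hs.tsum_le_tsum hle h.summable).trans ?_⟩
  rw [h.tsum_eq]
  exact mul_le_mul hf.2 hg.2 (tsum_nonneg (wt_nonneg σ _)) hf.nonneg

lemma Nle.one (σ : ℝ) : Nle σ (1 : ArithmeticFunction ℝ) 1 := by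
  have h : HasSum (wt σ (1 : ArithmeticFunction ℝ)) 1 := by
    have := hasSum_single (f := wt σ (1 : ArithmeticFunction ℝ)) 1 (by
      intro n hn; simp [wt, ArithmeticFunction.one_apply_ne hn])
    simpa [wt] using this
  exact ⟨h.summable, h.tsum_eq.le⟩

lemma Nle.pow {σ : ℝ} {f : ArithmeticFunction ℝ} {M : ℝ} (hf : Nle σ f M) (k : ℕ) :
    Nle σ (f ^ k : ArithmeticFunction ℝ) (M ^ k) := by
  induction k with
  | zero => simpa using Nle.one σ
  | succ k ih => rw [pow_succ, pow_succ]; exact ih.mul hf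

lemma Nle.pow_sub {σ : ℝ} {f g : ArithmeticFunction ℝ} {M δ : ℝ} (hf : Nle σ f M) (hg : Nle σ g M)
    (hfg : Nle σ (f - g : ArithmeticFunction ℝ) δ) (k : ℕ) :
    Nle σ (f ^ (k + 1) - g ^ (k + 1) : ArithmeticFunction ℝ) ((k + 1) * M ^ k * δ) := by
  induction k with
  | zero => simpa using hfg
  | succ k ih =>
    have e : (f ^ (k + 1 + 1) - g ^ (k + 1 + 1) : ArithmeticFunction ℝ) =
        f * (f ^ (k + 1) - g ^ (k + 1)) + (f - g) * g ^ (k + 1) := by ring
    rw [e]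
    refine ((hf.mul ih).add (hfg.mul (hg.pow (k + 1)))).mono (le_of_eq ?_)
    push_cast; ring

/-- the formal exponential -/
noncomputable def aexp (c : ArithmeticFunction ℝ) (n : ℕ) : ℝ :=
  ∑' k : ℕ, (c ^ k) n / (k.factorial : ℝ)

lemma summable_double {σ : ℝ} {c : ArithmeticFunction ℝ} {M : ℝ} (hc : Nle σ c M) :
    Summable (fun q : ℕ × ℕ => wt σ (c ^ q.1 : ArithmeticFunction ℝ) q.2 / (q.1.factorial : ℝ)) := by
  have hnn : 0 ≤ (fun q : ℕ × ℕ =>
      wt σ (c ^ q.1 : ArithmeticFunction ℝ) q.2 / (q.1.factorial : ℝ)) :=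
    fun q => div_nonneg (wt_nonneg _ _ _) (Nat.cast_nonneg _)
  rw [summable_prod_of_nonneg hnn]
  constructor
  · intro k
    show Summable (fun n => wt σ (c ^ k : ArithmeticFunction ℝ) n / (k.factorial : ℝ))
    exact (hc.pow k).1.div_const _
  · show Summable (fun k : ℕ => ∑' n, wt σ (c ^ k : ArithmeticFunction ℝ) n / (k.factorial : ℝ))
    refine Summable.of_nonneg_of_le
      (fun k => tsum_nonneg fun n => div_nonneg (wt_nonneg _ _ _) (Nat.cast_nonneg _))
      (fun k => ?_) (Real.summable_pow_div_factorial M)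
    rw [tsum_div_const]
    exact div_le_div_of_nonneg_right (hc.pow k).2 (Nat.cast_nonneg _)

/-- interchange of summation for the exponential series against a test sequence -/
lemma hasSum_aexp {E : Type} [NormedAddCommGroup E] [NormedSpace ℝ E] [CompleteSpace E]
    {σ : ℝ} {c : ArithmeticFunction ℝ} {M : ℝ} (hc : Nle σ c M) (g : ℕ → E) (A : ℝ)
    (hg : ∀ n, 1 ≤ n → ‖g n‖ ≤ A * (n : ℝ) ^ (-σ)) :
    Summable (fun k : ℕ => ((k.factorial : ℝ)⁻¹) • ∑' n, (c ^ k) n • g n) ∧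
    HasSum (fun n => aexp c n • g n)
      (∑' k : ℕ, ((k.factorial : ℝ)⁻¹) • ∑' n, (c ^ k) n • g n) := by
  have hd := summable_double hc
  have hs : Summable (fun q : ℕ × ℕ => ((c ^ q.1) q.2 / (q.1.factorial : ℝ)) • g q.2) := by
    refine Summable.of_norm_bounded (hd.mul_left A) ?_
    rintro ⟨k, n⟩
    rcases Nat.eq_zero_or_pos n with rfl | hn
    · simp [wt]
    · simp only [norm_smul, Real.norm_eq_abs, abs_div, Nat.abs_cast, wt]
      calc |(c ^ k) n| / (k.factorial : ℝ) * ‖g n‖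
          ≤ |(c ^ k) n| / (k.factorial : ℝ) * (A * (n : ℝ) ^ (-σ)) :=
            mul_le_mul_of_nonneg_left (hg n hn) (by positivity)
        _ = _ := by ring
  have e1 : ∀ k : ℕ, ∑' n, ((c ^ k) n / (k.factorial : ℝ)) • g n =
      ((k.factorial : ℝ)⁻¹) • ∑' n, (c ^ k) n • g n := by
    intro k
    rw [← tsum_const_smul'']
    congr 1; funext n
    rw [smul_smul, div_eq_inv_mul]
  have h1 := hs.prod
  simp only [e1] at h1
  refine ⟨h1, ?_⟩
  have h2 := hs.prod_symm
  have h3 := h2.hasSum.prod_fiberwise (g := fun n => aexp c n • g n) (by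
    intro n
    simp only [Prod.swap]
    rcases Nat.eq_zero_or_pos n with rfl | hn
    · simp [aexp, hasSum_zero]
    · unfold aexp
      refine HasSum.smul_const (Summable.hasSum ?_) _
      have h4 := (hd.prod_symm.prod_factor n).mul_right ((n : ℝ) ^ σ)
      refine Summable.of_norm_bounded h4 fun k => le_of_eq ?_
      have hn' : (0 : ℝ) < n := by exact_mod_cast hn
      simp only [Prod.swap, wt, Real.norm_eq_abs, abs_div, Nat.abs_cast]
      rw [Real.rpow_neg hn'.le]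
      have : (n : ℝ) ^ σ ≠ 0 := by positivity
      field_simp)
  have h5 : ∑' q : ℕ × ℕ, ((c ^ q.swap.1) q.swap.2 / (q.swap.1.factorial : ℝ)) • g q.swap.2 =
      ∑' k : ℕ, ((k.factorial : ℝ)⁻¹) • ∑' n, (c ^ k) n • g n := by
    have h6 := (Equiv.prodComm ℕ ℕ).tsum_eq
      (fun q : ℕ × ℕ => ((c ^ q.1) q.2 / (q.1.factorial : ℝ)) • g q.2)
    rw [hs.tsum_prod] at h6
    simp only [e1] at h6
    exact h6
  rw [← h5]; exact h3

end Pool.Agent.Lead.Sel
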