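import Pool.Agent.Lead.Sel.Lin2
import Pool.Agent.Lead.Sel.Dir

/- The nonlinear fixed point. -/

set_option autoImplicit false
open Filter Topology ArithmeticFunction

namespace Pool.Agent.Lead.Sel

lemma af_sub_apply (f g : ArithmeticFunction ℝ) (n : ℕ) : (f - g) n = f n - g n := by
  have : (f - g) n + g n = f n := by rw [← ArithmeticFunction.add_apply, sub_add_cancel]
  linarith

section
variable {E : Type} [NormedAddCommGroup E] [NormedSpace ℝ E] [CompleteSpace E]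

lemma T_bound {σ A M : ℝ} {R : ℕ → E} (hA : 0 ≤ A) (hR : ∀ n, 1 ≤ n → ‖R n‖ ≤ A * (n : ℝ) ^ (-σ))
    {f : ArithmeticFunction ℝ} (hf : Nle σ f M) :
    Summable (fun n => f n • R n) ∧ ‖∑' n, f n • R n‖ ≤ A * M := by
  have hb : ∀ n, ‖f n • R n‖ ≤ A * wt σ f n := by
    intro n
    rcases Nat.eq_zero_or_pos n with rfl | hn
    · simp [wt]
    · rw [norm_smul, Real.norm_eq_abs, wt]
      calc |f n| * ‖R n‖ ≤ |f n| * (A * (n : ℝ) ^ (-σ)) :=
            mul_le_mul_of_nonneg_left (hR n hn) (abs_nonneg _)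
        _ = _ := by ring
  refine ⟨Summable.of_norm_bounded (hf.1.mul_left A) hb, ?_⟩
  refine (tsum_of_norm_bounded (hf.1.hasSum.mul_left A) hb).trans ?_
  exact mul_le_mul_of_nonneg_left hf.2 hA

lemma geo_half : HasSum (fun k : ℕ => ((1 : ℝ) / 2) ^ k) 2 := hasSum_geometric_two

theorem exists_fix (σ A ε : ℝ) (R : ℕ → E) (hA : 0 ≤ A)
    (hR : ∀ n, 1 ≤ n → ‖R n‖ ≤ A * (n : ℝ) ^ (-σ)) (hR1 : ‖R 1‖ ≤ 16)
    (cm : E → ArithmeticFunction ℝ) (hsub : ∀ β γ, cm β - cm γ = cm (β - γ))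
    (hN : ∀ β, Nle σ (cm β) (ε * ‖β‖)) (hε : 0 ≤ ε) (h1 : 64 * ε ≤ 1) (h2 : 128 * A * ε ^ 2 ≤ 1) :
    ∃ β : E, ‖β‖ ≤ 32 ∧
      β = -R 1 - ∑' k : ℕ, (((k + 2).factorial : ℝ)⁻¹) • ∑' n, (cm β ^ (k + 2)) n • R n := by
  set Ψ : E → E := fun β =>
    -R 1 - ∑' k : ℕ, (((k + 2).factorial : ℝ)⁻¹) • ∑' n, (cm β ^ (k + 2)) n • R n with hΨ
  set M := 32 * ε with hM
  have hM0 : 0 ≤ M := by positivity
  have hM1 : M ≤ 1 / 2 := by linarith
  have hNM : ∀ β : E, ‖β‖ ≤ 32 → Nle σ (cm β) M := fun β hβ =>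
    (hN β).mono (by rw [hM, mul_comm]; gcongr)
  have hfac : ∀ k : ℕ, (((k + 2).factorial : ℝ)⁻¹) * ((k + 1 : ℕ) + 1) ≤ 1 := by
    intro k
    have h3 : (k + 2 : ℕ) ≤ (k + 2).factorial := Nat.self_le_factorial _
    have h4 : ((k + 2 : ℕ) : ℝ) ≤ ((k + 2).factorial : ℝ) := by exact_mod_cast h3
    have h5 : (0 : ℝ) < ((k + 2).factorial : ℝ) := by positivity
    rw [inv_mul_le_iff₀ h5]; push_cast at h4 ⊢; linarith
  have hfac1 : ∀ k : ℕ, (((k + 2).factorial : ℝ)⁻¹) ≤ 1 := by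
    intro k
    have := hfac k
    have h5 : (0 : ℝ) ≤ (((k + 2).factorial : ℝ)⁻¹) := by positivity
    have h6 : (0 : ℝ) ≤ ((k + 1 : ℕ) : ℝ) := by positivity
    nlinarith
  have hterm : ∀ β : E, ‖β‖ ≤ 32 → ∀ k : ℕ,
      ‖(((k + 2).factorial : ℝ)⁻¹) • ∑' n, (cm β ^ (k + 2)) n • R n‖ ≤ A * M ^ 2 * (1 / 2) ^ k := by
    intro β hβ k
    rw [norm_smul, Real.norm_eq_abs, abs_of_nonneg (by positivity)]
    have h3 := (T_bound hA hR ((hNM β hβ).pow (k + 2))).2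
    have h4 : M ^ k ≤ (1 / 2) ^ k := pow_le_pow_left₀ hM0 hM1 k
    calc _ ≤ 1 * (A * M ^ (k + 2)) := mul_le_mul (hfac1 k) h3 (norm_nonneg _) zero_le_one
      _ = A * M ^ 2 * M ^ k := by ring
      _ ≤ _ := by gcongr
  have hsum : ∀ β : E, ‖β‖ ≤ 32 → Summable (fun k : ℕ =>
      (((k + 2).factorial : ℝ)⁻¹) • ∑' n, (cm β ^ (k + 2)) n • R n) := fun β hβ =>
    Summable.of_norm_bounded (geo_half.summable.mul_left _) (hterm β hβ)
  have hmaps : Set.MapsTo Ψ (Metric.closedBall 0 32) (Metric.closedBall 0 32) := by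
    intro β hβ
    rw [mem_closedBall_zero_iff] at hβ ⊢
    have h3 := tsum_of_norm_bounded (geo_half.mul_left (A * M ^ 2)) (hterm β hβ)
    have h4 : A * M ^ 2 * 2 ≤ 16 := by rw [hM]; nlinarith
    calc ‖Ψ β‖ ≤ ‖-R 1‖ + ‖∑' k : ℕ, (((k + 2).factorial : ℝ)⁻¹) •
          ∑' n, (cm β ^ (k + 2)) n • R n‖ := norm_sub_le _ _
      _ ≤ 32 := by rw [norm_neg]; linarith
  have hlip : ∀ β γ : E, ‖β‖ ≤ 32 → ‖γ‖ ≤ 32 → ‖Ψ β - Ψ γ‖ ≤ 1 / 2 * ‖β - γ‖ := by
    intro β γ hβ hγ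
    have e : Ψ β - Ψ γ = -∑' k : ℕ, ((((k + 2).factorial : ℝ)⁻¹) • ∑' n, (cm β ^ (k + 2)) n • R n -
        (((k + 2).factorial : ℝ)⁻¹) • ∑' n, (cm γ ^ (k + 2)) n • R n) := by
      rw [(hsum β hβ).tsum_sub (hsum γ hγ)]; simp only [hΨ]; abel
    rw [e, norm_neg]
    have hb : ∀ k : ℕ, ‖(((k + 2).factorial : ℝ)⁻¹) • ∑' n, (cm β ^ (k + 2)) n • R n -
        (((k + 2).factorial : ℝ)⁻¹) • ∑' n, (cm γ ^ (k + 2)) n • R n‖ ≤
        A * M * (ε * ‖β - γ‖) * (1 / 2) ^ k := by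
      intro k
      have hd : Nle σ (cm β - cm γ : ArithmeticFunction ℝ) (ε * ‖β - γ‖) := by
        rw [hsub]; exact hN _
      have h3 := (T_bound hA hR ((hNM β hβ).pow_sub (hNM γ hγ) hd (k + 1))).2
      have h4 := (T_bound hA hR ((hNM β hβ).pow (k + 2))).1
      have h5 := (T_bound hA hR ((hNM γ hγ).pow (k + 2))).1
      rw [← smul_sub, ← h4.tsum_sub h5, norm_smul, Real.norm_eq_abs, abs_of_nonneg (by positivity)]
      simp only [af_sub_apply, sub_smul] at h3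
      have h6 : M ^ k ≤ (1 / 2) ^ k := pow_le_pow_left₀ hM0 hM1 k
      have h7 := hfac k
      have h8 : 0 ≤ A * M * (ε * ‖β - γ‖) := by positivity
      calc _ ≤ (((k + 2).factorial : ℝ)⁻¹) *
            (A * ((((k + 1 : ℕ) : ℝ) + 1) * M ^ (k + 1) * (ε * ‖β - γ‖))) :=
            mul_le_mul_of_nonneg_left h3 (by positivity)
        _ = ((((k + 2).factorial : ℝ)⁻¹) * ((k + 1 : ℕ) + 1)) *
            (A * M * (ε * ‖β - γ‖) * M ^ k) := by ring
        _ ≤ 1 * (A * M * (ε * ‖β - γ‖) * (1 / 2) ^ k) := by gcongr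
        _ = _ := by ring
    refine (tsum_of_norm_bounded (geo_half.mul_left _) hb).trans ?_
    have h9 : A * M * ε * 2 ≤ 1 / 2 := by rw [hM]; nlinarith
    have h10 := norm_nonneg (β - γ)
    nlinarith
  have hc : ContractingWith (1 / 2) (hmaps.restrict Ψ _ _) := by
    refine ⟨by norm_num, LipschitzWith.of_dist_le_mul fun β γ => ?_⟩
    have := hlip β γ (mem_closedBall_zero_iff.1 β.2) (mem_closedBall_zero_iff.1 γ.2)
    simpa [Subtype.dist_eq, dist_eq_norm] using this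
  obtain ⟨β, hβ, hfix, -⟩ := ContractingWith.exists_fixedPoint'
    (Metric.isClosed_closedBall.isComplete) hmaps hc (x := 0) (by simp) (edist_ne_top _ _)
  exact ⟨β, mem_closedBall_zero_iff.1 hβ, hfix.symm⟩

end

lemma pow_apply_one {c : ArithmeticFunction ℝ} (h : c 1 = 0) (k : ℕ) : (c ^ (k + 1)) 1 = 0 := by
  rw [pow_succ, ArithmeticFunction.mul_apply_one, h, mul_zero]

lemma aexp_one {c : ArithmeticFunction ℝ} (h : c 1 = 0) : aexp c 1 = 1 := by
  unfold aexp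
  rw [tsum_eq_single 0]
  · simp
  · intro k hk
    obtain ⟨j, rfl⟩ := Nat.exists_eq_succ_of_ne_zero hk
    rw [pow_apply_one h]; simp

lemma aexp_zero (c : ArithmeticFunction ℝ) : aexp c 0 = 0 := by simp [aexp]

lemma aexp_summable {σ M : ℝ} {c : ArithmeticFunction ℝ} (hc : Nle σ c M) :
    Summable (wt σ (aexp c)) := by
  have h := (hasSum_aexp (E := ℝ) hc (fun n => (n : ℝ) ^ (-σ)) 1 (by
    intro n _; rw [Real.norm_eq_abs, abs_of_nonneg (by positivity), one_mul])).2.summable.abs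
  refine h.congr fun n => ?_
  rw [smul_eq_mul, abs_mul, wt, abs_of_nonneg (by positivity : (0 : ℝ) ≤ (n : ℝ) ^ (-σ))]

/-- the Dirichlet series of the formal exponential is the exponential -/
lemma aexp_series {σ M : ℝ} {c : ArithmeticFunction ℝ} (hc : Nle σ c M) (s : ℂ) (hs : σ ≤ s.re) :
    ∑' n, (aexp c n : ℂ) * (n : ℂ) ^ (-s) = Complex.exp (∑' n, (c n : ℂ) * (n : ℂ) ^ (-s)) := by
  have hg : ∀ n : ℕ, 1 ≤ n → ‖(n : ℂ) ^ (-s)‖ ≤ 1 * (n : ℝ) ^ (-σ) := by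
    intro n hn
    rw [Complex.norm_natCast_cpow_of_pos hn, one_mul]
    exact Real.rpow_le_rpow_of_exponent_le (by exact_mod_cast hn) (by simpa using hs)
  have h := (hasSum_aexp (E := ℂ) hc (fun n => (n : ℂ) ^ (-s)) 1 hg).2.tsum_eq
  simp only [Complex.real_smul] at h
  rw [h]
  have hT : ∀ {f : ArithmeticFunction ℝ} {M' : ℝ}, Nle σ f M' →
      Summable (fun n => ‖(f n : ℂ) * (n : ℂ) ^ (-s)‖) := by
    intro f M' hf
    have := (T_bound (E := ℂ) zero_le_one hg hf).1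
    simp only [Complex.real_smul] at this
    exact this.norm
  have hpow : ∀ k : ℕ, ∑' n, (((c ^ k) n : ℝ) : ℂ) * (n : ℂ) ^ (-s) =
      (∑' n, (c n : ℂ) * (n : ℂ) ^ (-s)) ^ k := by
    intro k
    induction k with
    | zero =>
      rw [pow_zero, pow_zero, tsum_eq_single 1]
      · simp
      · intro n hn; simp [ArithmeticFunction.one_apply_ne hn]
    | succ k ih =>
      rw [pow_succ, pow_succ, ← ih]
      have h1 := hT (hc.pow k)
      have h2 := hT hc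
      have h3 := (summable_mul_of_summable_norm h1 h2).hasSum
      rw [← tsum_mul_tsum_of_summable_norm h1 h2] at h3
      have h4 := h3.tsum_fiberwise (fun q : ℕ × ℕ => q.1 * q.2)
      rw [← h4.tsum_eq]
      congr 1; funext n
      rcases eq_or_ne n 0 with rfl | hn
      · have : ∀ b : ((fun q : ℕ × ℕ => q.1 * q.2) ⁻¹' {0}),
            (((c ^ k) b.1.1 : ℝ) : ℂ) * (b.1.1 : ℂ) ^ (-s) * ((c b.1.2 : ℂ) * (b.1.2 : ℂ) ^ (-s))
              = 0 := by
          rintro ⟨⟨a, b⟩, hab⟩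
          have : a * b = 0 := hab
          rcases Nat.mul_eq_zero.1 this with rfl | rfl <;> simp
        simp [this]
      · have hset : ((fun q : ℕ × ℕ => q.1 * q.2) ⁻¹' {n}) =
            (n.divisorsAntidiagonal : Set (ℕ × ℕ)) := by
          ext q; simp [Nat.mem_divisorsAntidiagonal, hn]
        rw [hset, Finset.tsum_subtype' n.divisorsAntidiagonal (fun q : ℕ × ℕ =>
          (((c ^ k) q.1 : ℝ) : ℂ) * (q.1 : ℂ) ^ (-s) * ((c q.2 : ℂ) * (q.2 : ℂ) ^ (-s))),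
          ArithmeticFunction.mul_apply]
        push_cast
        rw [Finset.sum_mul]
        refine Finset.sum_congr rfl fun q hq => ?_
        rw [← (Nat.mem_divisorsAntidiagonal.1 hq).1, Nat.cast_mul, Complex.natCast_mul_natCast_cpow]
        ring
  simp only [hpow]
  rw [Complex.exp_eq_exp_ℂ, NormedSpace.exp_eq_tsum_div]
  congr 1; funext k
  push_cast; ring

end Pool.Agent.Lead.Sel
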