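import Pool.Agent.Lead.Sel.Core
import Pool.Agent.Lead.Sel.Spec

/- The geometry of the windows. -/

set_option autoImplicit false
open Filter Topology ArithmeticFunction MeasureTheory Set

namespace Pool.Agent.Lead.Sel

lemma succ_rpow_le {j : ℕ} (hj : 1 ≤ j) {β : ℝ} (h0 : 0 ≤ β) (h1 : β ≤ 1) :
    ((j : ℝ) + 1) ^ β ≤ (j : ℝ) ^ β * (1 + 1 / j) := by
  have hj' : (0 : ℝ) < j := by exact_mod_cast hj
  have e : (j : ℝ) + 1 = j * (1 + 1 / j) := by field_simp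
  rw [e, Real.mul_rpow hj'.le (by positivity)]
  gcongr
  have h2 : (1 : ℝ) ≤ 1 + 1 / j := by have : (0 : ℝ) < 1 / j := by positivity
                                      linarith
  calc (1 + 1 / (j : ℝ)) ^ β ≤ (1 + 1 / (j : ℝ)) ^ (1 : ℝ) :=
        Real.rpow_le_rpow_of_exponent_le h2 h1
    _ = _ := Real.rpow_one _

noncomputable def widx (κ β : ℝ) (J : ℕ) (x : ℝ) : ℕ := ⌈(x / κ) ^ (1 / β)⌉₊ - 1 - J

lemma widx_meas (κ β : ℝ) (J : ℕ) : Measurable (widx κ β J) := by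
  unfold widx
  have h1 : Measurable (fun x : ℝ => ⌈(x / κ) ^ (1 / β)⌉₊) :=
    Nat.measurable_ceil.comp ((measurable_id.div_const κ).pow_const _)
  exact (measurable_from_top (f := fun n : ℕ => n - 1 - J)).comp h1

lemma widx_spec {κ β : ℝ} (hκ : 0 < κ) (hβ : 0 < β) (J : ℕ) {x : ℝ} (hx : 0 < x) :
    x ≤ κ * (((J + widx κ β J x : ℕ) : ℝ) + 1) ^ β ∧
      (κ * ((J + widx κ β J x : ℕ) : ℝ) ^ β < x ∨ (widx κ β J x = 0 ∧ x ≤ κ * (J : ℝ) ^ β)) := by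
  set y := (x / κ) ^ (1 / β) with hy
  have hy0 : 0 < y := by positivity
  have hxy : x = κ * y ^ β := by
    rw [hy, ← Real.rpow_mul (by positivity), one_div_mul_cancel hβ.ne', Real.rpow_one]
    field_simp
  have hc : 1 ≤ ⌈y⌉₊ := Nat.one_le_iff_ne_zero.2 (by simpa using hy0)
  have hw : widx κ β J x = ⌈y⌉₊ - 1 - J := rfl
  have hle : y ≤ ⌈y⌉₊ := Nat.le_ceil y
  constructor
  · rw [hxy, ← hxy]
    have h1 : ⌈y⌉₊ ≤ J + widx κ β J x + 1 := by omega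
    have h2 : y ≤ ((J + widx κ β J x : ℕ) : ℝ) + 1 := hle.trans (by exact_mod_cast h1)
    calc x = κ * y ^ β := hxy
      _ ≤ _ := by gcongr
  · by_cases h : J ≤ ⌈y⌉₊ - 1
    · left
      have h1 : J + widx κ β J x = ⌈y⌉₊ - 1 := by omega
      have h2 : ((⌈y⌉₊ - 1 : ℕ) : ℝ) < y := by
        rw [← Nat.lt_ceil]; omega
      rw [h1]
      calc κ * ((⌈y⌉₊ - 1 : ℕ) : ℝ) ^ β < κ * y ^ β := by gcongr
        _ = x := hxy.symm
    · right
      refine ⟨by omega, ?_⟩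
      have h2 : y ≤ (J : ℝ) := hle.trans (by exact_mod_cast (by omega : ⌈y⌉₊ ≤ J))
      calc x = κ * y ^ β := hxy
        _ ≤ _ := by gcongr

lemma node_spec {L j p : ℕ} {d : ℝ} (hd : 0 < d) (h1 : j ^ L < p) (h2 : p ≤ (j + 1) ^ L) :
    (j : ℝ) ^ ((L : ℝ) / d) < (p : ℝ) ^ (1 / d) ∧ (p : ℝ) ^ (1 / d) ≤ ((j : ℝ) + 1) ^ ((L : ℝ) / d) := by
  have e : ∀ y : ℝ, 0 ≤ y → y ^ ((L : ℝ) / d) = (y ^ L) ^ (1 / d) := by
    intro y hy
    rw [← Real.rpow_natCast, ← Real.rpow_mul hy]; congr 1; ring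
  rw [e _ (by positivity), e _ (by positivity)]
  have h1' : (j : ℝ) ^ L < p := by exact_mod_cast h1
  have h2' : (p : ℝ) ≤ ((j : ℝ) + 1) ^ L := by exact_mod_cast h2
  constructor
  · gcongr
  · gcongr

lemma near_aux {δ β : ℝ} {J j : ℕ} (hδ : 0 < δ) (hδ1 : δ ≤ 1) (hβ0 : 0 < β) (hβ : β ≤ 1 / 8)
    (hJ : 1 ≤ J) (hj : J ≤ j) (hJδ : 27 ≤ 16 * δ * (J : ℝ) ^ (1 / 2 : ℝ)) {x u : ℝ} (hx : 0 < x)
    (hx1 : x ≤ δ / (J : ℝ) ^ β * ((j : ℝ) + 1) ^ β)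
    (hx2 : δ / (J : ℝ) ^ β * (j : ℝ) ^ β < x ∨ (j = J ∧ x ≤ δ / (J : ℝ) ^ β * (J : ℝ) ^ β))
    (hu1 : δ / (J : ℝ) ^ β * (j : ℝ) ^ β < u) (hu2 : u ≤ δ / (J : ℝ) ^ β * ((j : ℝ) + 1) ^ β) :
    |x - u| * (1 + x) ^ 3 ≤ 16 * δ ∧ (1 + x) ^ 3 ≤ 8 * (1 + δ / (J : ℝ) ^ β * (j : ℝ) ^ β) ^ 3 := by
  have hJ0 : (0 : ℝ) < J := by exact_mod_cast hJ
  have hj1 : (1 : ℝ) ≤ j := by exact_mod_cast hJ.trans hj
  have hj0 : (0 : ℝ) < j := by linarith
  set κ := δ / (J : ℝ) ^ β with hκ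
  have hκ0 : 0 < κ := by positivity
  set U := κ * (j : ℝ) ^ β with hU
  have hU0 : 0 < U := by positivity
  have hs := succ_rpow_le (hJ.trans hj) hβ0.le (by linarith)
  have hU' : κ * ((j : ℝ) + 1) ^ β ≤ U * (1 + 1 / j) := by
    rw [hU, mul_assoc]; gcongr
  have hinv : 1 / (j : ℝ) ≤ 1 := by rw [div_le_one hj0]; exact hj1
  have h2U : κ * ((j : ℝ) + 1) ^ β ≤ 2 * U := by nlinarith
  constructor
  · rcases hx2 with h | ⟨h, h'⟩
    · have h3 : |x - u| ≤ U / j := by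
        have : U * (1 + 1 / j) = U + U / j := by ring
        rw [abs_le]; constructor <;> linarith
      have hκ1 : κ ≤ 1 := by
        rw [hκ, div_le_one (by positivity)]
        exact hδ1.trans (Real.one_le_rpow (by exact_mod_cast hJ) hβ0.le)
      set w := (j : ℝ) ^ (1 / 8 : ℝ) with hw
      have hw1 : 1 ≤ w := Real.one_le_rpow hj1 (by norm_num)
      have hUw : U ≤ w := by
        calc U ≤ 1 * (j : ℝ) ^ β := by rw [hU]; gcongr
          _ ≤ w := by rw [one_mul]; exact Real.rpow_le_rpow_of_exponent_le hj1 hβ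
      have h4 : 1 + x ≤ 3 * w := by linarith
      have h5 : w ^ 8 = j := by
        rw [hw, ← Real.rpow_natCast, ← Real.rpow_mul hj0.le]; norm_num
      have h6 : (J : ℝ) ^ (1 / 2 : ℝ) ≤ w ^ 4 := by
        rw [hw, ← Real.rpow_natCast, ← Real.rpow_mul hj0.le]
        have : (1 / 8 : ℝ) * ((4 : ℕ) : ℝ) = 1 / 2 := by norm_num
        rw [this]; gcongr
      calc |x - u| * (1 + x) ^ 3 ≤ (w / j) * (3 * w) ^ 3 := by
            gcongr; exact h3.trans (by gcongr)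
        _ = 27 / w ^ 4 := by rw [← h5]; field_simp; norm_num
        _ ≤ 16 * δ := by
            rw [div_le_iff₀ (by positivity)]
            refine hJδ.trans ?_
            gcongr
    · subst h
      have hUδ : U = δ := by rw [hU, hκ]; field_simp
      have h3 : |x - u| ≤ 2 * δ := by rw [abs_le]; constructor <;> linarith
      have h4 : 1 + x ≤ 2 := by linarith
      calc |x - u| * (1 + x) ^ 3 ≤ (2 * δ) * 2 ^ 3 := by gcongr
        _ = 16 * δ := by ring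
  · have h4 : 1 + x ≤ 2 * (1 + U) := by linarith
    calc (1 + x) ^ 3 ≤ (2 * (1 + U)) ^ 3 := by gcongr
      _ = _ := by ring

/-- existence of exotic coefficients on arbitrary nonempty sets in the windows -/
theorem exo (K : ℝ → ℝ) (C0 : ℝ) (hK : Continuous K) (hC : 0 < C0)
    (hlip : ∀ r r' : ℝ, 0 ≤ r → 0 ≤ r' → |K r - K r'| ≤ C0 * |r - r'|)
    (L : ℕ) (hL : 1 ≤ L) (d : ℝ) (hd : 8 * (L : ℝ) ≤ d) (P : ℕ → Finset ℕ) (J0 : ℕ)
    (hP : ∀ j, J0 ≤ j → (P j).Nonempty ∧ ∀ p ∈ P j, j ^ L < p ∧ p ≤ (j + 1) ^ L) :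
    ∃ κ : ℝ, 0 < κ ∧ ∃ c : ArithmeticFunction ℝ, Nle (3 / d) c 1 ∧ c 1 = 0 ∧
      (∀ n, c n ≠ 0 → ∃ j, J0 ≤ j ∧ n ∈ P j ∧
        |c n| ≤ 256 * (n : ℝ) ^ (3 / d) / (P j).card) ∧
      ∀ (f : ℝ → ℝ) (M : ℝ), Continuous f → (∀ x, 0 < x → |f x| * (1 + x) ^ 3 ≤ M) →
        (∀ x, 0 < x → f x = ∫ ξ in Ioi (0 : ℝ), K (x * ξ) * f ξ) →
        HasSum (fun n : ℕ => aexp c n * f (κ * (n : ℝ) ^ (1 / d))) 0 := by
  have hL' : (1 : ℝ) ≤ L := by exact_mod_cast hL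
  have hd0 : 0 < d := by linarith
  set β : ℝ := L / d with hβ
  have hβ0 : 0 < β := by positivity
  have hβ1 : β ≤ 1 / 8 := by rw [hβ, div_le_iff₀ hd0]; linarith
  set δ : ℝ := min 1 (1 / (32 * C0)) with hδ
  have hδ0 : 0 < δ := lt_min one_pos (by positivity)
  have hδ1 : δ ≤ 1 := min_le_left _ _
  have hδ2 : C0 * (16 * δ) ≤ 1 / 2 := by
    have : δ ≤ 1 / (32 * C0) := min_le_right _ _
    rw [le_div_iff₀ (by positivity)] at this; linarith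
  set q : ℝ := (1 + 1 / δ) ^ 3 with hq
  have hq1 : 1 ≤ q := one_le_pow₀ (by have : 0 < 1 / δ := by positivity
                                      linarith)
  have hT : ∀ γ : ℝ, 0 < γ → Tendsto (fun J : ℕ => (J : ℝ) ^ γ) atTop atTop := fun γ hγ =>
    (tendsto_rpow_atTop hγ).comp tendsto_natCast_atTop_atTop
  obtain ⟨J, hJ0, hJ1, hJ2, hJ3⟩ : ∃ J : ℕ, J0 ≤ J ∧ 1 ≤ J ∧ 27 / (16 * δ) ≤ (J : ℝ) ^ (1 / 2 : ℝ) ∧
      2048 * q ^ 2 ≤ (J : ℝ) ^ β :=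
    ((eventually_ge_atTop J0).and ((eventually_ge_atTop 1).and
      (((hT _ (by norm_num)).eventually_ge_atTop _).and ((hT _ hβ0).eventually_ge_atTop _)))).exists
  have hJr : (1 : ℝ) ≤ J := by exact_mod_cast hJ1
  set κ : ℝ := δ / (J : ℝ) ^ β with hκ
  have hκ0 : 0 < κ := by positivity
  have hκs : κ ≤ 1 / (2048 * q ^ 2) := by
    rw [hκ]; exact div_le_div₀ zero_le_one hδ1 (by positivity) hJ3
  have hκ1 : κ ≤ 1 := hκs.trans (by rw [div_le_one (by positivity)]; nlinarith)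
  have hκ3 : κ ^ 3 * (2048 * q ^ 2) ≤ 1 := by
    rw [le_div_iff₀ (by positivity)] at hκs
    have : κ ^ 2 ≤ 1 := pow_le_one₀ hκ0.le hκ1
    calc κ ^ 3 * (2048 * q ^ 2) = κ ^ 2 * (κ * (2048 * q ^ 2)) := by ring
      _ ≤ 1 * 1 := by gcongr
      _ = 1 := by ring
  have hJ2' : 27 ≤ 16 * δ * (J : ℝ) ^ (1 / 2 : ℝ) := by
    rw [div_le_iff₀ (by positivity)] at hJ2; linarith
  have hnode : ∀ i, ∀ p ∈ P (J + i), κ * ((J + i : ℕ) : ℝ) ^ β < κ * (p : ℝ) ^ (1 / d) ∧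
      κ * (p : ℝ) ^ (1 / d) ≤ κ * (((J + i : ℕ) : ℝ) + 1) ^ β := by
    intro i p hp
    have h := (hP (J + i) (by omega)).2 p hp
    have h' := node_spec hd0 h.1 h.2
    exact ⟨mul_lt_mul_of_pos_left h'.1 hκ0, mul_le_mul_of_nonneg_left h'.2 hκ0.le⟩
  have hUδ : ∀ i : ℕ, δ ≤ κ * ((J + i : ℕ) : ℝ) ^ β := by
    intro i
    calc δ = κ * (J : ℝ) ^ β := by rw [hκ]; field_simp
      _ ≤ _ := by gcongr; omega
  have hnear : ∀ x, 0 < x → ∀ p ∈ P (J + widx κ β J x),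
      |x - κ * (p : ℝ) ^ (1 / d)| * (1 + x) ^ 3 ≤ 16 * δ ∧
      (1 + x) ^ 3 ≤ 8 * (1 + κ * ((J + widx κ β J x : ℕ) : ℝ) ^ β) ^ 3 := by
    intro x hx p hp
    obtain ⟨h1, h2⟩ := widx_spec hκ0 hβ0 J hx
    refine near_aux hδ0 hδ1 hβ0 hβ1 hJ1 (Nat.le_add_right _ _) hJ2' hx h1 ?_ (hnode _ p hp).1
      (hnode _ p hp).2
    rcases h2 with h | ⟨h, h'⟩
    · exact Or.inl h
    · exact Or.inr ⟨by omega, h'⟩
  let D : LinData :=
    { K := K, C0 := C0, η := 16 * δ, idx := widx κ β J, N := fun i => P (J + i),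
      u := fun n => κ * (n : ℝ) ^ (1 / d), ρ := fun i => (1 + κ * ((J + i : ℕ) : ℝ) ^ β) ^ 3,
      contK := hK, C0pos := hC, lip := hlip, small := hδ2, midx := widx_meas _ _ _,
      ne := fun i => (hP (J + i) (by omega)).1,
      upos := fun i p hp => lt_of_le_of_lt (by positivity) (hnode i p hp).1,
      ρpos := fun i => by positivity,
      near := fun x hx p hp => (hnear x hx p hp).1,
      wt1 := fun x hx => by
        obtain ⟨p, hp⟩ := (hP (J + widx κ β J x) (by omega)).1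
        exact (hnear x hx p hp).2,
      wt2 := fun i p hp => by
        have := (hnode i p hp).1
        show (1 + κ * ((J + i : ℕ) : ℝ) ^ β) ^ 3 ≤ (1 + κ * (p : ℝ) ^ (1 / d)) ^ 3
        gcongr }
  have hcube : ∀ n : ℕ, ((n : ℝ) ^ (1 / d)) ^ 3 = (n : ℝ) ^ (3 / d) := by
    intro n
    rw [← Real.rpow_natCast, ← Real.rpow_mul (by positivity)]; congr 1; push_cast; ring
  have hp1 : ∀ i, ∀ p ∈ P (J + i), 2 ≤ p := by
    intro i p hp
    have h := ((hP (J + i) (by omega)).2 p hp).1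
    have : 1 ≤ (J + i) ^ L := Nat.one_le_pow _ _ (by omega)
    omega
  obtain ⟨c, hc1, hc2, hc3, hc4, hc5⟩ := D.core (3 / d) (16 / κ ^ 3) (κ ^ 3 * q)
    (by
      intro i j p hi hj
      have h1 := (hP (J + i) (by omega)).2 p hi
      have h2 := (hP (J + j) (by omega)).2 p hj
      have h3 : J + i < J + j + 1 := lt_of_pow_lt_pow_left₀ L (by omega) (h1.1.trans_le h2.2)
      have h4 : J + j < J + i + 1 := lt_of_pow_lt_pow_left₀ L (by omega) (h2.1.trans_le h1.2)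
      omega)
    hp1 (by positivity) (by positivity)
    (by
      intro n hn
      have hn' : (0 : ℝ) < n := by exact_mod_cast hn
      refine ⟨by show 0 < κ * (n : ℝ) ^ (1 / d); positivity, ?_⟩
      show 16 / (1 + κ * (n : ℝ) ^ (1 / d)) ^ 3 ≤ _
      rw [Real.rpow_neg hn'.le, ← hcube]
      calc 16 / (1 + κ * (n : ℝ) ^ (1 / d)) ^ 3 ≤ 16 / (κ * (n : ℝ) ^ (1 / d)) ^ 3 := by
            gcongr; linarith
        _ = _ := by field_simp)
    (by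
      intro i p hp
      have hp' : (0 : ℝ) < p := by have := hp1 i p hp; positivity
      show (p : ℝ) ^ (-(3 / d)) * (1 + κ * ((J + i : ℕ) : ℝ) ^ β) ^ 3 ≤ _
      rw [Real.rpow_neg hp'.le, ← hcube]
      have h1 := (hnode i p hp).1
      have h2 := hUδ i
      set U := κ * ((J + i : ℕ) : ℝ) ^ β
      have h3 : 1 + U ≤ (1 + 1 / δ) * (κ * (p : ℝ) ^ (1 / d)) := by
        have : 1 ≤ 1 / δ * U := by rw [one_div, le_inv_mul_iff₀ hδ0]; linarith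
        have h4 : 0 < 1 / δ := by positivity
        nlinarith
      have hU0 : 0 < U := by linarith
      calc (((p : ℝ) ^ (1 / d)) ^ 3)⁻¹ * (1 + U) ^ 3
          ≤ (((p : ℝ) ^ (1 / d)) ^ 3)⁻¹ * ((1 + 1 / δ) * (κ * (p : ℝ) ^ (1 / d))) ^ 3 := by gcongr
        _ = _ := by rw [hq]; field_simp)
    (by
      have : 0 < κ ^ 3 := by positivity
      nlinarith)
    (by
      calc 128 * (16 / κ ^ 3) * (κ ^ 3 * q) ^ 2 = κ ^ 3 * (2048 * q ^ 2) := by field_simp; ring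
        _ ≤ 1 := hκ3)
  refine ⟨κ, hκ0, c, hc1, hc2, ?_, fun f M h1 h2 h3 => hc5 f M ⟨h1, h2, h3⟩⟩
  intro n hn
  have : ∃ i, n ∈ D.N i := by by_contra h; exact hn (hc3 n h)
  obtain ⟨i, hi⟩ := this
  refine ⟨J + i, by omega, hi, (hc4 i n hi).trans ?_⟩
  show 32 * (1 + κ * ((J + i : ℕ) : ℝ) ^ β) ^ 3 / ((P (J + i)).card : ℝ) ≤ _
  refine div_le_div_of_nonneg_right ?_ (by positivity)
  have h1 := (hnode i n hi).1
  have h2 : 1 ≤ (n : ℝ) ^ (1 / d) :=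
    Real.one_le_rpow (by have := hp1 i n hi; exact_mod_cast (by omega : 1 ≤ n)) (by positivity)
  have h3 : 1 + κ * ((J + i : ℕ) : ℝ) ^ β ≤ 2 * (n : ℝ) ^ (1 / d) := by nlinarith
  rw [← hcube]
  calc 32 * (1 + κ * ((J + i : ℕ) : ℝ) ^ β) ^ 3 ≤ 32 * (2 * (n : ℝ) ^ (1 / d)) ^ 3 := by gcongr
    _ = _ := by ring

end Pool.Agent.Lead.Sel
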