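import Mathlib

/- Linear part: point evaluations are absolutely convergent combinations of window averages. -/

set_option autoImplicit false
open MeasureTheory Set Filter Topology

namespace Pool.Agent.Lead.Sel

abbrev X1 := lp (fun _ : ℕ => ℝ) 1

lemma X1.summable (β : X1) : Summable (fun i => |β i|) := by
  have h := (lp.memℓp β).summable (by simp)
  simpa using h

lemma X1.norm_eq (β : X1) : ‖β‖ = ∑' i, |β i| := by
  have h := lp.norm_eq_tsum_rpow (p := 1) (by simp) β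
  simpa using h

noncomputable def X1.mk (g : ℕ → ℝ) (h : Summable (fun i => |g i|)) : X1 :=
  ⟨g, by
    apply memℓp_gen
    simpa using h⟩

@[simp] lemma X1.mk_apply (g : ℕ → ℝ) (h : Summable (fun i => |g i|)) (i : ℕ) :
    (X1.mk g h) i = g i := rfl

lemma X1.summable_mul (β : X1) (w : ℕ → ℝ) (M : ℝ) (hw : ∀ i, |w i| ≤ M) :
    Summable (fun i => β i * w i) := by
  refine Summable.of_norm_bounded ((X1.summable β).mul_right M) ?_
  intro i
  rw [Real.norm_eq_abs, abs_mul]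
  exact mul_le_mul_of_nonneg_left (hw i) (abs_nonneg _)

/-- pairing with a bounded sequence -/
noncomputable def pair (w : ℕ → ℝ) (M : ℝ) (hw : ∀ i, |w i| ≤ M) : X1 →L[ℝ] ℝ :=
  LinearMap.mkContinuous
    { toFun := fun β => ∑' i, β i * w i
      map_add' := by
        intro β γ
        rw [← Summable.tsum_add (X1.summable_mul β w M hw) (X1.summable_mul γ w M hw)]
        congr 1; funext i; simp [add_mul]
      map_smul' := by
        intro c β
        simp only [RingHom.id_apply, smul_eq_mul]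
        rw [← tsum_mul_left]
        congr 1; funext i; simp [mul_assoc] } M (by
      intro β
      simp only [LinearMap.coe_mk, AddHom.coe_mk]
      rw [X1.norm_eq, mul_comm, ← tsum_mul_right]
      refine tsum_of_norm_bounded ((X1.summable β).mul_right M).hasSum ?_
      intro i
      rw [Real.norm_eq_abs, abs_mul]
      exact mul_le_mul_of_nonneg_left (hw i) (abs_nonneg _))

lemma pair_apply (w : ℕ → ℝ) (M : ℝ) (hw : ∀ i, |w i| ≤ M) (β : X1) :
    pair w M hw β = ∑' i, β i * w i := rfl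

lemma int_w : IntegrableOn (fun x : ℝ => x / (1 + x) ^ 3) (Ioi 0) ∧
    ∫ x in Ioi (0 : ℝ), x / (1 + x) ^ 3 ≤ 1 := by
  have h1 : ∀ x ∈ Ici (0 : ℝ), HasDerivAt (fun x : ℝ => -(1 + x)⁻¹) (((1 + x) ^ 2)⁻¹) x := by
    intro x hx
    have hx' : (1 + x) ≠ 0 := by have : (0 : ℝ) ≤ x := hx; positivity
    have := (((hasDerivAt_id' x).const_add 1).inv hx').neg
    have e : -(-1 / (1 + x) ^ 2) = ((1 + x) ^ 2)⁻¹ := by field_simp
    rw [e] at this
    exact this
  have h2 : Tendsto (fun x : ℝ => -(1 + x)⁻¹) atTop (𝓝 0) := by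
    have : Tendsto (fun x : ℝ => (1 + x)⁻¹) atTop (𝓝 0) :=
      tendsto_inv_atTop_zero.comp (tendsto_atTop_add_const_left _ 1 tendsto_id)
    simpa using this.neg
  have h3 : ∀ x ∈ Ioi (0 : ℝ), 0 ≤ ((1 + x) ^ 2)⁻¹ := fun x _ => by positivity
  have hi := integrableOn_Ioi_deriv_of_nonneg' h1 h3 h2
  have hv := integral_Ioi_of_hasDerivAt_of_nonneg' h1 h3 h2
  have hle : ∀ x ∈ Ioi (0 : ℝ), x / (1 + x) ^ 3 ≤ ((1 + x) ^ 2)⁻¹ := by
    intro x hx
    have hx0 : (0 : ℝ) < x := hx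
    rw [div_le_iff₀ (by positivity)]
    have : ((1 + x) ^ 2)⁻¹ * (1 + x) ^ 3 = 1 + x := by field_simp
    rw [this]; linarith
  have hint : IntegrableOn (fun x : ℝ => x / (1 + x) ^ 3) (Ioi 0) := by
    refine Integrable.mono' hi ?_ ?_
    · exact (by fun_prop : Measurable (fun x : ℝ => x / (1 + x) ^ 3)).aestronglyMeasurable
    · filter_upwards [ae_restrict_mem measurableSet_Ioi] with x hx
      have hx0 : (0 : ℝ) < x := hx
      rw [Real.norm_eq_abs, abs_of_nonneg (by positivity)]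
      exact hle x hx
  refine ⟨hint, ?_⟩
  have := setIntegral_mono_on hint hi measurableSet_Ioi hle
  rw [hv] at this
  simpa using this

/-- the data of the linear problem -/
structure LinData where
  K : ℝ → ℝ
  C0 : ℝ
  η : ℝ
  idx : ℝ → ℕ
  N : ℕ → Finset ℕ
  u : ℕ → ℝ
  ρ : ℕ → ℝ
  contK : Continuous K
  C0pos : 0 < C0
  lip : ∀ r r' : ℝ, 0 ≤ r → 0 ≤ r' → |K r - K r'| ≤ C0 * |r - r'|
  small : C0 * η ≤ 1 / 2
  midx : Measurable idx
  ne : ∀ i, (N i).Nonempty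
  upos : ∀ i, ∀ p ∈ N i, 0 < u p
  ρpos : ∀ i, 0 < ρ i
  near : ∀ x, 0 < x → ∀ p ∈ N (idx x), |x - u p| * (1 + x) ^ 3 ≤ η
  wt1 : ∀ x, 0 < x → (1 + x) ^ 3 ≤ 8 * ρ (idx x)
  wt2 : ∀ i, ∀ p ∈ N i, ρ i ≤ (1 + u p) ^ 3

namespace LinData
variable (D : LinData)

noncomputable def avg (g : ℝ → ℝ) (i : ℕ) : ℝ := (∑ p ∈ D.N i, g (D.u p)) / (D.N i).card

/-- the fixed functions of the kernel, with bound M -/
def Fix (f : ℝ → ℝ) (M : ℝ) : Prop :=
  Continuous f ∧ (∀ x, 0 < x → |f x| * (1 + x) ^ 3 ≤ M) ∧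
    ∀ x, 0 < x → f x = ∫ ξ in Ioi (0 : ℝ), D.K (x * ξ) * f ξ

lemma card_pos (i : ℕ) : (0 : ℝ) < (D.N i).card := by
  exact_mod_cast (D.ne i).card_pos

lemma abs_avg_le (g : ℝ → ℝ) (i : ℕ) (B : ℝ) (h : ∀ p ∈ D.N i, |g (D.u p)| ≤ B) :
    |D.avg g i| ≤ B := by
  unfold avg
  rw [abs_div, abs_of_pos (D.card_pos i), div_le_iff₀ (D.card_pos i)]
  calc |∑ p ∈ D.N i, g (D.u p)| ≤ ∑ p ∈ D.N i, |g (D.u p)| := Finset.abs_sum_le_sum_abs _ _
    _ ≤ ∑ p ∈ D.N i, B := Finset.sum_le_sum h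
    _ = B * (D.N i).card := by simp [mul_comm]

lemma avg_bound {f : ℝ → ℝ} {M : ℝ} (hf : D.Fix f M) (i : ℕ) : |D.ρ i * D.avg f i| ≤ M := by
  rw [abs_mul, abs_of_pos (D.ρpos i), mul_comm, ← le_div_iff₀ (D.ρpos i)]
  apply D.abs_avg_le
  intro p hp
  rw [le_div_iff₀ (D.ρpos i)]
  exact (mul_le_mul_of_nonneg_left (D.wt2 i p hp) (abs_nonneg _)).trans (hf.2.1 _ (D.upos i p hp))

/-- evaluation functional -/
noncomputable def ev {f : ℝ → ℝ} {M : ℝ} (hf : D.Fix f M) : X1 →L[ℝ] ℝ :=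
  pair (fun i => D.ρ i * D.avg f i) M (D.avg_bound hf)

noncomputable def k (x ξ : ℝ) : ℝ := D.K (x * ξ) - D.avg (fun y => D.K (y * ξ)) (D.idx x)

lemma η_nonneg : 0 ≤ D.η := by
  obtain ⟨p, hp⟩ := D.ne (D.idx 1)
  exact le_trans (by positivity) (D.near 1 one_pos p hp)

lemma k_bound {x ξ : ℝ} (hx : 0 < x) (hξ : 0 < ξ) : |D.k x ξ| ≤ 1 / 2 / (1 + x) ^ 3 * ξ := by
  have h1 : D.k x ξ = D.avg (fun y => D.K (x * ξ) - D.K (y * ξ)) (D.idx x) := by
    unfold k avg
    have := D.card_pos (D.idx x)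
    rw [Finset.sum_sub_distrib]
    simp only [Finset.sum_const, nsmul_eq_mul]
    field_simp
  rw [h1]
  apply D.abs_avg_le
  intro p hp
  have hu := D.upos _ p hp
  have h2 := D.lip (x * ξ) (D.u p * ξ) (by positivity) (by positivity)
  have h3 := D.near x hx p hp
  have h4 : |x * ξ - D.u p * ξ| = |x - D.u p| * ξ := by
    rw [← sub_mul, abs_mul, abs_of_pos hξ]
  have h5 : |x - D.u p| ≤ D.η / (1 + x) ^ 3 := by rw [le_div_iff₀ (by positivity)]; exact h3
  have hC := D.C0pos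
  calc _ ≤ D.C0 * (|x - D.u p| * ξ) := by rw [← h4]; exact h2
    _ ≤ D.C0 * (D.η / (1 + x) ^ 3 * ξ) := by gcongr
    _ = (D.C0 * D.η) / (1 + x) ^ 3 * ξ := by ring
    _ ≤ 1 / 2 / (1 + x) ^ 3 * ξ := by gcongr; exact D.small

lemma k_meas : Measurable (fun q : ℝ × ℝ => D.k q.1 q.2) := by
  unfold k
  have hK := D.contK
  refine Measurable.sub (hK.measurable.comp (measurable_fst.mul measurable_snd)) ?_
  have h1 : Measurable (fun q : ℕ × ℝ => D.avg (fun y => D.K (y * q.2)) q.1) := by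
    apply measurable_from_prod_countable_right
    intro i
    unfold avg
    simp only
    refine Measurable.div_const (Finset.measurable_sum _ fun p _ => ?_) _
    exact hK.measurable.comp (measurable_const.mul measurable_id)
  exact h1.comp ((D.midx.comp measurable_fst).prodMk measurable_snd)

lemma fix_M_nonneg {f : ℝ → ℝ} {M : ℝ} (hf : D.Fix f M) : 0 ≤ M :=
  le_trans (by positivity) (hf.2.1 1 one_pos)

lemma fix_le {f : ℝ → ℝ} {M : ℝ} (hf : D.Fix f M) {x : ℝ} (hx : 0 < x) :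
    |f x| ≤ M / (1 + x) ^ 3 := by
  rw [le_div_iff₀ (by positivity)]; exact hf.2.1 x hx

/-- integrability of a linearly bounded function against a fixed function -/
lemma int_lin {f : ℝ → ℝ} {M : ℝ} (hf : D.Fix f M) {h : ℝ → ℝ} (hm : Measurable h) {B : ℝ}
    (hB : ∀ ξ, 0 < ξ → |h ξ| ≤ B * ξ) :
    IntegrableOn (fun ξ => h ξ * f ξ) (Ioi 0) ∧ |∫ ξ in Ioi (0 : ℝ), h ξ * f ξ| ≤ B * M := by
  have hB0 : 0 ≤ B := by have := hB 1 one_pos; have h2 := abs_nonneg (h 1); linarith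
  have hM := D.fix_M_nonneg hf
  have hb : ∀ᵐ ξ ∂(volume.restrict (Ioi (0 : ℝ))), ‖h ξ * f ξ‖ ≤ B * M * (ξ / (1 + ξ) ^ 3) := by
    filter_upwards [ae_restrict_mem measurableSet_Ioi] with ξ hξ
    have hξ0 : (0 : ℝ) < ξ := hξ
    rw [Real.norm_eq_abs, abs_mul]
    calc |h ξ| * |f ξ| ≤ (B * ξ) * (M / (1 + ξ) ^ 3) :=
          mul_le_mul (hB ξ hξ0) (D.fix_le hf hξ0) (abs_nonneg _) (by positivity)
      _ = _ := by ring
  have hi : Integrable (fun ξ : ℝ => B * M * (ξ / (1 + ξ) ^ 3)) (volume.restrict (Ioi 0)) :=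
    int_w.1.const_mul _
  refine ⟨Integrable.mono' hi (hm.mul hf.1.measurable).aestronglyMeasurable hb, ?_⟩
  have := norm_integral_le_of_norm_le hi hb
  rw [integral_const_mul] at this
  rw [← Real.norm_eq_abs]
  refine this.trans ?_
  have := int_w.2
  have h2 : 0 ≤ B * M := by positivity
  nlinarith

lemma int_K {f : ℝ → ℝ} {M : ℝ} (hf : D.Fix f M) {x : ℝ} (hx : 0 < x) :
    IntegrableOn (fun ξ => D.K (x * ξ) * f ξ) (Ioi 0) := by
  have h1 := (D.int_lin hf (h := fun ξ => D.K (x * ξ) - D.K 0)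
    ((D.contK.measurable.comp (measurable_const.mul measurable_id)).sub measurable_const)
    (B := D.C0 * x) (by
      intro ξ hξ
      have := D.lip (x * ξ) 0 (by positivity) le_rfl
      rw [sub_zero, abs_of_pos (by positivity : 0 < x * ξ)] at this
      linarith)).1
  have hM := D.fix_M_nonneg hf
  have h2 : IntegrableOn f (Ioi 0) := by
    have h3 : IntegrableOn f (Ioc 0 1) := hf.1.integrableOn_Ioc
    have h4 : IntegrableOn f (Ioi 1) := by
      have h5 : IntegrableOn (fun ξ : ℝ => M * (ξ / (1 + ξ) ^ 3)) (Ioi 1) :=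
        (IntegrableOn.mono_set int_w.1 (Ioi_subset_Ioi zero_le_one)).const_mul M
      refine Integrable.mono' h5 hf.1.measurable.aestronglyMeasurable ?_
      filter_upwards [ae_restrict_mem measurableSet_Ioi] with ξ hξ
      have hξ1 : (1 : ℝ) < ξ := hξ
      rw [Real.norm_eq_abs]
      refine (D.fix_le hf (by linarith)).trans ?_
      rw [← mul_div_assoc]
      gcongr
      nlinarith
    have := h3.union h4
    rwa [Ioc_union_Ioi_eq_Ioi zero_le_one] at this
  have h6 := h1.add (h2.const_mul (D.K 0))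
  refine h6.congr (Eventually.of_forall fun ξ => ?_)
  simp only [Pi.add_apply]; ring

lemma fix_split {f : ℝ → ℝ} {M : ℝ} (hf : D.Fix f M) {x : ℝ} (hx : 0 < x) :
    f x = D.avg f (D.idx x) + ∫ ξ in Ioi (0 : ℝ), D.k x ξ * f ξ := by
  have h1 : ∀ ξ, D.k x ξ * f ξ = D.K (x * ξ) * f ξ -
      (∑ p ∈ D.N (D.idx x), D.K (D.u p * ξ) * f ξ) / (D.N (D.idx x)).card := by
    intro ξ
    unfold k avg
    rw [← Finset.sum_mul]; ring
  simp_rw [h1]
  have h2 : ∀ p ∈ D.N (D.idx x), Integrable (fun ξ => D.K (D.u p * ξ) * f ξ)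
      (volume.restrict (Ioi 0)) := fun p hp => D.int_K hf (D.upos _ p hp)
  rw [integral_sub (D.int_K hf hx) ((integrable_finsetSum _ h2).div_const _), integral_div,
    integral_finsetSum _ h2, ← hf.2.2 x hx]
  have h3 : ∑ p ∈ D.N (D.idx x), ∫ ξ in Ioi (0 : ℝ), D.K (D.u p * ξ) * f ξ =
      ∑ p ∈ D.N (D.idx x), f (D.u p) :=
    Finset.sum_congr rfl fun p hp => (hf.2.2 _ (D.upos _ p hp)).symm
  rw [h3]; unfold avg; ring

end LinData

end Pool.Agent.Lead.Sel
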