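import Pool.Agent.Lead.Sel.Lin

set_option autoImplicit false
open MeasureTheory Set Filter Topology

namespace Pool.Agent.Lead.Sel
namespace LinData
variable (D : LinData)

def cell (i : ℕ) : Set ℝ := Ioi 0 ∩ D.idx ⁻¹' {i}

lemma cell_meas (i : ℕ) : MeasurableSet (D.cell i) :=
  measurableSet_Ioi.inter (D.midx (measurableSet_singleton i))

lemma cell_disj : Pairwise (Function.onFun Disjoint D.cell) := by
  intro i j hij
  rw [Function.onFun, Set.disjoint_left]
  intro x hi hj
  exact hij (hi.2.symm.trans hj.2)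

lemma cell_union : (⋃ i, D.cell i) = Ioi 0 := by
  ext x
  simp only [cell, mem_iUnion, mem_inter_iff, mem_preimage, mem_singleton_iff]
  exact ⟨fun ⟨_, h, _⟩ => h, fun h => ⟨_, h, rfl⟩⟩

noncomputable def next (h : ℝ → ℝ) (ξ : ℝ) : ℝ := ∫ x in Ioi (0 : ℝ), h x * D.k x ξ

lemma next_meas {h : ℝ → ℝ} (hm : Measurable h) : Measurable (D.next h) := by
  have h1 : Measurable (fun q : ℝ × ℝ => h q.1 * D.k q.1 q.2) :=
    (hm.comp measurable_fst).mul D.k_meas
  exact (h1.stronglyMeasurable.integral_prod_left' (μ := volume.restrict (Ioi 0))).measurable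

lemma next_bound {h : ℝ → ℝ} {B : ℝ} (hB : ∀ ξ, 0 < ξ → |h ξ| ≤ B * ξ) (ξ : ℝ) (hξ : 0 < ξ) :
    |D.next h ξ| ≤ B / 2 * ξ := by
  have hB0 : 0 ≤ B := by have := hB 1 one_pos; have h2 := abs_nonneg (h 1); linarith
  have hb : ∀ᵐ x ∂(volume.restrict (Ioi (0 : ℝ))),
      ‖h x * D.k x ξ‖ ≤ B / 2 * ξ * (x / (1 + x) ^ 3) := by
    filter_upwards [ae_restrict_mem measurableSet_Ioi] with x hx
    have hx0 : (0 : ℝ) < x := hx
    rw [Real.norm_eq_abs, abs_mul]
    calc |h x| * |D.k x ξ| ≤ (B * x) * (1 / 2 / (1 + x) ^ 3 * ξ) :=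
          mul_le_mul (hB x hx0) (D.k_bound hx0 hξ) (abs_nonneg _) (by positivity)
      _ = _ := by ring
  have hi : Integrable (fun x : ℝ => B / 2 * ξ * (x / (1 + x) ^ 3)) (volume.restrict (Ioi 0)) :=
    int_w.1.const_mul _
  have := norm_integral_le_of_norm_le hi hb
  rw [integral_const_mul] at this
  rw [← Real.norm_eq_abs]
  refine this.trans ?_
  have := int_w.2
  have h2 : 0 ≤ B / 2 * ξ := by positivity
  nlinarith

/-- the weighted function h / rho -/
lemma int_div {h : ℝ → ℝ} (hm : Measurable h) {B : ℝ} (hB : ∀ ξ, 0 < ξ → |h ξ| ≤ B * ξ) :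
    IntegrableOn (fun x => h x / D.ρ (D.idx x)) (Ioi 0) ∧
      ∫ x in Ioi (0 : ℝ), |h x / D.ρ (D.idx x)| ≤ 8 * B := by
  have hB0 : 0 ≤ B := by have := hB 1 one_pos; have h2 := abs_nonneg (h 1); linarith
  have hb : ∀ x ∈ Ioi (0 : ℝ), |h x / D.ρ (D.idx x)| ≤ 8 * B * (x / (1 + x) ^ 3) := by
    intro x hx
    have hx0 : (0 : ℝ) < x := hx
    have hρ := D.ρpos (D.idx x)
    rw [abs_div, abs_of_pos hρ, div_le_iff₀ hρ]
    have h1 := D.wt1 x hx0
    calc |h x| ≤ B * x := hB x hx0
      _ = B * (x / (1 + x) ^ 3) * (1 + x) ^ 3 := by field_simp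
      _ ≤ B * (x / (1 + x) ^ 3) * (8 * D.ρ (D.idx x)) := by gcongr
      _ = _ := by ring
  have hi : IntegrableOn (fun x : ℝ => 8 * B * (x / (1 + x) ^ 3)) (Ioi 0) :=
    int_w.1.const_mul _
  have hmeas : Measurable (fun x => h x / D.ρ (D.idx x)) :=
    hm.div ((measurable_from_top (f := D.ρ)).comp D.midx)
  have hint : IntegrableOn (fun x => h x / D.ρ (D.idx x)) (Ioi 0) := by
    refine Integrable.mono' hi hmeas.aestronglyMeasurable ?_
    filter_upwards [ae_restrict_mem measurableSet_Ioi] with x hx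
    exact hb x hx
  refine ⟨hint, ?_⟩
  have := setIntegral_mono_on hint.abs hi measurableSet_Ioi hb
  rw [integral_const_mul] at this
  have h3 := int_w.2
  have h2 : 0 ≤ 8 * B := by positivity
  nlinarith

lemma step {h : ℝ → ℝ} (hm : Measurable h) {B : ℝ} (hB : ∀ ξ, 0 < ξ → |h ξ| ≤ B * ξ) :
    ∃ β : X1, ‖β‖ ≤ 8 * B ∧ ∀ (f : ℝ → ℝ) (M : ℝ) (hf : D.Fix f M),
      ∫ ξ in Ioi (0 : ℝ), h ξ * f ξ = D.ev hf β + ∫ ξ in Ioi (0 : ℝ), D.next h ξ * f ξ := by
  have hB0 : 0 ≤ B := by have := hB 1 one_pos; have h2 := abs_nonneg (h 1); linarith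
  obtain ⟨hi, hn⟩ := D.int_div hm hB
  set g : ℝ → ℝ := fun x => h x / D.ρ (D.idx x) with hg
  have hiu : IntegrableOn g (⋃ i, D.cell i) := by rw [D.cell_union]; exact hi
  have habs := hasSum_integral_iUnion D.cell_meas D.cell_disj (f := fun x => |g x|) hiu.abs
  rw [D.cell_union] at habs
  have hle : ∀ i, |∫ x in D.cell i, g x| ≤ ∫ x in D.cell i, |g x| := fun i =>
    abs_integral_le_integral_abs
  have hs : Summable (fun i => |∫ x in D.cell i, g x|) :=
    Summable.of_nonneg_of_le (fun i => abs_nonneg _) hle habs.summable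
  refine ⟨X1.mk _ hs, ?_, ?_⟩
  · rw [X1.norm_eq]
    simp only [X1.mk_apply]
    refine le_trans (hs.tsum_le_tsum hle habs.summable) ?_
    rw [habs.tsum_eq]; exact hn
  · intro f M hf
    have hM := D.fix_M_nonneg hf
    have hA : ∀ x, 0 < x → h x * D.avg f (D.idx x) =
        g x * (D.ρ (D.idx x) * D.avg f (D.idx x)) := by
      intro x _
      have := D.ρpos (D.idx x)
      simp only [hg]; field_simp
    have hmA : Measurable (fun x => D.ρ (D.idx x) * D.avg f (D.idx x)) :=
      (measurable_from_top (f := fun i => D.ρ i * D.avg f i)).comp D.midx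
    have hiA : IntegrableOn (fun x => g x * (D.ρ (D.idx x) * D.avg f (D.idx x))) (Ioi 0) := by
      refine Integrable.mul_bdd (c := M) hi hmA.aestronglyMeasurable ?_
      exact Eventually.of_forall fun x => D.avg_bound hf _
    have hsum := hasSum_integral_iUnion D.cell_meas D.cell_disj
      (f := fun x => g x * (D.ρ (D.idx x) * D.avg f (D.idx x)))
      (by rw [D.cell_union]; exact hiA)
    rw [D.cell_union] at hsum
    have hev : D.ev hf (X1.mk _ hs) =
        ∫ x in Ioi (0 : ℝ), g x * (D.ρ (D.idx x) * D.avg f (D.idx x)) := by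
      rw [← hsum.tsum_eq]
      unfold ev
      rw [pair_apply]
      congr 1; funext i
      rw [X1.mk_apply, ← integral_mul_const]
      refine setIntegral_congr_fun (D.cell_meas i) ?_
      intro x hx
      have : D.idx x = i := hx.2
      simp only [this]
    have hprod : Integrable (Function.uncurry fun x ξ => h x * D.k x ξ * f ξ)
        ((volume.restrict (Ioi (0 : ℝ))).prod (volume.restrict (Ioi (0 : ℝ)))) := by
      have hb := Integrable.mul_prod (int_w.1.const_mul (B / 2)) (int_w.1.const_mul M)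
      refine Integrable.mono' hb ?_ ?_
      · exact (((hm.comp measurable_fst).mul D.k_meas).mul
          (hf.1.measurable.comp measurable_snd)).aestronglyMeasurable
      · rw [Measure.prod_restrict]
        filter_upwards [ae_restrict_mem (measurableSet_Ioi.prod measurableSet_Ioi)] with q hq
        have hx0 : (0 : ℝ) < q.1 := hq.1
        have hξ0 : (0 : ℝ) < q.2 := hq.2
        simp only [Function.uncurry]
        rw [Real.norm_eq_abs, abs_mul, abs_mul]
        calc |h q.1| * |D.k q.1 q.2| * |f q.2|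
            ≤ (B * q.1) * (1 / 2 / (1 + q.1) ^ 3 * q.2) * (M / (1 + q.2) ^ 3) := by
              refine mul_le_mul (mul_le_mul (hB _ hx0) (D.k_bound hx0 hξ0) (abs_nonneg _)
                (by positivity)) (D.fix_le hf hξ0) (abs_nonneg _) (by positivity)
          _ = _ := by ring
    have hswap := integral_integral_swap hprod
    have hnext : ∫ ξ in Ioi (0 : ℝ), D.next h ξ * f ξ =
        ∫ x in Ioi (0 : ℝ), h x * ∫ ξ in Ioi (0 : ℝ), D.k x ξ * f ξ := by
      have e1 : ∀ ξ, D.next h ξ * f ξ = ∫ x in Ioi (0 : ℝ), h x * D.k x ξ * f ξ := by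
        intro ξ; unfold next; rw [integral_mul_const]
      have e2 : ∀ x, h x * ∫ ξ in Ioi (0 : ℝ), D.k x ξ * f ξ =
          ∫ ξ in Ioi (0 : ℝ), h x * D.k x ξ * f ξ := by
        intro x; rw [← integral_const_mul]; congr 1; funext ξ; ring
      simp_rw [e1, e2]; exact hswap.symm
    have hi2 : IntegrableOn (fun x => h x * ∫ ξ in Ioi (0 : ℝ), D.k x ξ * f ξ) (Ioi 0) := by
      have := hprod.integral_prod_left
      refine this.congr (Eventually.of_forall fun x => ?_)
      simp only [Function.uncurry]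
      rw [← integral_const_mul]; congr 1; funext ξ; ring
    rw [hev, hnext, ← integral_add hiA hi2]
    refine setIntegral_congr_fun measurableSet_Ioi ?_
    intro x hx
    have hx0 : (0 : ℝ) < x := hx
    simp only
    rw [← hA x hx0, ← mul_add, ← D.fix_split hf hx0]

lemma iter_prop {h : ℝ → ℝ} (hm : Measurable h) {B : ℝ} (hB : ∀ ξ, 0 < ξ → |h ξ| ≤ B * ξ) (n : ℕ) :
    Measurable (D.next^[n] h) ∧ ∀ ξ, 0 < ξ → |(D.next^[n] h) ξ| ≤ B / 2 ^ n * ξ := by
  induction n with
  | zero => simpa using ⟨hm, hB⟩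
  | succ n ih =>
    rw [Function.iterate_succ_apply']
    refine ⟨D.next_meas ih.1, fun ξ hξ => ?_⟩
    have := D.next_bound ih.2 ξ hξ
    rwa [div_div, ← pow_succ] at this

lemma repr_int {h : ℝ → ℝ} (hm : Measurable h) {B : ℝ} (hB : ∀ ξ, 0 < ξ → |h ξ| ≤ B * ξ) :
    ∃ β : X1, ‖β‖ ≤ 16 * B ∧ ∀ (f : ℝ → ℝ) (M : ℝ) (hf : D.Fix f M),
      ∫ ξ in Ioi (0 : ℝ), h ξ * f ξ = D.ev hf β := by
  choose β hβ hev using fun n => D.step (D.iter_prop hm hB n).1 (D.iter_prop hm hB n).2
  have hg : HasSum (fun n : ℕ => 8 * (B / 2 ^ n)) (16 * B) := by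
    have := (hasSum_geometric_two).mul_left (8 * B)
    have e1 : (fun n : ℕ => 8 * (B / 2 ^ n)) = fun n : ℕ => 8 * B * (1 / 2) ^ n := by
      funext n; rw [one_div, inv_pow]; ring
    have e2 : 16 * B = 8 * B * 2 := by ring
    rw [e1, e2]; exact this
  have hs : Summable β := Summable.of_norm_bounded hg.summable hβ
  refine ⟨∑' n, β n, tsum_of_norm_bounded hg hβ, fun f M hf => ?_⟩
  have h1 : HasSum (fun n => D.ev hf (β n)) (D.ev hf (∑' n, β n)) := (D.ev hf).hasSum hs.hasSum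
  set I : ℕ → ℝ := fun n => ∫ ξ in Ioi (0 : ℝ), (D.next^[n] h) ξ * f ξ with hI
  have h2 : ∀ n, D.ev hf (β n) = I n - I (n + 1) := by
    intro n
    have := hev n f M hf
    simp only [hI, Function.iterate_succ_apply']
    linarith
  have h3 : Tendsto I atTop (𝓝 0) := by
    have hb : ∀ n, ‖I n‖ ≤ B / 2 ^ n * M := fun n =>
      (D.int_lin hf (D.iter_prop hm hB n).1 (D.iter_prop hm hB n).2).2
    refine squeeze_zero_norm hb ?_
    have := (hg.summable.tendsto_atTop_zero.const_mul (1 / 8)).mul_const M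
    simp only [mul_zero, zero_mul] at this
    refine this.congr fun n => by ring
  have h4 := h1.tendsto_sum_nat
  simp_rw [h2, Finset.sum_range_sub'] at h4
  have h5 : Tendsto (fun n => I 0 - I n) atTop (𝓝 (I 0 - 0)) := tendsto_const_nhds.sub h3
  have := tendsto_nhds_unique h4 h5
  rw [this]; simp [hI]

/-- every point evaluation is represented -/
theorem repr_pt (x : ℝ) (hx : 0 < x) :
    ∃ β : X1, ‖β‖ ≤ 16 / (1 + x) ^ 3 ∧ ∀ (f : ℝ → ℝ) (M : ℝ) (hf : D.Fix f M),
      D.ev hf β = f x := by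
  have hm : Measurable (fun ξ => D.k x ξ) := D.k_meas.comp (measurable_const.prodMk measurable_id)
  obtain ⟨β, hβ, hev⟩ := D.repr_int hm (fun ξ hξ => D.k_bound hx hξ)
  have hρ := D.ρpos (D.idx x)
  refine ⟨lp.single 1 (D.idx x) (D.ρ (D.idx x))⁻¹ + β, ?_, fun f M hf => ?_⟩
  · refine (norm_add_le _ _).trans ?_
    rw [lp.norm_single (by norm_num), Real.norm_eq_abs, abs_of_pos (inv_pos.2 hρ)]
    have h1 : (D.ρ (D.idx x))⁻¹ ≤ 8 / (1 + x) ^ 3 := by
      rw [le_div_iff₀ (by positivity), inv_mul_le_iff₀ hρ]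
      have := D.wt1 x hx; linarith
    have h2 : 16 * (1 / 2 / (1 + x) ^ 3) = 8 / (1 + x) ^ 3 := by ring
    have h3 : 16 / (1 + x) ^ 3 = 8 / (1 + x) ^ 3 + 8 / (1 + x) ^ 3 := by ring
    rw [h2] at hβ; linarith
  · rw [map_add, ← hev f M hf, D.fix_split hf hx]
    congr 1
    unfold ev
    rw [pair_apply, tsum_eq_single (D.idx x)]
    · rw [lp.single_apply_self]; field_simp
    · intro i hi
      rw [lp.single_apply_ne _ _ _ hi]; simp

end LinData
end Pool.Agent.Lead.Sel
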